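import Mathlib

set_option autoImplicit false

namespace Pool.Agent.MP_99d1ae_lc

/-- `v ∈ (N_i ∪ T)^*`, where `N_i` is the set of nonterminals `A` with `comp A = i`. -/
def Over {T N : Type} {n : ℕ} (comp : N → Fin n) (i : Fin n) (v : List (Symbol T N)) : Prop :=
  ∀ A, Symbol.nonterminal A ∈ v → comp A = i

/-- One mode-1 step of an even matrix grammar with the given set of `n`-tuple rules. -/
def Step1 {T N : Type} {n : ℕ} (comp : N → Fin n)
    (rules : Set ((Fin n → N) × (Fin n → List (Symbol T N)))) (x y : List (Symbol T N)) : Prop :=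
  ∃ r ∈ rules, ∃ u w : Fin n → List (Symbol T N),
    (∀ i, Over comp i (u i ++ w i) ∧ Symbol.nonterminal (r.1 i) ∉ u i) ∧
    x = (List.ofFn fun i => u i ++ [Symbol.nonterminal (r.1 i)] ++ w i).flatten ∧
    y = (List.ofFn fun i => u i ++ r.2 i ++ w i).flatten

/-- `L = L_1(G)` for an even matrix grammar `G` of some degree `n ≥ 1`; `start` is the set of
right-hand sides of the rules for the start symbol. -/
def IsEM1 {T : Type} (L : Language T) : Prop :=
  ∃ (n : ℕ) (N : Type) (_ : Finite N) (comp : N → Fin n) (start : Set (List (Symbol T N)))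
    (rules : Set ((Fin n → N) × (Fin n → List (Symbol T N)))),
    1 ≤ n ∧ start.Finite ∧ rules.Finite ∧
    (∀ v ∈ start, (∀ A, Symbol.nonterminal A ∉ v) ∨
      ∃ p : Fin n → List (Symbol T N), v = (List.ofFn p).flatten ∧
        ∀ i, Over comp i (p i) ∧ ∃ A, Symbol.nonterminal A ∈ p i) ∧
    (∀ r ∈ rules, ∀ i, comp (r.1 i) = i ∧ Over comp i (r.2 i)) ∧
    ∀ w, w ∈ L ↔ ∃ v ∈ start, Relation.ReflTransGen (Step1 comp rules) v (w.map Symbol.terminal)

/-- Application of a matrix: its context-free rules are applied one after the other. -/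
def MatStep {T N : Type} : List (ContextFreeRule T N) → List (Symbol T N) → List (Symbol T N) → Prop
  | [], x, y => x = y
  | r :: m, x, y => ∃ z, r.Rewrites x z ∧ MatStep m z y

/-- `L` is generated by a matrix grammar without appearance checking, erasing rules allowed. -/
def IsMatrix {T : Type} (L : Language T) : Prop :=
  ∃ (N : Type) (_ : Finite N) (S : N) (M : Set (List (ContextFreeRule T N))), M.Finite ∧
    ∀ w, w ∈ L ↔ Relation.ReflTransGen (fun x y => ∃ m ∈ M, MatStep m x y)
      [Symbol.nonterminal S] (w.map Symbol.terminal)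

/-- `L` is context-sensitive: up to the empty word, it is generated by a noncontracting grammar. -/
def IsCS {T : Type} (L : Language T) : Prop :=
  ∃ (N : Type) (_ : Finite N) (S : N) (R : Set (List (Symbol T N) × List (Symbol T N))),
    R.Finite ∧ (∀ r ∈ R, (∃ A, Symbol.nonterminal A ∈ r.1) ∧ r.1.length ≤ r.2.length) ∧
    ∀ w, w ≠ [] → (w ∈ L ↔ Relation.ReflTransGen
      (fun x y => ∃ r ∈ R, ∃ p q, x = p ++ r.1 ++ q ∧ y = p ++ r.2 ++ q)
      [Symbol.nonterminal S] (w.map Symbol.terminal))

end Pool.Agent.MP_99d1ae_lc
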