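import Mathlib

set_option autoImplicit false

namespace Pool.Agent.MP_99d1ae_lc

open Relation

lemma rtg_lift {α β : Type} {r : α → α → Prop} {p : β → β → Prop} (f : α → β)
    (h : ∀ a b, r a b → p (f a) (f b)) {a b : α} (hab : ReflTransGen r a b) :
    ReflTransGen p (f a) (f b) := by
  induction hab with
  | refl => exact ReflTransGen.refl
  | tail _ hs ih => exact ih.tail (h _ _ hs)

lemma rtg_lift' {α β : Type} {r : α → α → Prop} {p : β → β → Prop} (f : α → β)
    (h : ∀ a b, r a b → ReflTransGen p (f a) (f b)) {a b : α} (hab : ReflTransGen r a b) :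
    ReflTransGen p (f a) (f b) := by
  induction hab with
  | refl => exact ReflTransGen.refl
  | tail _ hs ih => exact ih.trans (h _ _ hs)

section
variable {ι τ : Type}

/-- Runs of a labelled transition system on multisets, recording label and source. -/
inductive Run (Tr : Set τ) (St : τ → Multiset ι → Multiset ι → Prop) :
    Multiset ι → List (τ × Multiset ι) → Multiset ι → Prop
  | nil (c : Multiset ι) : Run Tr St c [] c
  | cons {t : τ} {c c' d : Multiset ι} {l : List (τ × Multiset ι)} :
      t ∈ Tr → St t c c' → Run Tr St c' l d → Run Tr St c ((t, c) :: l) d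

variable {Tr : Set τ} {St : τ → Multiset ι → Multiset ι → Prop}

lemma Run.reach {c d : Multiset ι} {l : List (τ × Multiset ι)} (h : Run Tr St c l d) :
    ReflTransGen (fun x y => ∃ t ∈ Tr, St t x y) c d := by
  induction h with
  | nil c => exact ReflTransGen.refl
  | cons ht hs _ ih => exact ReflTransGen.head ⟨_, ht, hs⟩ ih

lemma Run.mem {c d : Multiset ι} {l : List (τ × Multiset ι)} (h : Run Tr St c l d) :
    ∀ x ∈ l, x.1 ∈ Tr := by
  induction h with
  | nil c => simp
  | cons ht _ _ ih =>
    intro x hx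
    rcases List.mem_cons.mp hx with rfl | hx
    · exact ht
    · exact ih x hx

lemma exists_run {c d : Multiset ι} (h : ReflTransGen (fun x y => ∃ t ∈ Tr, St t x y) c d) :
    ∃ l, Run Tr St c l d := by
  induction h using ReflTransGen.head_induction_on with
  | refl => exact ⟨[], Run.nil _⟩
  | head hs _ ih =>
    obtain ⟨t, ht, hs⟩ := hs
    obtain ⟨l, hl⟩ := ih
    exact ⟨_, Run.cons ht hs hl⟩

lemma reach_add (mono : ∀ t c c' e, St t c c' → St t (c + e) (c' + e)) {c d : Multiset ι}
    (h : ReflTransGen (fun x y => ∃ t ∈ Tr, St t x y) c d) (e : Multiset ι) :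
    ReflTransGen (fun x y => ∃ t ∈ Tr, St t x y) (c + e) (d + e) := by
  induction h with
  | refl => exact ReflTransGen.refl
  | tail _ hs ih =>
    obtain ⟨t, ht, hs⟩ := hs
    exact ih.tail ⟨t, ht, mono _ _ _ _ hs⟩

lemma reach_pump (mono : ∀ t c c' e, St t c c' → St t (c + e) (c' + e)) {c u v : Multiset ι}
    (h : ReflTransGen (fun x y => ∃ t ∈ Tr, St t x y) (c + u) (c + v)) (m : ℕ) :
    ReflTransGen (fun x y => ∃ t ∈ Tr, St t x y) (c + m • u) (c + m • v) := by
  induction m with
  | zero => simpa using ReflTransGen.refl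
  | succ m ih =>
    have h1 := reach_add mono h (m • u)
    have h2 := reach_add mono ih v
    have e1 : c + (m + 1) • u = c + u + m • u := by rw [succ_nsmul]; abel
    have e2 : c + v + m • u = c + m • u + v := by abel
    have e3 : c + (m + 1) • v = c + m • v + v := by rw [succ_nsmul]; abel
    rw [e1, e3]
    exact h1.trans (e2 ▸ h2)

lemma amalg (mono : ∀ t c c' e, St t c c' → St t (c + e) (c' + e))
    (eff : ∀ t c c' d d', St t c c' → St t d d' → c' + d = d' + c)
    {l l' : List (τ × Multiset ι)}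
    (hs : List.SublistForall₂ (fun a b : τ × Multiset ι => a.1 = b.1 ∧ a.2 ≤ b.2) l l') :
    ∀ {c u c' d v : Multiset ι}, Run Tr St c l d →
      ReflTransGen (fun x y => ∃ t ∈ Tr, St t x y) (c + u) c' → Run Tr St c' l' (d + v) →
      ∀ m : ℕ, ReflTransGen (fun x y => ∃ t ∈ Tr, St t x y) (c + m • u) (d + m • v) := by
  induction hs with
  | nil =>
    intro c u c' d v h1 h2 h3 m
    cases h1
    exact reach_pump mono (h2.trans h3.reach) m
  | @cons a b l1 l2 hab _ ih =>
    intro c u c' d v h1 h2 h3 m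
    cases h1 with
    | @cons t _ c1 _ _ ht hst hr =>
      cases h3 with
      | @cons t' _ c1' _ _ ht' hst' hr' =>
        obtain ⟨e1, e2⟩ := hab
        simp only at e1 e2
        subst e1
        obtain ⟨u', rfl⟩ := Multiset.le_iff_exists_add.mp e2
        have e3 : c1' = c1 + u' := by
          have := eff _ _ _ _ _ hst hst'
          have h4 : c1' + c = (c1 + u') + c := by rw [← this]; abel
          exact add_right_cancel h4
        subst e3
        have p1 := reach_pump mono h2 m
        have p2 := ih hr ReflTransGen.refl hr' m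
        exact p1.trans (ReflTransGen.head ⟨t, ht, mono _ _ _ _ hst⟩ p2)
  | @cons_right b l1 l2 _ ih =>
    intro c u c' d v h1 h2 h3 m
    cases h3 with
    | @cons t' _ c1' _ _ ht' hst' hr' =>
      exact ih h1 (h2.tail ⟨t', ht', hst'⟩) hr' m

lemma multiset_wqo [Finite ι] : WellQuasiOrdered (fun a b : Multiset ι => a ≤ b) := by
  classical
  intro f
  have h : WellQuasiOrdered (fun a b : ι → ℕ => a ≤ b) := wellQuasiOrdered_le
  obtain ⟨m, n, hmn, h⟩ := h (fun k i => (f k).count i)
  exact ⟨m, n, hmn, Multiset.le_iff_count.mpr fun i => h i⟩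

theorem pump [Finite ι] (hTr : Tr.Finite)
    (mono : ∀ t c c' e, St t c c' → St t (c + e) (c' + e))
    (eff : ∀ t c c' d d', St t c c' → St t d d' → c' + d = d' + c)
    {I : Set (Multiset ι)} (hI : I.Finite) (f : ℕ → Multiset ι)
    (hf : ∀ n, ∃ c ∈ I, ReflTransGen (fun x y => ∃ t ∈ Tr, St t x y) c (f n)) :
    ∃ i j, i < j ∧ ∃ v, f j = f i + v ∧ ∀ m : ℕ,
      ∃ c ∈ I, ReflTransGen (fun x y => ∃ t ∈ Tr, St t x y) c (f i + m • v) := by
  choose c hc hr using hf
  choose l hl using fun n => exists_run (hr n)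
  have hM : (Set.univ : Set (Multiset ι)).PartiallyWellOrderedOn (fun a b => a ≤ b) :=
    Set.partiallyWellOrderedOn_univ_iff.mpr multiset_wqo
  have hT : Tr.PartiallyWellOrderedOn (fun a b => a = b) := hTr.partiallyWellOrderedOn
  have hIw : I.PartiallyWellOrderedOn (fun a b => a = b) := hI.partiallyWellOrderedOn
  have hP := hT.prod hM
  have : IsPreorder (τ × Multiset ι) (fun a b : τ × Multiset ι => a.1 = b.1 ∧ a.2 ≤ b.2) :=
    { refl := fun a => ⟨rfl, le_rfl⟩
      trans := fun a b c h1 h2 => ⟨h1.1.trans h2.1, h1.2.trans h2.2⟩ }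
  have hH := Set.PartiallyWellOrderedOn.partiallyWellOrderedOn_sublistForall₂ _ hP
  have hAll := hIw.prod (hM.prod hH)
  obtain ⟨i, j, hij, h1, h2, h3⟩ := hAll.exists_lt (f := fun n => (c n, f n, l n))
    (fun n => ⟨hc n, Set.mem_univ _, fun x hx => ⟨(hl n).mem x hx, Set.mem_univ _⟩⟩)
  simp only at h1 h2 h3
  obtain ⟨v, hv⟩ := Multiset.le_iff_exists_add.mp h2
  refine ⟨i, j, hij, v, hv, fun m => ⟨c i, hc i, ?_⟩⟩
  have h4 : Run Tr St (c j) (l j) (f i + v) := hv ▸ hl j
  have := amalg mono eff h3 (u := 0) (hl i) (by rw [add_zero, h1]) h4 m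
  simpa using this

end

end Pool.Agent.MP_99d1ae_lc
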