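import Mathlib
import Pool.Agent.MP_99d1ae_lc.Defs
import Pool.Agent.MP_99d1ae_lc.Pump

set_option autoImplicit false

namespace Pool.Agent.MP_99d1ae_lc

open Relation

lemma coe_flatten_ofFn {α : Type} : ∀ {n : ℕ} (f : Fin n → List α),
    (((List.ofFn f).flatten : List α) : Multiset α) = ∑ i, (f i : Multiset α)
  | 0, f => by simp
  | n + 1, f => by
    rw [List.ofFn_succ, List.flatten_cons, Fin.sum_univ_succ, ← Multiset.coe_add,
      coe_flatten_ofFn]

lemma exists_map_terminal {T N : Type} : ∀ (y : List (Symbol T N)),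
    (∀ A, Symbol.nonterminal A ∉ y) → ∃ z : List T, y = z.map Symbol.terminal
  | [], _ => ⟨[], rfl⟩
  | Symbol.terminal t :: y, h => by
    obtain ⟨z, rfl⟩ := exists_map_terminal y (fun A hA => h A (List.mem_cons_of_mem _ hA))
    exact ⟨t :: z, rfl⟩
  | Symbol.nonterminal A :: y, h => absurd List.mem_cons_self (h A)

lemma terminal_injective {T N : Type} :
    Function.Injective (Symbol.terminal : T → Symbol T N) := fun _ _ h => by
  cases h; rfl

lemma finite_symbol {T N : Type} [Finite T] [Finite N] : Finite (Symbol T N) := by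
  have := Fintype.ofFinite T
  have := Fintype.ofFinite N
  infer_instance

/-- Well-formed sentential forms. -/
def WF {T N : Type} {n : ℕ} (comp : N → Fin n) (x : List (Symbol T N)) : Prop :=
  (∀ A, Symbol.nonterminal A ∉ x) ∨
    ∃ p : Fin n → List (Symbol T N), x = (List.ofFn p).flatten ∧ ∀ i, Over comp i (p i)

def EMSt {T N : Type} {n : ℕ} (r : (Fin n → N) × (Fin n → List (Symbol T N)))
    (c c' : Multiset (Symbol T N)) : Prop :=
  ∃ e, c = e + ∑ i, ({Symbol.nonterminal (r.1 i)} : Multiset (Symbol T N)) ∧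
    c' = e + ∑ i, (r.2 i : Multiset (Symbol T N))

lemma coe_split {T N : Type} {n : ℕ} (u v w : Fin n → List (Symbol T N)) :
    (((List.ofFn fun i => u i ++ v i ++ w i).flatten : List _) : Multiset (Symbol T N)) =
      (∑ i, ((u i : Multiset (Symbol T N)) + w i)) + ∑ i, (v i : Multiset (Symbol T N)) := by
  rw [coe_flatten_ofFn, ← Finset.sum_add_distrib]
  refine Finset.sum_congr rfl fun i _ => ?_
  rw [← Multiset.coe_add, ← Multiset.coe_add]; abel

lemma Step1.emst {T N : Type} {n : ℕ} {comp : N → Fin n}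
    {rules : Set ((Fin n → N) × (Fin n → List (Symbol T N)))} {x y : List (Symbol T N)}
    (h : Step1 comp rules x y) : ∃ r ∈ rules, EMSt r (x : Multiset _) (y : Multiset _) := by
  obtain ⟨r, hr, u, w, _, rfl, rfl⟩ := h
  refine ⟨r, hr, ∑ i, ((u i : Multiset (Symbol T N)) + w i), ?_, ?_⟩
  · exact coe_split u (fun i => [Symbol.nonterminal (r.1 i)]) w
  · exact coe_split u r.2 w

lemma step1_of_mem {T N : Type} {n : ℕ} (hn : 1 ≤ n) {comp : N → Fin n}
    {rules : Set ((Fin n → N) × (Fin n → List (Symbol T N)))}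
    (hok : ∀ r ∈ rules, ∀ i, comp (r.1 i) = i ∧ Over comp i (r.2 i))
    {x : List (Symbol T N)} (hx : WF comp x) {r : (Fin n → N) × (Fin n → List (Symbol T N))}
    (hr : r ∈ rules) (hmem : ∀ i, Symbol.nonterminal (r.1 i) ∈ x) :
    ∃ u w : Fin n → List (Symbol T N),
      (∀ i, Over comp i (u i ++ w i) ∧ Symbol.nonterminal (r.1 i) ∉ u i) ∧
      x = (List.ofFn fun i => u i ++ [Symbol.nonterminal (r.1 i)] ++ w i).flatten := by
  rcases hx with hx | ⟨p, rfl, hp⟩
  · exact absurd (hmem ⟨0, hn⟩) (hx _)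
  have h1 : ∀ i, Symbol.nonterminal (r.1 i) ∈ p i := by
    intro i
    obtain ⟨l, hl, hA⟩ := List.mem_flatten.mp (hmem i)
    obtain ⟨j, rfl⟩ := List.mem_ofFn.mp hl
    have h2 := hp j _ hA
    rw [(hok r hr i).1] at h2
    subst h2
    exact hA
  choose u w huw using fun i => List.eq_append_cons_of_mem (h1 i)
  refine ⟨u, w, fun i => ⟨?_, (huw i).2⟩, ?_⟩
  · intro A hA
    apply hp i A
    rw [(huw i).1]
    rcases List.mem_append.mp hA with h | h
    · exact List.mem_append_left _ h
    · exact List.mem_append_right _ (List.mem_cons_of_mem _ h)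
  · congr 2
    funext i
    rw [(huw i).1]; simp

lemma wf_of_split {T N : Type} {n : ℕ} {comp : N → Fin n} {u v w : Fin n → List (Symbol T N)}
    (h1 : ∀ i, Over comp i (u i ++ w i)) (h2 : ∀ i, Over comp i (v i)) :
    WF comp (List.ofFn fun i => u i ++ v i ++ w i).flatten := by
  refine Or.inr ⟨_, rfl, fun i A hA => ?_⟩
  rcases List.mem_append.mp hA with h | h
  · rcases List.mem_append.mp h with h | h
    · exact h1 i A (List.mem_append_left _ h)
    · exact h2 i A h
  · exact h1 i A (List.mem_append_right _ h)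

lemma step1_of_emst {T N : Type} {n : ℕ} (hn : 1 ≤ n) {comp : N → Fin n}
    {rules : Set ((Fin n → N) × (Fin n → List (Symbol T N)))}
    (hok : ∀ r ∈ rules, ∀ i, comp (r.1 i) = i ∧ Over comp i (r.2 i))
    {x : List (Symbol T N)} (hx : WF comp x) {r : (Fin n → N) × (Fin n → List (Symbol T N))}
    (hr : r ∈ rules) {c' : Multiset (Symbol T N)} (h : EMSt r (x : Multiset _) c') :
    ∃ y, Step1 comp rules x y ∧ (y : Multiset _) = c' ∧ WF comp y := by
  obtain ⟨e, he, rfl⟩ := h
  have hmem : ∀ i, Symbol.nonterminal (r.1 i) ∈ x := by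
    intro i
    rw [← Multiset.mem_coe, he, Multiset.mem_add]
    right
    rw [Multiset.mem_sum]
    exact ⟨i, Finset.mem_univ _, Multiset.mem_singleton_self _⟩
  obtain ⟨u, w, h1, h2⟩ := step1_of_mem hn hok hx hr hmem
  refine ⟨_, ⟨r, hr, u, w, h1, h2, rfl⟩, ?_, wf_of_split (fun i => (h1 i).1) fun i => (hok r hr i).2⟩
  rw [coe_split]
  have h3 := coe_split u (fun i => [Symbol.nonterminal (r.1 i)]) w
  rw [← h2, he] at h3
  have h4 : e = ∑ i, ((u i : Multiset (Symbol T N)) + w i) := add_right_cancel h3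
  rw [h4]

lemma reach_of_emst {T N : Type} {n : ℕ} (hn : 1 ≤ n) {comp : N → Fin n}
    {rules : Set ((Fin n → N) × (Fin n → List (Symbol T N)))}
    (hok : ∀ r ∈ rules, ∀ i, comp (r.1 i) = i ∧ Over comp i (r.2 i))
    {x : List (Symbol T N)} (hx : WF comp x) {c' : Multiset (Symbol T N)}
    (h : ReflTransGen (fun a b => ∃ r ∈ rules, EMSt r a b) (x : Multiset _) c') :
    ∃ y, ReflTransGen (Step1 comp rules) x y ∧ (y : Multiset _) = c' ∧ WF comp y := by
  induction h with
  | refl => exact ⟨x, ReflTransGen.refl, rfl, hx⟩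
  | tail _ hs ih =>
    obtain ⟨y, h1, rfl, h3⟩ := ih
    obtain ⟨r, hr, hs⟩ := hs
    obtain ⟨z, h4, h5, h6⟩ := step1_of_emst hn hok h3 hr hs
    exact ⟨z, h1.tail h4, h5, h6⟩

/-- From a pumped multiset back to terminal words. -/
lemma pumped_word {T N : Type} [DecidableEq T] {a b : List T} {v : Multiset (Symbol T N)}
    (hv : ((b.map Symbol.terminal : List (Symbol T N)) : Multiset _) =
      ((a.map Symbol.terminal : List (Symbol T N)) : Multiset _) + v) (m : ℕ)
    {y : List (Symbol T N)}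
    (hy : (y : Multiset _) = ((a.map Symbol.terminal : List (Symbol T N)) : Multiset _) + m • v) :
    ∃ z : List T, y = z.map Symbol.terminal ∧
      ∀ t, z.count t + m * a.count t = a.count t + m * b.count t := by
  classical
  have h0 : ∀ A, Symbol.nonterminal A ∉ y := by
    intro A hA
    rw [← Multiset.mem_coe, hy, Multiset.mem_add] at hA
    rcases hA with hA | hA
    · simp at hA
    · have h1 := Multiset.mem_of_mem_nsmul hA
      have h2 : Symbol.nonterminal A ∈
          ((b.map Symbol.terminal : List (Symbol T N)) : Multiset (Symbol T N)) := by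
        rw [hv]; exact Multiset.mem_add.mpr (Or.inr h1)
      simp at h2
  obtain ⟨z, rfl⟩ := exists_map_terminal y h0
  refine ⟨z, rfl, fun t => ?_⟩
  have h1 := congrArg (Multiset.count (Symbol.terminal t : Symbol T N)) hv
  have h2 := congrArg (Multiset.count (Symbol.terminal t : Symbol T N)) hy
  simp only [Multiset.count_add, Multiset.count_nsmul, Multiset.coe_count,
    List.count_map_of_injective _ _ terminal_injective] at h1 h2
  rw [h2, h1]; ring

theorem IsEM1.pump {T : Type} [Finite T] [DecidableEq T] {L : Language T} (h : IsEM1 L)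
    (w : ℕ → List T) (hw : ∀ k, w k ∈ L) :
    ∃ i j, i < j ∧ ∀ m : ℕ, ∃ z ∈ L, ∀ t,
      z.count t + m * (w i).count t = (w i).count t + m * (w j).count t := by
  obtain ⟨n, N, hN, comp, start, rules, hn, hs, hr, hso, hro, hL⟩ := h
  have : Finite (Symbol T N) := finite_symbol
  obtain ⟨i, j, hij, v, hv, hm⟩ := Pool.Agent.MP_99d1ae_lc.pump (Tr := rules) (St := EMSt) hr
    (by
      rintro t c c' e ⟨e', rfl, rfl⟩
      exact ⟨e' + e, by abel, by abel⟩)
    (by
      rintro t c c' d d' ⟨e, rfl, rfl⟩ ⟨e', rfl, rfl⟩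
      abel)
    (I := (fun x : List (Symbol T N) => (x : Multiset _)) '' start) (hs.image _)
    (fun k => (((w k).map Symbol.terminal : List (Symbol T N)) : Multiset _))
    (by
      intro k
      obtain ⟨x, hx, hd⟩ := (hL _).mp (hw k)
      refine ⟨x, ⟨x, hx, rfl⟩, ?_⟩
      exact rtg_lift (fun x : List (Symbol T N) => (x : Multiset (Symbol T N)))
        (fun a b hab => Step1.emst hab) hd)
  refine ⟨i, j, hij, fun m => ?_⟩
  obtain ⟨c, ⟨x, hx, rfl⟩, hc⟩ := hm m
  have hwf : WF comp x := by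
    rcases hso x hx with h | ⟨p, h1, h2⟩
    · exact Or.inl h
    · exact Or.inr ⟨p, h1, fun i => (h2 i).1⟩
  obtain ⟨y, h1, h2, _⟩ := reach_of_emst hn hro hwf hc
  obtain ⟨z, rfl, hz⟩ := pumped_word hv m h2
  exact ⟨z, (hL z).mpr ⟨x, hx, h1⟩, hz⟩

end Pool.Agent.MP_99d1ae_lc
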