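import Mathlib
import Pool.Agent.MP_99d1ae_lc.PumpEM

set_option autoImplicit false

namespace Pool.Agent.MP_99d1ae_lc

open Relation

/-- Rewriting the leftmost occurrence of the nonterminal `A` by `v`. -/
def LRw {T N : Type} (A : N) (v x y : List (Symbol T N)) : Prop :=
  ∃ u w, Symbol.nonterminal A ∉ u ∧ x = u ++ [Symbol.nonterminal A] ++ w ∧ y = u ++ v ++ w

/-- A step of a state-controlled grammar working on leftmost occurrences. -/
def CStep {T N Q : Type} (R : Set (Q × N × List (Symbol T N) × Q)) (E : Set (Q × Q))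
    (c c' : Q × List (Symbol T N)) : Prop :=
  (∃ A v, (c.1, A, v, c'.1) ∈ R ∧ LRw A v c.2 c'.2) ∨ ((c.1, c'.1) ∈ E ∧ c.2 = c'.2)

def mapS {T N N' : Type} (g : N → N') : Symbol T N → Symbol T N'
  | Symbol.terminal t => Symbol.terminal t
  | Symbol.nonterminal A => Symbol.nonterminal (g A)

lemma map_mapS_terminal {T N N' : Type} (g : N → N') (w : List T) :
    (w.map (Symbol.terminal : T → Symbol T N)).map (mapS g) = w.map Symbol.terminal := by
  simp [List.map_map, Function.comp_def, mapS]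

lemma eq_of_map_mapS {T N N' : Type} (g : N → N') {x : List (Symbol T N)} {w : List T}
    (h : x.map (mapS g) = w.map Symbol.terminal) : x = w.map Symbol.terminal := by
  induction x generalizing w with
  | nil => cases w <;> simp_all
  | cons a x ih =>
    cases w with
    | nil => simp at h
    | cons t w =>
      simp only [List.map_cons, List.cons.injEq] at h ⊢
      refine ⟨?_, ih h.2⟩
      cases a with
      | terminal s => simpa [mapS] using h.1
      | nonterminal A => simp [mapS] at h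

lemma mem_map_mapS {T N N' : Type} (g : N → N') {x : List (Symbol T N)} {B : N'} :
    Symbol.nonterminal B ∈ x.map (mapS g) ↔ ∃ A, Symbol.nonterminal A ∈ x ∧ g A = B := by
  rw [List.mem_map]
  constructor
  · rintro ⟨a, ha, h⟩
    cases a with
    | terminal s => simp [mapS] at h
    | nonterminal A => exact ⟨A, ha, by simpa [mapS] using h⟩
  · rintro ⟨A, hA, rfl⟩
    exact ⟨_, hA, rfl⟩

lemma LRw.map {T N N' : Type} (g : N → N') {A : N} (hA : ∀ B, g B = g A → B = A)
    {v x y : List (Symbol T N)} (h : LRw A v x y) :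
    LRw (g A) (v.map (mapS g)) (x.map (mapS g)) (y.map (mapS g)) := by
  obtain ⟨u, w, h1, rfl, rfl⟩ := h
  refine ⟨u.map (mapS g), w.map (mapS g), ?_, by simp [mapS], by simp⟩
  rw [mem_map_mapS]
  rintro ⟨B, hB, h2⟩
  exact h1 (hA B h2 ▸ hB)

lemma LRw.unmap {T N N' : Type} (g : N → N') {A : N} (hA : ∀ B, g B = g A → B = A)
    {v x : List (Symbol T N)} {y' : List (Symbol T N')}
    (h : LRw (g A) (v.map (mapS g)) (x.map (mapS g)) y') :
    ∃ y, LRw A v x y ∧ y' = y.map (mapS g) := by
  obtain ⟨u', w', h1, h2, rfl⟩ := h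
  obtain ⟨x1, w, rfl, h3, rfl⟩ := List.map_eq_append_iff.mp h2
  obtain ⟨u, b, rfl, rfl, h4⟩ := List.map_eq_append_iff.mp h3
  obtain ⟨a, l, rfl, h5, h6⟩ := List.map_eq_cons_iff.mp h4
  have h7 : l = [] := by simpa using h6
  subst h7
  cases a with
  | terminal s => simp [mapS] at h5
  | nonterminal B =>
    have h8 : B = A := hA B (by simpa [mapS] using h5)
    subst h8
    refine ⟨u ++ v ++ w, ⟨u, w, fun h9 => h1 ((mem_map_mapS g).mpr ⟨B, h9, rfl⟩), rfl, rfl⟩, by simp⟩

lemma last_split {α : Type} {p w l : List α} {b c : α} (h : p ++ [b] ++ w = l ++ [c])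
    (hb : b ∉ l) : w = [] ∧ p = l ∧ b = c := by
  rcases List.eq_nil_or_concat w with rfl | ⟨w', d, rfl⟩
  · simp only [List.append_nil] at h
    obtain ⟨h1, h2⟩ := List.append_inj' h rfl
    exact ⟨rfl, h1, by simpa using h2⟩
  · exfalso
    rw [List.concat_eq_append, ← List.append_assoc] at h
    obtain ⟨h1, _⟩ := List.append_inj' h rfl
    apply hb; rw [← h1]; simp

lemma last_split' {α : Type} {p w l : List α} {b c : α} (h : p ++ [b] ++ w = l ++ [c])
    (hb : b ≠ c) : ∃ w', w = w' ++ [c] ∧ l = p ++ [b] ++ w' := by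
  rcases List.eq_nil_or_concat w with rfl | ⟨w', d, rfl⟩
  · simp only [List.append_nil] at h
    obtain ⟨_, h2⟩ := List.append_inj' h rfl
    exact absurd (by simpa using h2) hb
  · rw [List.concat_eq_append, ← List.append_assoc] at h
    obtain ⟨h1, h2⟩ := List.append_inj' h rfl
    refine ⟨w', ?_, h1.symm⟩
    rw [List.concat_eq_append, h2]

section finite

variable {T N Q : Type}

def cmp2 : Option N ⊕ Q → Fin 2
  | Sum.inl _ => 0
  | Sum.inr _ => 1

def lft : N → Option N ⊕ Q := fun A => Sum.inl (some A)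

def enc (c : Q × List (Symbol T N)) : List (Symbol T (Option N ⊕ Q)) :=
  c.2.map (mapS lft) ++ [Symbol.nonterminal (Sum.inl none)] ++ [Symbol.nonterminal (Sum.inr c.1)]

def emRules (R : Set (Q × N × List (Symbol T N) × Q)) (E : Set (Q × Q)) (qf : Q) :
    Set ((Fin 2 → Option N ⊕ Q) × (Fin 2 → List (Symbol T (Option N ⊕ Q)))) :=
  (fun r => (![lft r.2.1, Sum.inr r.1],
    ![r.2.2.1.map (mapS lft), [Symbol.nonterminal (Sum.inr r.2.2.2)]])) '' R ∪
  (fun e => (![Sum.inl none, Sum.inr e.1],
    ![[Symbol.nonterminal (Sum.inl none)], [Symbol.nonterminal (Sum.inr e.2)]])) '' E ∪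
  {(![Sum.inl none, Sum.inr qf], ![[], []])}

lemma over_lft (x : List (Symbol T N)) :
    Over (cmp2 (N := N) (Q := Q)) 0 (x.map (mapS lft)) := by
  intro A hA
  obtain ⟨B, _, rfl⟩ := (mem_map_mapS _).mp hA
  rfl

lemma inr_not_mem (x : List (Symbol T N)) (q : Q) :
    Symbol.nonterminal (Sum.inr q) ∉ x.map (mapS (lft (Q := Q))) := by
  rw [mem_map_mapS]; rintro ⟨B, _, h⟩; cases h

lemma none_not_mem (x : List (Symbol T N)) :
    Symbol.nonterminal (Sum.inl none) ∉ x.map (mapS (lft (Q := Q))) := by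
  rw [mem_map_mapS]; rintro ⟨B, _, h⟩; cases h

lemma lft_inj (A B : N) (h : (lft B : Option N ⊕ Q) = lft A) : B = A := by
  simpa [lft] using h

lemma step2_intro {N' : Type} {comp : N' → Fin 2}
    {rules : Set ((Fin 2 → N') × (Fin 2 → List (Symbol T N')))} {A B : N'}
    {v v' u w : List (Symbol T N')} (hr : (![A, B], ![v, v']) ∈ rules)
    (h1 : Over comp 0 (u ++ w)) (h2 : Symbol.nonterminal A ∉ u) :
    Step1 comp rules (u ++ [Symbol.nonterminal A] ++ w ++ [Symbol.nonterminal B])
      (u ++ v ++ w ++ v') := by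
  refine ⟨_, hr, ![u, []], ![w, []], ?_, ?_, ?_⟩
  · intro i
    fin_cases i
    · exact ⟨h1, h2⟩
    · exact ⟨fun A hA => by simp at hA, by simp⟩
  · simp [List.ofFn_succ]
  · simp [List.ofFn_succ]

lemma step2_elim {N' : Type} {comp : N' → Fin 2}
    {rules : Set ((Fin 2 → N') × (Fin 2 → List (Symbol T N')))} {x y : List (Symbol T N')}
    (h : Step1 comp rules x y) : ∃ r ∈ rules, ∃ u w w', Symbol.nonterminal (r.1 0) ∉ u ∧
      x = u ++ [Symbol.nonterminal (r.1 0)] ++ w ++ [Symbol.nonterminal (r.1 1)] ++ w' ∧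
      y = u ++ r.2 0 ++ w ++ r.2 1 ++ w' := by
  obtain ⟨r, hr, u, w, h1, rfl, rfl⟩ := h
  refine ⟨r, hr, u 0, w 0 ++ u 1, w 1, (h1 0).2, ?_, ?_⟩
  · simp [List.ofFn_succ]
  · simp [List.ofFn_succ]

lemma enc_step {R : Set (Q × N × List (Symbol T N) × Q)} {E : Set (Q × Q)} (qf : Q)
    {c c' : Q × List (Symbol T N)} (h : CStep R E c c') :
    Step1 cmp2 (emRules R E qf) (enc c) (enc c') := by
  obtain ⟨q, x⟩ := c
  obtain ⟨q', y⟩ := c'
  rcases h with ⟨A, v, hr, u, w, h1, h2, h3⟩ | ⟨he, h⟩
  · simp only at hr h2 h3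
    subst h2 h3
    have := step2_intro (comp := cmp2) (rules := emRules R E qf) (A := lft A) (B := Sum.inr q)
      (v := v.map (mapS lft)) (v' := [Symbol.nonterminal (Sum.inr q')]) (u := u.map (mapS lft))
      (w := w.map (mapS lft) ++ [Symbol.nonterminal (Sum.inl none)])
      (Or.inl (Or.inl ⟨_, hr, rfl⟩))
      (by
        intro B hB
        rw [← List.append_assoc, ← List.map_append, List.mem_append] at hB
        rcases hB with hB | hB
        · exact over_lft _ B hB
        · simp only [List.mem_singleton, Symbol.nonterminal.injEq] at hB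
          subst hB; rfl)
      (by
        rw [mem_map_mapS]
        rintro ⟨B, hB, h⟩
        exact h1 (lft_inj _ _ h ▸ hB))
    simpa [enc, mapS] using this
  · simp only at he h
    subst h
    have := step2_intro (comp := cmp2) (rules := emRules R E qf) (A := Sum.inl none)
      (B := Sum.inr q) (v := [Symbol.nonterminal (Sum.inl none)])
      (v' := [Symbol.nonterminal (Sum.inr q')]) (u := x.map (mapS lft)) (w := [])
      (Or.inl (Or.inr ⟨_, he, rfl⟩)) (by simpa using over_lft x) (none_not_mem x)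
    simpa [enc] using this

lemma enc_final (R : Set (Q × N × List (Symbol T N) × Q)) (E : Set (Q × Q)) (qf : Q)
    (x : List (Symbol T N)) :
    Step1 cmp2 (emRules R E qf) (enc (qf, x)) (x.map (mapS lft)) := by
  have := step2_intro (comp := cmp2) (rules := emRules R E qf) (A := Sum.inl none)
    (B := Sum.inr qf) (v := []) (v' := []) (u := x.map (mapS lft)) (w := [])
    (Or.inr rfl) (by simpa using over_lft x) (none_not_mem x)
  simpa [enc] using this

lemma emRules_snd {R : Set (Q × N × List (Symbol T N) × Q)} {E : Set (Q × Q)} {qf : Q}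
    {r : (Fin 2 → Option N ⊕ Q) × (Fin 2 → List (Symbol T (Option N ⊕ Q)))}
    (hr : r ∈ emRules R E qf) : ∃ q, r.1 1 = Sum.inr q := by
  rcases hr with (⟨r, _, rfl⟩ | ⟨e, _, rfl⟩) | rfl
  · exact ⟨_, rfl⟩
  · exact ⟨_, rfl⟩
  · exact ⟨_, rfl⟩

lemma step_enc {R : Set (Q × N × List (Symbol T N) × Q)} {E : Set (Q × Q)} {qf : Q}
    {c : Q × List (Symbol T N)} {y : List (Symbol T (Option N ⊕ Q))}
    (h : Step1 cmp2 (emRules R E qf) (enc c) y) :
    (∃ c', CStep R E c c' ∧ y = enc c') ∨ (c.1 = qf ∧ y = c.2.map (mapS lft)) := by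
  obtain ⟨q, x⟩ := c
  obtain ⟨r, hr, u, w, w', h1, h2, rfl⟩ := step2_elim h
  obtain ⟨q1, hq1⟩ := emRules_snd hr
  have h3 : Symbol.nonterminal (r.1 1) ∉
      x.map (mapS lft) ++ [Symbol.nonterminal (Sum.inl none)] := by
    rw [hq1, List.mem_append]
    rintro (h | h)
    · exact inr_not_mem _ _ h
    · simp at h
  obtain ⟨rfl, h4, h5⟩ := last_split h2.symm h3
  rcases hr with (⟨⟨q2, A, v, q'⟩, hr, rfl⟩ | ⟨⟨q2, q'⟩, he, rfl⟩) | rfl
  · left
    have h6 : q2 = q := by simpa using h5
    subst h6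
    obtain ⟨w2, rfl, h7⟩ := last_split' h4 (by simp [lft])
    obtain ⟨y, h8, h9⟩ := LRw.unmap (lft (Q := Q)) (lft_inj A) (v := v) (x := x)
      (y' := u ++ v.map (mapS lft) ++ w2) ⟨u, w2, h1, h7, rfl⟩
    refine ⟨(q2, y).map (fun _ => q') id, Or.inl ⟨A, v, hr, h8⟩, ?_⟩
    simp only [enc, Prod.map, id]
    rw [← h9]; simp
  · left
    have h6 : q2 = q := by simpa using h5
    subst h6
    obtain ⟨rfl, rfl, _⟩ := last_split h4 (none_not_mem x)
    exact ⟨(q', x), Or.inr ⟨he, rfl⟩, by simp [enc]⟩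
  · right
    have h6 : qf = q := by simpa using h5
    obtain ⟨rfl, rfl, _⟩ := last_split h4 (none_not_mem x)
    exact ⟨h6.symm, by simp⟩

theorem isEM1_of_clg_fin [Finite N] [Finite Q] {R : Set (Q × N × List (Symbol T N) × Q)}
    {E : Set (Q × Q)} (hR : R.Finite) (q0 qf : Q) (x0 : List (Symbol T N)) :
    IsEM1 ({w | ReflTransGen (CStep R E) (q0, x0) (qf, w.map Symbol.terminal)} : Language T) := by
  refine ⟨2, Option N ⊕ Q, inferInstance, cmp2, {enc (q0, x0)}, emRules R E qf, by norm_num,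
    Set.finite_singleton _, ((hR.image _).union ((Set.toFinite E).image _)).union
      (Set.finite_singleton _), ?_, ?_, fun w => ?_⟩
  · rintro v rfl
    right
    refine ⟨![x0.map (mapS lft) ++ [Symbol.nonterminal (Sum.inl none)],
      [Symbol.nonterminal (Sum.inr q0)]], by simp [enc, List.ofFn_succ], fun i => ?_⟩
    fin_cases i
    · refine ⟨fun B hB => ?_, Sum.inl none, by simp⟩
      rcases List.mem_append.mp hB with hB | hB
      · exact over_lft _ B hB
      · simp only [List.mem_singleton, Symbol.nonterminal.injEq] at hB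
        subst hB; rfl
    · refine ⟨fun B hB => ?_, Sum.inr q0, by simp⟩
      have : B = Sum.inr q0 := by simpa using hB
      subst this; rfl
  · intro r hr i
    rcases hr with (⟨r, _, rfl⟩ | ⟨e, _, rfl⟩) | rfl
    · fin_cases i
      · exact ⟨rfl, over_lft _⟩
      · refine ⟨rfl, fun B hB => ?_⟩
        have : B = Sum.inr r.2.2.2 := by simpa using hB
        subst this; rfl
    · fin_cases i
      · refine ⟨rfl, fun B hB => ?_⟩
        have : B = Sum.inl none := by simpa using hB
        subst this; rfl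
      · refine ⟨rfl, fun B hB => ?_⟩
        have : B = Sum.inr e.2 := by simpa using hB
        subst this; rfl
    · fin_cases i
      · exact ⟨rfl, fun B hB => by simp at hB⟩
      · exact ⟨rfl, fun B hB => by simp at hB⟩
  · change ReflTransGen (CStep R E) (q0, x0) (qf, w.map Symbol.terminal) ↔ _
    constructor
    · intro h
      refine ⟨_, rfl, ?_⟩
      have h1 := rtg_lift enc (fun a b hab => enc_step qf hab) h
      have h2 := enc_final R E qf (w.map Symbol.terminal)
      rw [map_mapS_terminal] at h2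
      exact h1.tail h2
    · rintro ⟨v, rfl, h⟩
      have key : ∀ y, ReflTransGen (Step1 cmp2 (emRules R E qf)) (enc (q0, x0)) y →
          (∃ c, ReflTransGen (CStep R E) (q0, x0) c ∧ y = enc c) ∨
          (∃ x, ReflTransGen (CStep R E) (q0, x0) (qf, x) ∧ y = x.map (mapS lft)) := by
        intro y hy
        induction hy with
        | refl => exact Or.inl ⟨_, ReflTransGen.refl, rfl⟩
        | tail _ hs ih =>
          rcases ih with ⟨c, h1, rfl⟩ | ⟨x, h1, rfl⟩
          · rcases step_enc hs with ⟨c', h2, rfl⟩ | ⟨h2, rfl⟩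
            · exact Or.inl ⟨c', h1.tail h2, rfl⟩
            · exact Or.inr ⟨c.2, h2 ▸ h1, rfl⟩
          · exfalso
            obtain ⟨r, hr, u, w, w', _, h2, _⟩ := step2_elim hs
            obtain ⟨q1, hq1⟩ := emRules_snd hr
            apply inr_not_mem x q1
            rw [h2, hq1]; simp
      rcases key _ h with ⟨c, _, h2⟩ | ⟨x, h1, h2⟩
      · exfalso
        have : Symbol.nonterminal (Sum.inl none) ∈ enc c := by simp [enc]
        rw [← h2] at this
        simp at this
      · rw [eq_of_map_mapS _ h2.symm] at h1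
        exact h1

end finite

open Classical in
noncomputable def shrink {α : Type} (F : Set α) (a : α) : Option F :=
  if h : a ∈ F then some ⟨a, h⟩ else none

lemma shrink_inj {α : Type} {F : Set α} {a : α} (ha : a ∈ F) (b : α)
    (h : shrink F b = shrink F a) : b = a := by
  unfold shrink at h
  rw [dif_pos ha] at h
  split_ifs at h with hb
  simpa using h

theorem isEM1_of_clg {T N Q : Type} {R : Set (Q × N × List (Symbol T N) × Q)}
    {E : Set (Q × Q)} (hR : R.Finite) (hE : E.Finite) (q0 qf : Q) (x0 : List (Symbol T N)) :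
    IsEM1 ({w | ReflTransGen (CStep R E) (q0, x0) (qf, w.map Symbol.terminal)} : Language T) := by
  set FN : Set N := (fun r => r.2.1) '' R with hFN
  set FQ : Set Q := (fun r => r.1) '' R ∪ (fun e => e.1) '' E ∪ {qf} with hFQ
  have : Finite FN := (hR.image _).to_subtype
  have : Finite FQ := (((hR.image _).union (hE.image _)).union (Set.finite_singleton _)).to_subtype
  let g := shrink FN
  let h := shrink FQ
  let R' : Set (Option FQ × Option FN × List (Symbol T (Option FN)) × Option FQ) :=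
    (fun r => (h r.1, g r.2.1, r.2.2.1.map (mapS g), h r.2.2.2)) '' R
  let E' : Set (Option FQ × Option FQ) := (fun e => (h e.1, h e.2)) '' E
  have H := isEM1_of_clg_fin (R := R') (E := E') (hR.image _) (h q0) (h qf) (x0.map (mapS g))
  convert H using 1
  ext w
  change ReflTransGen (CStep R E) (q0, x0) (qf, w.map Symbol.terminal) ↔
    ReflTransGen (CStep R' E') (h q0, x0.map (mapS g)) (h qf, w.map Symbol.terminal)
  constructor
  · intro h1
    have h2 := rtg_lift (p := CStep R' E')
      (fun c : Q × List (Symbol T N) => (h c.1, c.2.map (mapS g))) (by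
        rintro ⟨q, x⟩ ⟨q', y⟩ (⟨A, v, hr, h3⟩ | ⟨he, h3⟩)
        · exact Or.inl ⟨g A, v.map (mapS g), ⟨_, hr, rfl⟩,
            h3.map g (shrink_inj (F := FN) ⟨_, hr, rfl⟩)⟩
        · exact Or.inr ⟨⟨_, he, rfl⟩, congrArg (List.map (mapS g)) h3⟩) h1
    simpa only [map_mapS_terminal] using h2
  · intro h1
    have key : ∀ c', ReflTransGen (CStep R' E') (h q0, x0.map (mapS g)) c' →
        ∃ c, ReflTransGen (CStep R E) (q0, x0) c ∧ c' = (h c.1, c.2.map (mapS g)) := by
      intro c' hc'
      induction hc' with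
      | refl => exact ⟨_, ReflTransGen.refl, rfl⟩
      | @tail b c' _ hs ih =>
        obtain ⟨⟨q, x⟩, h2, rfl⟩ := ih
        obtain ⟨q'', y'⟩ := c'
        rcases hs with ⟨A', v', ⟨⟨q1, A, v, q2⟩, hr, h3⟩, h4⟩ | ⟨⟨⟨q1, q2⟩, he, h3⟩, h4⟩
        · simp only [Prod.mk.injEq] at h3 h4
          obtain ⟨e1, rfl, rfl, rfl⟩ := h3
          have e2 : q = q1 := shrink_inj (F := FQ) (Or.inl (Or.inl ⟨_, hr, rfl⟩)) _ e1.symm
          subst e2
          obtain ⟨y, h5, rfl⟩ := LRw.unmap g (shrink_inj (F := FN) ⟨_, hr, rfl⟩) h4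
          exact ⟨(q2, y), h2.tail (Or.inl ⟨A, v, hr, h5⟩), rfl⟩
        · simp only [Prod.mk.injEq] at h3 h4
          obtain ⟨e1, rfl⟩ := h3
          have e2 : q = q1 := shrink_inj (F := FQ) (Or.inl (Or.inr ⟨_, he, rfl⟩)) _ e1.symm
          subst e2 h4
          exact ⟨(q2, x), h2.tail (Or.inr ⟨he, rfl⟩), rfl⟩
    obtain ⟨⟨q, x⟩, h2, h3⟩ := key _ h1
    simp only [Prod.mk.injEq] at h3
    have e1 : q = qf := shrink_inj (F := FQ) (Or.inr rfl) _ h3.1.symm
    rw [e1, eq_of_map_mapS _ h3.2.symm] at h2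
    exact h2

end Pool.Agent.MP_99d1ae_lc
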