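import Mathlib
import Pool.Agent.MP_99d1ae_lc.PumpEM

set_option autoImplicit false

namespace Pool.Agent.MP_99d1ae_lc

open Relation

lemma re_exists {α β : Type} [Primcodable α] [Primcodable β] {p : α → β → Prop}
    (hp : PrimrecRel p) : REPred fun a => ∃ b, p a b := by
  classical
  let q : α → ℕ → Bool := fun a n =>
    ((Encodable.decode (α := β) n).map fun b => decide (p a b)).getD false
  have hq : Primrec₂ q :=
    Primrec.option_getD.comp
      (Primrec.option_map (Primrec.decode.comp Primrec.snd)
        (hp.decide.comp (Primrec.fst.comp Primrec.fst) Primrec.snd).to₂) (Primrec.const false)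
  have h1 : Partrec fun a => Nat.rfind fun n => (Part.some (q a n) : Part Bool) :=
    Partrec.rfind hq.to_comp.partrec₂
  refine h1.dom_re.of_eq fun a => ?_
  rw [Nat.rfind_dom]
  constructor
  · rintro ⟨n, h2, _⟩
    have h3 : q a n = true := by simpa using h2
    simp only [q] at h3
    cases h4 : Encodable.decode (α := β) n with
    | none => simp [h4] at h3
    | some b => exact ⟨b, by simpa [h4] using h3⟩
  · rintro ⟨b, hb⟩
    exact ⟨Encodable.encode b, by simp [q, hb], fun _ => trivial⟩

lemma primrecPred_exists_finite {α ι : Type} [Primcodable α] {s : Set ι} (hs : s.Finite)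
    {p : ι → α → Prop} (hp : ∀ i ∈ s, PrimrecPred (p i)) : PrimrecPred fun a => ∃ i ∈ s, p i a := by
  induction s, hs using Set.Finite.induction_on with
  | empty =>
    refine (Primrec.eq.comp (Primrec.const true) (Primrec.const false)).of_eq fun a => by simp
  | @insert i s _ _ ih =>
    refine ((hp i (Set.mem_insert _ _)).or
      (ih fun j hj => hp j (Set.mem_insert_of_mem _ hj))).of_eq fun a => by simp

lemma primrecPred_forall_finite {α ι : Type} [Primcodable α] [Finite ι]
    {p : ι → α → Prop} (hp : ∀ i, PrimrecPred (p i)) : PrimrecPred fun a => ∀ i, p i a := by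
  refine (primrecPred_exists_finite (Set.finite_univ (α := ι)) (p := fun i a => ¬ p i a)
    fun i _ => (hp i).not).not.of_eq fun a => by simp

lemma primrecPred_dom_finite {α : Type} [Primcodable α] [Finite α] (p : α → Prop) :
    PrimrecPred p := by
  classical
  exact Primrec.primrecPred (Primrec.dom_finite _)

open Classical in
noncomputable def chk {σ W : Type} (p : σ → σ → W → Prop) (x : σ) (l : List (σ × W)) : Option σ :=
  l.foldl (fun o z => o.bind fun c => if p c z.1 z.2 then some z.1 else none) (some x)

lemma chk_iff {σ W : Type} (p : σ → σ → W → Prop) (x y : σ) :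
    ReflTransGen (fun a b => ∃ ω, p a b ω) x y ↔ ∃ l, chk p x l = some y := by
  constructor
  · intro h
    induction h with
    | refl => exact ⟨[], rfl⟩
    | @tail b c _ hs ih =>
      obtain ⟨l, hl⟩ := ih
      obtain ⟨ω, hω⟩ := hs
      refine ⟨l ++ [(c, ω)], ?_⟩
      unfold chk at hl ⊢
      rw [List.foldl_append, hl]
      simp [hω]
  · rintro ⟨l, hl⟩
    induction l using List.reverseRecOn generalizing y with
    | nil =>
      have : x = y := by simpa [chk] using hl
      rw [this]
    | append_singleton l z ih =>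
      unfold chk at hl ih
      rw [List.foldl_append] at hl
      simp only [List.foldl_cons, List.foldl_nil, Option.bind_eq_some_iff] at hl
      obtain ⟨c, h1, h2⟩ := hl
      split_ifs at h2 with h3
      cases h2
      exact (ih c h1).tail ⟨_, h3⟩

lemma chk_primrec {σ W : Type} [Primcodable σ] [Primcodable W] {p : σ → σ → W → Prop}
    (hp : PrimrecPred fun t : σ × σ × W => p t.1 t.2.1 t.2.2) : Primrec₂ (chk p) := by
  classical
  unfold chk
  refine (Primrec.list_foldl (f := fun a : σ × List (σ × W) => a.2) (g := fun a => some a.1)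
    (h := fun _ oz => oz.1.bind fun c => if p c oz.2.1 oz.2.2 then some oz.2.1 else none)
    Primrec.snd (Primrec.option_some.comp Primrec.fst) ?_).of_eq fun a => by congr
  refine Primrec.option_bind (Primrec.fst.comp Primrec.snd) ?_
  refine Primrec.ite (hp.comp (Primrec.snd.pair (Primrec.snd.comp (Primrec.snd.comp Primrec.fst))))
    (Primrec.option_some.comp (Primrec.fst.comp (Primrec.snd.comp (Primrec.snd.comp Primrec.fst))))
    (Primrec.const none)

lemma re_reach {α σ W : Type} [Primcodable α] [Primcodable σ] [Primcodable W]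
    {p : σ → σ → W → Prop} (hp : PrimrecPred fun t : σ × σ × W => p t.1 t.2.1 t.2.2)
    {s : Set σ} (hs : s.Finite) {f : α → σ} (hf : Primrec f) :
    REPred fun a => ∃ v ∈ s, ReflTransGen (fun a b => ∃ ω, p a b ω) v (f a) := by
  have h1 : PrimrecRel fun (a : α) (l : List (σ × W)) => ∃ v ∈ s, chk p v l = some (f a) := by
    refine primrecPred_exists_finite hs
      (p := fun v (t : α × List (σ × W)) => chk p v t.2 = some (f t.1)) fun v _ => ?_
    exact Primrec.eq.comp ((chk_primrec hp).comp (Primrec.const v) Primrec.snd)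
      (Primrec.option_some.comp (hf.comp Primrec.fst))
  refine (re_exists h1).of_eq fun a => ?_
  simp only [chk_iff]
  constructor
  · rintro ⟨l, v, h2, h3⟩; exact ⟨v, h2, l, h3⟩
  · rintro ⟨v, h2, l, h3⟩; exact ⟨l, v, h2, h3⟩

lemma primrec_map_fin {α β : Type} [Primcodable α] [Primcodable β] [Finite α] (f : α → β) :
    Primrec (List.map f) :=
  Primrec.list_map Primrec.id ((Primrec.dom_finite f).comp Primrec.snd).to₂

theorem IsEM1.re {k : ℕ} {L : Language (Fin k)} (h : IsEM1 L) :
    REPred fun w : List (Fin k) => w ∈ L := by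
  obtain ⟨n, N, hN, comp, start, rules, _, hs, hr, _, _, hL⟩ := h
  have : Finite (Symbol (Fin k) N) := finite_symbol
  let _ : Primcodable (Symbol (Fin k) N) := Primcodable.ofEquiv _ (Finite.equivFin _)
  let p : List (Symbol (Fin k) N) → List (Symbol (Fin k) N) →
      (Fin n → List (Symbol (Fin k) N)) × (Fin n → List (Symbol (Fin k) N)) → Prop :=
    fun x y ω => ∃ r ∈ rules,
      (∀ i, Over comp i (ω.1 i ++ ω.2 i) ∧ Symbol.nonterminal (r.1 i) ∉ ω.1 i) ∧
      x = (List.ofFn fun i => ω.1 i ++ [Symbol.nonterminal (r.1 i)] ++ ω.2 i).flatten ∧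
      y = (List.ofFn fun i => ω.1 i ++ r.2 i ++ ω.2 i).flatten
  have e1 : Step1 comp rules = fun a b => ∃ ω, p a b ω := by
    funext a b
    apply propext
    constructor
    · rintro ⟨r, h1, u, w, h2⟩; exact ⟨(u, w), r, h1, h2⟩
    · rintro ⟨ω, r, h1, h2⟩; exact ⟨r, h1, ω.1, ω.2, h2⟩
  have hp : PrimrecPred fun t : List (Symbol (Fin k) N) × List (Symbol (Fin k) N) ×
      (Fin n → List (Symbol (Fin k) N)) × (Fin n → List (Symbol (Fin k) N)) =>
      p t.1 t.2.1 t.2.2 := by
    refine primrecPred_exists_finite hr fun r _ => ?_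
    have hu : ∀ i, Primrec fun t : List (Symbol (Fin k) N) × List (Symbol (Fin k) N) ×
        (Fin n → List (Symbol (Fin k) N)) × (Fin n → List (Symbol (Fin k) N)) => t.2.2.1 i :=
      fun i => Primrec.fin_app.comp (Primrec.fst.comp (Primrec.snd.comp Primrec.snd))
        (Primrec.const i)
    have hw : ∀ i, Primrec fun t : List (Symbol (Fin k) N) × List (Symbol (Fin k) N) ×
        (Fin n → List (Symbol (Fin k) N)) × (Fin n → List (Symbol (Fin k) N)) => t.2.2.2 i :=
      fun i => Primrec.fin_app.comp (Primrec.snd.comp (Primrec.snd.comp Primrec.snd))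
        (Primrec.const i)
    refine (primrecPred_forall_finite fun i => PrimrecPred.and ?_ ?_).and (PrimrecPred.and ?_ ?_)
    · refine ((primrecPred_dom_finite (fun a : Symbol (Fin k) N =>
        ∀ A, a = Symbol.nonterminal A → comp A = i)).forall_mem_list.comp
        (Primrec.list_append.comp (hu i) (hw i))).of_eq fun t => ?_
      exact ⟨fun h A hA => h _ hA A rfl, fun h a ha A e => h A (e ▸ ha)⟩
    · refine ((primrecPred_dom_finite (fun a : Symbol (Fin k) N =>
        a ≠ Symbol.nonterminal (r.1 i))).forall_mem_list.comp (hu i)).of_eq fun t => ?_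
      exact ⟨fun h hA => h _ hA rfl, fun h a ha e => h (e ▸ ha)⟩
    · exact Primrec.eq.comp Primrec.fst (Primrec.list_flatten.comp (Primrec.list_ofFn fun i =>
        Primrec.list_append.comp (Primrec.list_append.comp (hu i) (Primrec.const _)) (hw i)))
    · exact Primrec.eq.comp (Primrec.fst.comp Primrec.snd)
        (Primrec.list_flatten.comp (Primrec.list_ofFn fun i =>
        Primrec.list_append.comp (Primrec.list_append.comp (hu i) (Primrec.const _)) (hw i)))
  refine (re_reach hp hs (primrec_map_fin Symbol.terminal)).of_eq fun w => ?_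
  rw [hL, e1]

end Pool.Agent.MP_99d1ae_lc
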