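import Mathlib
import Pool.Agent.MP_99d1ae_lc.RE

set_option autoImplicit false

namespace Pool.Agent.MP_99d1ae_lc

open Relation

lemma primrecRel_mem {α : Type} [Primcodable α] : PrimrecRel fun (L : List α) (b : α) => b ∈ L :=
  (PrimrecRel.exists_mem_list (Primrec.eq (α := α))).of_eq fun _ _ => by simp

lemma PrimrecPred.imp' {α : Type} [Primcodable α] {p q : α → Prop} (hp : PrimrecPred p)
    (hq : PrimrecPred q) : PrimrecPred fun a => p a → q a :=
  (hp.not.or hq).of_eq fun _ => imp_iff_not_or.symm

lemma mono_computable {σ α : Type} [Primcodable σ] [Finite σ] [Primcodable α]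
    {R : Set (List σ × List σ)} (hR : R.Finite) (hm : ∀ r ∈ R, r.1.length ≤ r.2.length)
    (x0 : List σ) {f : α → List σ} (hf : Primrec f) :
    ComputablePred fun a => ReflTransGen
      (fun x y => ∃ r ∈ R, ∃ p q, x = p ++ r.1 ++ q ∧ y = p ++ r.2 ++ q) x0 (f a) := by
  rw [ComputablePred.computable_iff_re_compl_re']
  constructor
  · have hp : PrimrecPred fun t : List σ × List σ × (List σ × List σ) =>
        ∃ r ∈ R, t.1 = t.2.2.1 ++ r.1 ++ t.2.2.2 ∧ t.2.1 = t.2.2.1 ++ r.2 ++ t.2.2.2 := by
      refine primrecPred_exists_finite hR fun r _ => PrimrecPred.and ?_ ?_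
      · exact Primrec.eq.comp Primrec.fst (Primrec.list_append.comp (Primrec.list_append.comp
          (Primrec.fst.comp (Primrec.snd.comp Primrec.snd)) (Primrec.const _))
          (Primrec.snd.comp (Primrec.snd.comp Primrec.snd)))
      · exact Primrec.eq.comp (Primrec.fst.comp Primrec.snd)
          (Primrec.list_append.comp (Primrec.list_append.comp
          (Primrec.fst.comp (Primrec.snd.comp Primrec.snd)) (Primrec.const _))
          (Primrec.snd.comp (Primrec.snd.comp Primrec.snd)))
    refine (re_reach (p := fun (x y : List σ) (ω : List σ × List σ) =>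
      ∃ r ∈ R, x = ω.1 ++ r.1 ++ ω.2 ∧ y = ω.1 ++ r.2 ++ ω.2) hp (Set.finite_singleton x0)
      hf).of_eq fun a => ?_
    have e1 : (fun (x y : List σ) => ∃ ω : List σ × List σ,
        ∃ r ∈ R, x = ω.1 ++ r.1 ++ ω.2 ∧ y = ω.1 ++ r.2 ++ ω.2) =
        fun x y => ∃ r ∈ R, ∃ p q, x = p ++ r.1 ++ q ∧ y = p ++ r.2 ++ q := by
      funext x y
      apply propext
      constructor
      · rintro ⟨ω, r, h1, h2⟩; exact ⟨r, h1, ω.1, ω.2, h2⟩
      · rintro ⟨r, h1, p, q, h2⟩; exact ⟨(p, q), r, h1, h2⟩
    rw [e1]; simp
  · let C : List σ × List σ → ℕ → List σ × (α × List (List σ)) → Prop := fun r i t =>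
      t.1 = t.1.take i ++ r.1 ++ t.1.drop (i + r.1.length) →
        (t.1.take i ++ r.2 ++ t.1.drop (i + r.1.length)).length ≤ (f t.2.1).length →
        t.1.take i ++ r.2 ++ t.1.drop (i + r.1.length) ∈ t.2.2
    have hC : ∀ r, PrimrecRel (C r) := by
      intro r
      have h1 : ∀ v : List σ, Primrec fun z : ℕ × (List σ × (α × List (List σ))) =>
          z.2.1.take z.1 ++ v ++ z.2.1.drop (z.1 + r.1.length) := fun v =>
        Primrec.list_append.comp (Primrec.list_append.comp
          (Primrec.list_take.comp Primrec.fst (Primrec.fst.comp Primrec.snd)) (Primrec.const _))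
          (Primrec.list_drop.comp (Primrec.nat_add.comp Primrec.fst (Primrec.const _))
            (Primrec.fst.comp Primrec.snd))
      refine PrimrecPred.imp' (Primrec.eq.comp (Primrec.fst.comp Primrec.snd) (h1 r.1))
        (PrimrecPred.imp' (Primrec.nat_le.comp (Primrec.list_length.comp (h1 r.2))
          (Primrec.list_length.comp (hf.comp (Primrec.fst.comp (Primrec.snd.comp Primrec.snd)))))
          (primrecRel_mem.comp (Primrec.snd.comp (Primrec.snd.comp Primrec.snd)) (h1 r.2)))
    have hD : PrimrecRel fun (x : List σ) (t : α × List (List σ)) =>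
        ¬ ∃ r ∈ R, ¬ ∀ i < x.length + 1, C r i (x, t) := by
      refine PrimrecPred.not (primrecPred_exists_finite hR
        (p := fun r (z : List σ × (α × List (List σ))) =>
          ¬ ∀ i < z.1.length + 1, C r i (z.1, z.2)) fun r _ => PrimrecPred.not ?_)
      have h0 := PrimrecRel.forall_mem_list (hC r)
      exact (PrimrecRel.comp h0 (Primrec.list_range.comp
        (Primrec.succ.comp (Primrec.list_length.comp Primrec.fst))) Primrec.id).of_eq
        fun _ => by simp
    have hE : PrimrecRel fun (a : α) (U : List (List σ)) => x0 ∈ U ∧ f a ∉ U ∧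
        ∀ x ∈ U, ¬ ∃ r ∈ R, ¬ ∀ i < x.length + 1, C r i (x, (a, U)) := by
      refine PrimrecPred.and (primrecRel_mem.comp Primrec.snd (Primrec.const _))
        (PrimrecPred.and (primrecRel_mem.comp Primrec.snd (hf.comp Primrec.fst)).not ?_)
      exact hD.forall_mem_list.comp Primrec.snd Primrec.id
    refine (re_exists hE).of_eq fun a => ⟨?_, ?_⟩
    · rintro ⟨U, h1, h2, h3⟩ h4
      have key : ∀ y, ReflTransGen
          (fun x y => ∃ r ∈ R, ∃ p q, x = p ++ r.1 ++ q ∧ y = p ++ r.2 ++ q) x0 y →
          y.length ≤ (f a).length → y ∈ U := by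
        intro y hy
        induction hy with
        | refl => exact fun _ => h1
        | tail _ hs ih =>
          obtain ⟨r, hr, p, q, rfl, rfl⟩ := hs
          intro h5
          have h6 := hm r hr
          have h7 := h3 _ (ih (by simp at h5 ⊢; omega))
          push Not at h7
          have h8 := h7 r hr p.length (by simp only [List.length_append]; omega)
          have e1 : (p ++ r.1 ++ q).take p.length = p := by simp
          have e2 : (p ++ r.1 ++ q).drop (p.length + r.1.length) = q := by
            rw [← List.length_append, List.drop_left]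
          simp only [C, e1, e2] at h8
          exact h8 trivial h5
      exact h2 (key _ h4 le_rfl)
    · intro h
      have h1 : {y | ReflTransGen
          (fun x y => ∃ r ∈ R, ∃ p q, x = p ++ r.1 ++ q ∧ y = p ++ r.2 ++ q) x0 y ∧
          y.length ≤ max x0.length (f a).length}.Finite :=
        (List.finite_length_le σ _).subset fun y hy => hy.2
      refine ⟨h1.toFinset.toList, ?_, ?_, ?_⟩
      · simp only [Finset.mem_toList, Set.Finite.mem_toFinset]
        exact ⟨ReflTransGen.refl, le_max_left _ _⟩
      · simp only [Finset.mem_toList, Set.Finite.mem_toFinset]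
        exact fun h2 => h h2.1
      · intro x hx
        simp only [Finset.mem_toList, Set.Finite.mem_toFinset] at hx
        push Not
        intro r hr i _ h2 h3
        simp only [Finset.mem_toList, Set.Finite.mem_toFinset]
        exact ⟨hx.1.tail ⟨r, hr, _, _, h2, rfl⟩, h3.trans (le_max_right _ _)⟩

theorem IsCS.computable {k : ℕ} {L : Language (Fin k)} (h : IsCS L) :
    ComputablePred fun w : List (Fin k) => w ∈ L := by
  classical
  obtain ⟨N, hN, S, R, hR, hm, hL⟩ := h
  have : Finite (Symbol (Fin k) N) := finite_symbol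
  let _ : Primcodable (Symbol (Fin k) N) := Primcodable.ofEquiv _ (Finite.equivFin _)
  have h1 := mono_computable hR (fun r hr => (hm r hr).2) [Symbol.nonterminal S]
    (primrec_map_fin (Symbol.terminal : Fin k → Symbol (Fin k) N))
  have h2 : Computable fun w : List (Fin k) => decide (w = []) :=
    (Primrec.eq.comp Primrec.id (Primrec.const [])).decide.to_comp
  refine Computable.computablePred ((Computable.cond h2 (Computable.const (decide ([] ∈ L)))
    h1.decide).of_eq fun w => ?_)
  by_cases hw : w = []
  · simp [hw]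
  · simp [hw, hL w hw]

end Pool.Agent.MP_99d1ae_lc
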