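import Mathlib
import Pool.Agent.MP_99d1ae_lc.Defs

set_option autoImplicit false

namespace Pool.Agent.MP_99d1ae_lc

open Relation

abbrev WS := Symbol (Fin 3) (Fin 3)

def wZ : WS := Symbol.nonterminal 0
def wS : WS := Symbol.nonterminal 1
def wA : WS := Symbol.nonterminal 2
def wa : WS := Symbol.terminal 0
def wb : WS := Symbol.terminal 1
def wc : WS := Symbol.terminal 2

def wR : Set (List WS × List WS) :=
  {([wZ], [wS, wa]), ([wS], [wA, wS, wb]), ([wS], [wA, wb]), ([wA, wb], [wb, wc, wA]),
    ([wA, wc], [wc, wA]), ([wA, wa], [wa, wa])}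

def wStep (x y : List WS) : Prop := ∃ r ∈ wR, ∃ p q, x = p ++ r.1 ++ q ∧ y = p ++ r.2 ++ q

def wL : Language (Fin 3) := {w | ReflTransGen wStep [wZ] (w.map Symbol.terminal)}

lemma wL_isCS : IsCS wL := by
  refine ⟨Fin 3, inferInstance, 0, wR, by unfold wR; exact Set.toFinite _, ?_, fun w _ => Iff.rfl⟩
  intro r hr
  rcases hr with rfl | rfl | rfl | rfl | rfl | rfl
  · exact ⟨⟨0, by simp [wZ]⟩, by simp⟩
  · exact ⟨⟨1, by simp [wS]⟩, by simp⟩
  · exact ⟨⟨1, by simp [wS]⟩, by simp⟩
  · exact ⟨⟨2, by simp [wA]⟩, by simp⟩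
  · exact ⟨⟨2, by simp [wA]⟩, by simp⟩
  · exact ⟨⟨2, by simp [wA]⟩, by simp⟩

/-- Number of pairs of positions carrying `s` before `t`. -/
def pr (s t : WS) : List WS → ℕ
  | [] => 0
  | a :: x => (if a = s then x.count t else 0) + pr s t x

lemma pr_append (s t : WS) (x y : List WS) :
    pr s t (x ++ y) = pr s t x + pr s t y + x.count s * y.count t := by
  induction x with
  | nil => simp [pr]
  | cons a x ih =>
    simp only [List.cons_append, pr, ih, List.count_append, List.count_cons, beq_iff_eq]
    split_ifs <;> ring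

lemma pr_zero_left (s t : WS) (x : List WS) (h : x.count s = 0) : pr s t x = 0 := by
  induction x with
  | nil => rfl
  | cons a x ih =>
    simp only [List.count_cons, beq_iff_eq] at h
    simp only [pr]
    have h1 : a ≠ s := by rintro rfl; simp at h
    simp [h1, ih (by omega)]

lemma pr_zero_right (s t : WS) (x : List WS) (h : x.count t = 0) : pr s t x = 0 := by
  induction x with
  | nil => rfl
  | cons a x ih =>
    simp only [List.count_cons] at h
    simp only [pr]
    have h1 : x.count t = 0 := by omega
    simp [ih h1, h1]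

def WInv (x : List WS) : Prop :=
  x = [wZ] ∨ (x.count wZ = 0 ∧ x.count wS ≤ 1 ∧
    x.count wc + pr wA wb x = x.count wb * x.count wb ∧ pr wa wb x = 0 ∧ pr wa wS x = 0 ∧
    pr wA wS x = x.count wS * x.count wb ∧ pr wS wb x = x.count wS * x.count wb)

lemma WInv.step {x y : List WS} (h : WInv x) (hs : wStep x y) : WInv y := by
  obtain ⟨r, hr, p, q, rfl, rfl⟩ := hs
  right
  rcases h with h | ⟨h1, h2, h3, h4, h5, h6, h7⟩
  · have hl := congrArg List.length h
    have hz := congrArg (List.count wZ) h
    rcases hr with rfl | rfl | rfl | rfl | rfl | rfl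
    · have hp : p = [] := by
        apply List.eq_nil_of_length_eq_zero; simp at hl; omega
      have hq : q = [] := by
        apply List.eq_nil_of_length_eq_zero; simp at hl; omega
      subst hp hq
      decide
    · have hp : p = [] := by
        apply List.eq_nil_of_length_eq_zero; simp at hl; omega
      have hq : q = [] := by
        apply List.eq_nil_of_length_eq_zero; simp at hl; omega
      subst hp hq
      exact absurd hz (by decide)
    · have hp : p = [] := by
        apply List.eq_nil_of_length_eq_zero; simp at hl; omega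
      have hq : q = [] := by
        apply List.eq_nil_of_length_eq_zero; simp at hl; omega
      subst hp hq
      exact absurd hz (by decide)
    all_goals (simp at hl; omega)
  · simp only [pr_append, List.count_append] at h1 h2 h3 h4 h5 h6 h7 ⊢
    rcases hr with rfl | rfl | rfl | rfl | rfl | rfl
    · exact absurd h1 (by have : List.count wZ [wZ] = 1 := by decide
                          simp only; omega)
    · simp [pr, wZ, wS, wA, wa, wb, wc] at h1 h2 h3 h4 h5 h6 h7 ⊢
      have e1 : List.count wS p = 0 := by simp only [wS]; omega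
      have e2 : List.count wS q = 0 := by simp only [wS]; omega
      have e3 := pr_zero_right wA wS p e1
      have e4 := pr_zero_right wA wS q e2
      have e5 := pr_zero_left wS wb p e1
      have e6 := pr_zero_left wS wb q e2
      simp only [wS, wA, wb] at e1 e2 e3 e4 e5 e6
      simp only [e1, e2, e3, e4, e5, e6] at *
      refine ⟨h1, by omega, by nlinarith, ?_, ?_, by omega, by omega⟩ <;> simp_all
    · simp [pr, wZ, wS, wA, wa, wb, wc] at h1 h2 h3 h4 h5 h6 h7 ⊢
      have e1 : List.count wS p = 0 := by simp only [wS]; omega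
      have e2 : List.count wS q = 0 := by simp only [wS]; omega
      have e3 := pr_zero_right wA wS p e1
      have e4 := pr_zero_right wA wS q e2
      have e5 := pr_zero_left wS wb p e1
      have e6 := pr_zero_left wS wb q e2
      simp only [wS, wA, wb] at e1 e2 e3 e4 e5 e6
      simp only [e1, e2, e3, e4, e5, e6] at *
      refine ⟨h1, by omega, by nlinarith, ?_, ?_, by omega, by omega⟩ <;> simp_all
    · simp [pr, wZ, wS, wA, wa, wb, wc] at h1 h2 h3 h4 h5 h6 h7 ⊢
      exact ⟨h1, h2, by nlinarith, h4, h5, h6, h7⟩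
    · simp [pr, wZ, wS, wA, wa, wb, wc] at h1 h2 h3 h4 h5 h6 h7 ⊢
      exact ⟨h1, h2, by nlinarith, h4, h5, h6, h7⟩
    · simp [pr, wZ, wS, wA, wa, wb, wc] at h1 h2 h3 h4 h5 h6 h7 ⊢
      simp_all

lemma wL_count {w : List (Fin 3)} (h : w ∈ wL) : w.count 2 = w.count 1 * w.count 1 := by
  have key : ∀ x, ReflTransGen wStep [wZ] x → WInv x := by
    intro x hx
    induction hx with
    | refl => exact Or.inl rfl
    | tail _ hs ih => exact ih.step hs
  have inj : Function.Injective (Symbol.terminal : Fin 3 → WS) := fun _ _ h => by cases h; rfl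
  rcases key _ h with h1 | ⟨_, _, h3, _⟩
  · cases w with
    | nil => simp at h1
    | cons t w => simp [wZ] at h1
  · rw [pr_zero_left _ _ _ (List.count_eq_zero.mpr (by simp [wA]))] at h3
    simpa only [wc, wb, List.count_map_of_injective _ _ inj, add_zero] using h3

lemma wStep_of {l r : List WS} (h : (l, r) ∈ wR) (p q : List WS) {x y : List WS}
    (hx : x = p ++ l ++ q) (hy : y = p ++ r ++ q) : wStep x y := ⟨_, h, p, q, hx, hy⟩

lemma cross (q : List WS) : ∀ (w : List (Fin 3)), (∀ t ∈ w, t ≠ 0) → ∃ w' : List (Fin 3),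
    (∀ t ∈ w', t ≠ 0) ∧ w'.count 1 = w.count 1 ∧ ∀ p, ReflTransGen wStep
      (p ++ [wA] ++ w.map Symbol.terminal ++ q) (p ++ w'.map Symbol.terminal ++ [wA] ++ q)
  | [], _ => ⟨[], by simp, rfl, fun p => by simpa using ReflTransGen.refl⟩
  | t :: w, h => by
    obtain ⟨w', h1, h2, h3⟩ := cross q w (fun s hs => h s (List.mem_cons_of_mem _ hs))
    have h4 := h t List.mem_cons_self
    fin_cases t
    · exact absurd rfl h4
    · refine ⟨1 :: 2 :: w', ?_, by simp [h2], fun p => ?_⟩
      · intro s hs
        simp only [List.mem_cons] at hs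
        rcases hs with rfl | rfl | hs
        · decide
        · decide
        · exact h1 s hs
      · refine ReflTransGen.head (wStep_of (l := [wA, wb]) (r := [wb, wc, wA]) (by simp [wR]) p
          (w.map Symbol.terminal ++ q) (by simp [wb]) rfl) ?_
        simpa [wb, wc] using h3 (p ++ [wb, wc])
    · refine ⟨2 :: w', ?_, by simp [h2], fun p => ?_⟩
      · intro s hs
        simp only [List.mem_cons] at hs
        rcases hs with rfl | hs
        · decide
        · exact h1 s hs
      · refine ReflTransGen.head (wStep_of (l := [wA, wc]) (r := [wc, wA]) (by simp [wR]) p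
          (w.map Symbol.terminal ++ q) (by simp [wc]) rfl) ?_
        simpa [wc] using h3 (p ++ [wc])

lemma finish : ∀ (j m : ℕ) (w : List (Fin 3)), (∀ t ∈ w, t ≠ 0) → ∃ z : List (Fin 3),
    z.count 1 = w.count 1 ∧ ReflTransGen wStep
      (List.replicate j wA ++ w.map Symbol.terminal ++ wa :: List.replicate m wa)
      (z.map Symbol.terminal)
  | 0, m, w, _ => ⟨w ++ List.replicate (m + 1) 0, by simp [List.count_replicate], by
      simpa [wa, List.replicate_succ] using ReflTransGen.refl⟩
  | j + 1, m, w, h => by
    obtain ⟨w', h1, h2, h3⟩ := cross (wa :: List.replicate m wa) w h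
    obtain ⟨z, h4, h5⟩ := finish j (m + 1) w' h1
    refine ⟨z, h4.trans h2, ?_⟩
    rw [List.replicate_succ']
    refine (h3 _).trans (ReflTransGen.head (wStep_of (l := [wA, wa]) (r := [wa, wa]) (by simp [wR])
      (List.replicate j wA ++ w'.map Symbol.terminal) (List.replicate m wa) (by simp) ?_) h5)
    simp [List.replicate_succ]

lemma wL_exists (k : ℕ) : ∃ z ∈ wL, z.count 1 = k + 1 := by
  have h1 : ∀ j, ReflTransGen wStep [wZ]
      (List.replicate j wA ++ [wS] ++ (List.replicate j wb ++ [wa])) := by
    intro j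
    induction j with
    | zero => exact ReflTransGen.single (wStep_of (l := [wZ]) (r := [wS, wa]) (by simp [wR]) [] []
        rfl rfl)
    | succ j ih =>
      refine ih.tail (wStep_of (l := [wS]) (r := [wA, wS, wb]) (by simp [wR]) _ _ rfl ?_)
      rw [List.replicate_succ' (a := wA), List.replicate_succ (a := wb)]
      simp
  obtain ⟨z, h2, h3⟩ := finish (k + 1) 0 (List.replicate (k + 1) 1) (by simp)
  refine ⟨z, ((h1 k).tail (wStep_of (l := [wS]) (r := [wA, wb]) (by simp [wR]) _ _ rfl ?_)).trans
    h3, by simpa using h2⟩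
  rw [List.replicate_succ' (a := wA), List.map_replicate, List.replicate_succ]
  simp [wb]

end Pool.Agent.MP_99d1ae_lc
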