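import Mathlib
import Pool.Agent.MP_99d1ae_lc.Pump

set_option autoImplicit false

namespace Pool.Agent.MP_99d1ae_lc

open Relation Function

inductive Instr
  | inc (r : ℕ)
  | dec (r : ℕ)
  | zero (r : ℕ)
  | skip

abbrev Store := ℕ → ℕ

def Instr.Sem : Instr → Store → Store → Prop
  | .inc r, s, s' => s' = update s r (s r + 1)
  | .dec r, s, s' => s r ≠ 0 ∧ s' = update s r (s r - 1)
  | .zero r, s, s' => s r = 0 ∧ s' = s
  | .skip, s, s' => s' = s

def MStep {Q : Type} (δ : Set (Q × Instr × Q)) (c c' : Q × Store) : Prop :=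
  ∃ i, (c.1, i, c'.1) ∈ δ ∧ i.Sem c.2 c'.2

/-- Relations on stores realised by nondeterministic counter automata with zero tests. -/
def CDef (R : Store → Store → Prop) : Prop :=
  ∃ (Q : Type) (δ : Set (Q × Instr × Q)) (q0 qf : Q), δ.Finite ∧
    ∀ s s', R s s' ↔ ReflTransGen (MStep δ) (q0, s) (qf, s')

lemma CDef.instr (i : Instr) : CDef i.Sem := by
  refine ⟨Bool, {(false, i, true)}, false, true, Set.finite_singleton _, fun s s' => ⟨?_, ?_⟩⟩
  · intro h
    exact ReflTransGen.single ⟨i, rfl, h⟩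
  · intro h
    have key : ∀ c, ReflTransGen (MStep {(false, i, true)}) (false, s) c →
        (c = (false, s)) ∨ (c.1 = true ∧ i.Sem s c.2) := by
      intro c hc
      induction hc with
      | refl => exact Or.inl rfl
      | @tail b c _ hs ih =>
        obtain ⟨j, h1, h2⟩ := hs
        simp only [Set.mem_singleton_iff, Prod.mk.injEq] at h1
        obtain ⟨h3, rfl, h4⟩ := h1
        rcases ih with rfl | ⟨h5, _⟩
        · exact Or.inr ⟨h4, h2⟩
        · rw [h3] at h5; cases h5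
    rcases key _ h with h1 | h1
    · cases h1
    · exact h1.2

lemma CDef.comp {R1 R2 : Store → Store → Prop} (h1 : CDef R1) (h2 : CDef R2) :
    CDef (Relation.Comp R1 R2) := by
  obtain ⟨Q1, δ1, a1, b1, f1, e1⟩ := h1
  obtain ⟨Q2, δ2, a2, b2, f2, e2⟩ := h2
  let δ : Set ((Q1 ⊕ Q2) × Instr × (Q1 ⊕ Q2)) :=
    (fun t => (Sum.inl t.1, t.2.1, Sum.inl t.2.2)) '' δ1 ∪
    (fun t => (Sum.inr t.1, t.2.1, Sum.inr t.2.2)) '' δ2 ∪ {(Sum.inl b1, Instr.skip, Sum.inr a2)}
  refine ⟨Q1 ⊕ Q2, δ, Sum.inl a1, Sum.inr b2,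
    ((f1.image _).union (f2.image _)).union (Set.finite_singleton _), fun s s' => ⟨?_, ?_⟩⟩
  · rintro ⟨t, h1, h2⟩
    have p1 := rtg_lift (p := MStep δ) (fun c : Q1 × Store => (Sum.inl c.1, c.2))
      (fun a b ⟨i, hi, hs⟩ => ⟨i, Or.inl (Or.inl ⟨_, hi, rfl⟩), hs⟩) ((e1 _ _).mp h1)
    have p2 := rtg_lift (p := MStep δ) (fun c : Q2 × Store => (Sum.inr c.1, c.2))
      (fun a b ⟨i, hi, hs⟩ => ⟨i, Or.inl (Or.inr ⟨_, hi, rfl⟩), hs⟩) ((e2 _ _).mp h2)
    exact (p1.tail (c := (Sum.inr a2, t)) ⟨Instr.skip, Or.inr rfl, rfl⟩).trans p2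
  · intro h
    have key : ∀ c, ReflTransGen (MStep δ) (Sum.inl a1, s) c →
        (∃ q, c.1 = Sum.inl q ∧ ReflTransGen (MStep δ1) (a1, s) (q, c.2)) ∨
        (∃ q t, c.1 = Sum.inr q ∧ R1 s t ∧ ReflTransGen (MStep δ2) (a2, t) (q, c.2)) := by
      intro c hc
      induction hc with
      | refl => exact Or.inl ⟨a1, rfl, ReflTransGen.refl⟩
      | @tail b c _ hs ih =>
        obtain ⟨i, h1, h2⟩ := hs
        rcases h1 with (⟨⟨p, j, p'⟩, ht, h1⟩ | ⟨⟨p, j, p'⟩, ht, h1⟩) | h1
        · simp only [Prod.mk.injEq] at h1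
          obtain ⟨h3, rfl, h4⟩ := h1
          rcases ih with ⟨q, h5, h6⟩ | ⟨q, t, h5, _⟩
          · rw [h5] at h3; cases h3
            exact Or.inl ⟨p', h4.symm, h6.tail ⟨_, ht, h2⟩⟩
          · rw [h5] at h3; cases h3
        · simp only [Prod.mk.injEq] at h1
          obtain ⟨h3, rfl, h4⟩ := h1
          rcases ih with ⟨q, h5, _⟩ | ⟨q, t, h5, h6, h7⟩
          · rw [h5] at h3; cases h3
          · rw [h5] at h3; cases h3
            exact Or.inr ⟨p', t, h4.symm, h6, h7.tail ⟨_, ht, h2⟩⟩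
        · simp only [Set.mem_singleton_iff, Prod.mk.injEq] at h1
          obtain ⟨h3, rfl, h4⟩ := h1
          rcases ih with ⟨q, h5, h6⟩ | ⟨q, t, h5, _⟩
          · rw [h5] at h3; cases h3
            have h7 : c.2 = b.2 := h2
            exact Or.inr ⟨a2, b.2, h4, (e1 _ _).mpr h6, h7 ▸ ReflTransGen.refl⟩
          · rw [h5] at h3; cases h3
    rcases key _ h with ⟨q, h1, _⟩ | ⟨q, t, h1, h2, h3⟩
    · cases h1
    · cases h1
      exact ⟨t, h2, (e2 _ _).mpr h3⟩

lemma CDef.star {R : Store → Store → Prop} (h : CDef R) : CDef (ReflTransGen R) := by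
  obtain ⟨Q, δ1, a, b, f1, e1⟩ := h
  let δ : Set (Option Q × Instr × Option Q) :=
    (fun t => (some t.1, t.2.1, some t.2.2)) '' δ1 ∪
      {(none, Instr.skip, some a), (some b, Instr.skip, none)}
  refine ⟨Option Q, δ, none, none, (f1.image _).union (Set.toFinite _), fun s s' => ⟨?_, ?_⟩⟩
  · intro h
    refine rtg_lift' (p := MStep δ) (fun t : Store => ((none : Option Q), t)) ?_ h
    intro t t' h1
    have p1 := rtg_lift (p := MStep δ) (fun c : Q × Store => (some c.1, c.2))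
      (fun a b ⟨i, hi, hs⟩ => ⟨i, Or.inl ⟨_, hi, rfl⟩, hs⟩) ((e1 _ _).mp h1)
    exact (ReflTransGen.head ⟨Instr.skip, Or.inr (Or.inl rfl), rfl⟩ p1).tail
      ⟨Instr.skip, Or.inr (Or.inr rfl), rfl⟩
  · intro h
    have key : ∀ c, ReflTransGen (MStep δ) (none, s) c →
        (c.1 = none ∧ ReflTransGen R s c.2) ∨
        (∃ q t, c.1 = some q ∧ ReflTransGen R s t ∧ ReflTransGen (MStep δ1) (a, t) (q, c.2)) := by
      intro c hc
      induction hc with
      | refl => exact Or.inl ⟨rfl, ReflTransGen.refl⟩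
      | @tail b' c _ hs ih =>
        obtain ⟨i, h1, h2⟩ := hs
        rcases h1 with ⟨⟨p, j, p'⟩, ht, h1⟩ | h1 | h1
        · simp only [Prod.mk.injEq] at h1
          obtain ⟨h3, rfl, h4⟩ := h1
          rcases ih with ⟨h5, _⟩ | ⟨q, t, h5, h6, h7⟩
          · rw [h5] at h3; cases h3
          · rw [h5] at h3; cases h3
            exact Or.inr ⟨p', t, h4.symm, h6, h7.tail ⟨_, ht, h2⟩⟩
        · simp only [Prod.mk.injEq] at h1
          obtain ⟨h3, rfl, h4⟩ := h1
          have h7 : c.2 = b'.2 := h2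
          rcases ih with ⟨_, h6⟩ | ⟨q, t, h5, _⟩
          · exact Or.inr ⟨a, b'.2, h4, h6, h7 ▸ ReflTransGen.refl⟩
          · rw [h5] at h3; cases h3
        · simp only [Set.mem_singleton_iff, Prod.mk.injEq] at h1
          obtain ⟨h3, rfl, h4⟩ := h1
          have h7 : c.2 = b'.2 := h2
          rcases ih with ⟨h5, _⟩ | ⟨q, t, h5, h6, h8⟩
          · rw [h5] at h3; cases h3
          · rw [h5] at h3; cases h3
            exact Or.inl ⟨h4, h7 ▸ h6.tail ((e1 _ _).mpr h8)⟩
    rcases key _ h with ⟨_, h2⟩ | ⟨q, t, h1, _⟩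
    · exact h2
    · cases h1

/-- `F` is implemented on the domain `D`. -/
def Impl (D : Store → Prop) (F : Store → Store) : Prop :=
  ∃ R, CDef R ∧ ∀ s, D s → ∀ s', R s s' ↔ s' = F s

lemma Impl.congr {D D' : Store → Prop} {F F' : Store → Store} (h : Impl D F)
    (hD : ∀ s, D' s → D s) (hF : ∀ s, D' s → F s = F' s) : Impl D' F' := by
  obtain ⟨R, h1, h2⟩ := h
  exact ⟨R, h1, fun s hs s' => by rw [h2 s (hD s hs), hF s hs]⟩

lemma Impl.seq {D D' : Store → Prop} {F G : Store → Store} (h1 : Impl D F) (h2 : Impl D' G)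
    (hD : ∀ s, D s → D' (F s)) : Impl D (fun s => G (F s)) := by
  obtain ⟨R1, a1, b1⟩ := h1
  obtain ⟨R2, a2, b2⟩ := h2
  refine ⟨_, a1.comp a2, fun s hs s' => ⟨?_, ?_⟩⟩
  · rintro ⟨t, h1, h2⟩
    rw [b1 s hs] at h1
    subst h1
    exact (b2 _ (hD s hs) _).mp h2
  · rintro rfl
    exact ⟨F s, (b1 s hs _).mpr rfl, (b2 _ (hD s hs) _).mpr rfl⟩

lemma Impl.skip : Impl (fun _ => True) id :=
  ⟨_, CDef.instr Instr.skip, fun _ _ _ => Iff.rfl⟩

lemma Impl.inc (r : ℕ) : Impl (fun _ => True) (fun s => update s r (s r + 1)) :=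
  ⟨_, CDef.instr (Instr.inc r), fun _ _ _ => Iff.rfl⟩

lemma Impl.loop {D D' : Store → Prop} {F H : Store → Store} (r : ℕ) (h : Impl D' F)
    (h1 : ∀ s, D s → s r ≠ 0 → D' (update s r (s r - 1)))
    (h2 : ∀ s, D s → s r ≠ 0 → D (F (update s r (s r - 1))))
    (h3 : ∀ s, D s → s r ≠ 0 → F (update s r (s r - 1)) r = s r - 1)
    (h4 : ∀ s, D s → s r = 0 → H s = s)
    (h5 : ∀ s, D s → s r ≠ 0 → H s = H (F (update s r (s r - 1)))) : Impl D H := by
  obtain ⟨R, a, b⟩ := h
  refine ⟨_, (((CDef.instr (Instr.dec r)).comp a).star).comp (CDef.instr (Instr.zero r)), ?_⟩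
  have key : ∀ n s, D s → s r = n → ∀ s',
      Relation.Comp (ReflTransGen (Relation.Comp (Instr.dec r).Sem R)) (Instr.zero r).Sem s s' ↔
        s' = H s := by
    intro n
    induction n with
    | zero =>
      intro s hs hn s'
      rw [h4 s hs hn]
      constructor
      · rintro ⟨t, p1, p2, rfl⟩
        rcases p1.cases_head with rfl | ⟨u, ⟨v, ⟨p3, _⟩, _⟩, _⟩
        · rfl
        · exact absurd hn p3
      · rintro rfl
        exact ⟨_, ReflTransGen.refl, hn, rfl⟩
    | succ n ih =>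
      intro s hs hn s'
      have hne : s r ≠ 0 := by omega
      rw [h5 s hs hne, ← ih _ (h2 s hs hne) (by rw [h3 s hs hne]; omega)]
      constructor
      · rintro ⟨t, p1, p2, rfl⟩
        rcases p1.cases_head with rfl | ⟨u, ⟨v, ⟨_, rfl⟩, p4⟩, p5⟩
        · exact absurd p2 hne
        · rw [b _ (h1 s hs hne)] at p4
          subst p4
          exact ⟨_, p5, p2, rfl⟩
      · rintro ⟨t, p1, p2⟩
        exact ⟨t, ReflTransGen.head ⟨_, ⟨hne, rfl⟩, (b _ (h1 s hs hne) _).mpr rfl⟩ p1, p2⟩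
  exact fun s hs => key _ s hs rfl

lemma Impl.clear (r : ℕ) : Impl (fun _ => True) (fun s => update s r 0) :=
  Impl.loop r Impl.skip (fun _ _ _ => trivial) (fun _ _ _ => trivial) (fun s _ _ => by simp)
    (fun s _ h => by rw [← h]; simp) (fun s _ _ => by simp)

lemma Impl.move {a b : ℕ} (hab : a ≠ b) :
    Impl (fun _ => True) (fun s => update (update s b (s b + s a)) a 0) := by
  refine Impl.loop a (Impl.inc b) (fun _ _ _ => trivial) (fun _ _ _ => trivial) ?_ ?_ ?_
  · intro s _ _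
    simp [update_apply, hab]
  · intro s _ h
    funext x
    simp only [update_apply]
    split_ifs <;> simp_all
  · intro s _ h
    funext x
    simp only [update_apply]
    split_ifs <;> simp_all
    omega

lemma Impl.move2 {a b c : ℕ} (hab : a ≠ b) (hac : a ≠ c) (hbc : b ≠ c) :
    Impl (fun _ => True) (fun s => update (update (update s b (s b + s a)) c (s c + s a)) a 0) := by
  refine Impl.loop a ((Impl.inc b).seq (Impl.inc c) (fun _ _ => trivial)) (fun _ _ _ => trivial)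
    (fun _ _ _ => trivial) ?_ ?_ ?_
  · intro s _ _
    simp [update_apply, hab, hac]
  · intro s _ h
    funext x
    simp only [update_apply]
    split_ifs <;> simp_all
  · intro s _ h
    funext x
    simp only [update_apply]
    split_ifs <;> simp_all <;> omega

lemma Impl.copy {a o t : ℕ} (hao : a ≠ o) (hat : a ≠ t) (hot : o ≠ t) :
    Impl (fun s => s t = 0) (fun s => update s o (s a)) := by
  have := ((Impl.clear o).seq (Impl.move2 hao hat hot) (fun _ _ => trivial)).seq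
    (Impl.move hat.symm) (fun _ _ => trivial)
  refine this.congr (fun _ _ => trivial) fun s hs => ?_
  funext x
  simp only [update_apply]
  split_ifs <;> simp_all

lemma Impl.clearRange (b : ℕ) : ∀ K : ℕ,
    Impl (fun _ => True) (fun s r => if b ≤ r ∧ r < b + K then 0 else s r)
  | 0 => Impl.skip.congr (fun _ h => h) fun s _ => by
    funext r
    rw [if_neg (by omega)]; rfl
  | K + 1 => by
    refine ((Impl.clearRange b K).seq (Impl.clear (b + K)) (fun _ _ => trivial)).congr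
      (fun _ h => h) fun s _ => ?_
    funext r
    simp only [update_apply]
    split_ifs <;> first | rfl | omega

end Pool.Agent.MP_99d1ae_lc
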