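import Mathlib
import Pool.Agent.MP_99d1ae_lc.Counter

set_option autoImplicit false

namespace Pool.Agent.MP_99d1ae_lc

open Relation Function

def ZeroFrom (b : ℕ) (s : Store) : Prop := ∀ r, b ≤ r → s r = 0

def Computes (n : ℕ) (f : List.Vector ℕ n → ℕ) : Prop :=
  ∀ (i : Fin n → ℕ) (o b : ℕ), (∀ j, i j < b) → o < b → (∀ j, i j ≠ o) →
    Impl (ZeroFrom b) (fun s => update s o (f (List.Vector.ofFn fun j => s (i j))))

def iterG (g : ℕ → ℕ → ℕ) : ℕ → ℕ → ℕ → ℕ
  | 0, _, a => a
  | k + 1, y, a => iterG g k (y + 1) (g y a)

lemma iterG_rec (g : ℕ → ℕ → ℕ) (z : ℕ) : ∀ k y : ℕ,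
    iterG g k y (Nat.rec z g y) = Nat.rec z g (y + k)
  | 0, _ => rfl
  | k + 1, y => by
    have := iterG_rec g z k (y + 1)
    rw [show y + (k + 1) = y + 1 + k by omega, ← this]
    rfl

lemma computes_comp {m n : ℕ} {f : List.Vector ℕ n → ℕ} (g : Fin n → List.Vector ℕ m → ℕ)
    (hf : Computes n f) (hg : ∀ k, Computes m (g k)) :
    Computes m (fun a => f (List.Vector.ofFn fun k => g k a)) := by
  intro i o b hi ho hio
  let G : ℕ → List.Vector ℕ m → ℕ := fun k v => if h : k < n then g ⟨k, h⟩ v else 0
  let P : ℕ → Store → Store := fun K s r =>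
    if b ≤ r ∧ r < b + K then G (r - b) (List.Vector.ofFn fun j => s (i j)) else s r
  have hP : ∀ K s j, P K s (i j) = s (i j) := by
    intro K s j
    have := hi j
    simp only [P]
    rw [if_neg (by omega)]
  have ph1 : ∀ K, K ≤ n → Impl (ZeroFrom b) (P K) := by
    intro K
    induction K with
    | zero =>
      intro _
      refine Impl.skip.congr (fun _ _ => trivial) fun s _ => ?_
      funext r
      simp only [P]
      rw [if_neg (by omega)]; rfl
    | succ K ih =>
      intro hK
      have h1 := hg ⟨K, hK⟩ i (b + K) (b + n) (fun j => by have := hi j; omega) (by omega)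
        (fun j => by have := hi j; omega)
      refine ((ih (by omega)).seq h1 ?_).congr (fun _ h => h) fun s _ => ?_
      · intro s hs r hr
        simp only [P]
        rw [if_neg (by omega)]
        exact hs r (by omega)
      · funext r
        simp only [hP, update_apply]
        by_cases h2 : r = b + K
        · subst h2
          simp only [P, G, if_true]
          rw [if_pos (by omega), dif_pos (by omega)]
          congr 2
          omega
        · rw [if_neg h2]
          simp only [P]
          by_cases h3 : b ≤ r ∧ r < b + K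
          · rw [if_pos h3, if_pos (by omega)]
          · rw [if_neg h3, if_neg (by omega)]
  have ph2 := hf (fun k => b + k) o (b + n) (fun k => by have := k.2; omega) (by omega)
    (fun k => by omega)
  refine (((ph1 n le_rfl).seq ph2 ?_).seq (Impl.clearRange b n) (fun _ _ => trivial)).congr
    (fun _ h => h) fun s hs => ?_
  · intro s hs r hr
    simp only [P]
    rw [if_neg (by omega)]
    exact hs r (by omega)
  · have e1 : (fun k : Fin n => P n s (b + k)) =
        fun k => g k (List.Vector.ofFn fun j => s (i j)) := by
      funext k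
      have := k.2
      simp only [P, G]
      rw [if_pos (by omega), dif_pos (by omega)]
      congr 2
      omega
    funext r
    rw [e1]
    simp only [update_apply]
    by_cases h3 : b ≤ r ∧ r < b + n
    · rw [if_pos h3, if_neg (by omega), hs r h3.1]
    · rw [if_neg h3]
      split_ifs with h4
      · rfl
      · simp only [P]; rw [if_neg h3]

lemma ofFn_cons_cons {n : ℕ} (s : Store) (y o : ℕ) (i : Fin n → ℕ) :
    (List.Vector.ofFn fun j : Fin (n + 2) => s ((Fin.cons y (Fin.cons o i : Fin (n + 1) → ℕ) :
      Fin (n + 2) → ℕ) j)) = s y ::ᵥ s o ::ᵥ List.Vector.ofFn fun j => s (i j) := by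
  apply List.Vector.toList_injective
  simp [List.ofFn_succ]

lemma computes_prec {n : ℕ} {f : List.Vector ℕ n → ℕ} {g : List.Vector ℕ (n + 2) → ℕ}
    (hf : Computes n f) (hg : Computes (n + 2) g) :
    Computes (n + 1) (fun v => v.head.rec (f v.tail) fun y IH => g (y ::ᵥ IH ::ᵥ v.tail)) := by
  intro i o b hi ho hio
  let tl : Store → List.Vector ℕ n := fun s => List.Vector.ofFn fun j => s (i j.succ)
  have ph1 := hf (fun j => i j.succ) o (b + 3) (fun j => by have := hi j.succ; omega) (by omega)
    (fun j => hio _)
  have ph2 : Impl (fun s => s (b + 2) = 0) _ :=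
    Impl.copy (a := i 0) (o := b + 1) (t := b + 2) (by have := hi 0; omega)
      (by have := hi 0; omega) (by omega)
  have body1 := hg (Fin.cons b (Fin.cons o fun j => i j.succ)) (b + 2) (b + 3)
    (by
      intro j
      refine Fin.cases ?_ (fun j => Fin.cases ?_ (fun j => ?_) j) j
      · simp
      · simp; omega
      · have := hi j.succ; simp; omega) (by omega)
    (by
      intro j
      refine Fin.cases ?_ (fun j => Fin.cases ?_ (fun j => ?_) j) j
      · simp
      · simp; omega
      · have := hi j.succ; simp; omega)
  simp only [ofFn_cons_cons] at body1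
  have body : Impl (ZeroFrom (b + 2)) (fun s =>
      update (update s o (g (s b ::ᵥ s o ::ᵥ tl s))) b (s b + 1)) := by
    refine (((body1.seq (Impl.clear o) (fun _ _ => trivial)).seq
      (Impl.move (a := b + 2) (b := o) (by omega)) (fun _ _ => trivial)).seq (Impl.inc b)
      (fun _ _ => trivial)).congr (fun s hs r hr => hs r (by omega)) fun s hs => ?_
    have h0 := hs (b + 2) le_rfl
    funext x
    simp only [update_apply, tl]
    split_ifs <;> first | rfl | omega | simp_all
  have tl_upd : ∀ (s : Store) (r v : ℕ), (b ≤ r ∨ r = o) → tl (update s r v) = tl s := by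
    intro s r v hr
    simp only [tl]
    congr 1
    funext j
    have h1 := hi j.succ
    have h2 := hio j.succ
    rw [update_of_ne (by omega)]
  have ph3 : Impl (ZeroFrom (b + 2)) (fun s => update (update (update s o
      (iterG (fun y a => g (y ::ᵥ a ::ᵥ tl s)) (s (b + 1)) (s b) (s o))) b (s b + s (b + 1)))
      (b + 1) 0) := by
    refine Impl.loop (b + 1) body ?_ ?_ ?_ ?_ ?_
    · intro s hs _ r hr
      rw [update_of_ne (by omega)]; exact hs r hr
    · intro s hs _ r hr
      rw [update_of_ne (by omega), update_of_ne (by omega), update_of_ne (by omega)]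
      exact hs r hr
    · intro s _ _
      rw [update_of_ne (by omega), update_of_ne (by omega), update_self]
    · intro s _ h
      funext x
      simp only [update_apply, h, iterG]
      split_ifs <;> simp_all
    · intro s _ h
      obtain ⟨k, hk⟩ := Nat.exists_eq_succ_of_ne_zero h
      rw [tl_upd _ _ _ (Or.inl le_rfl), tl_upd _ _ _ (Or.inr rfl),
        tl_upd _ _ _ (Or.inl (by omega))]
      have e1 : b ≠ b + 1 := by omega
      have e2 : o ≠ b := by omega
      have e3 : o ≠ b + 1 := by omega
      funext x
      simp only [update_apply, hk, iterG, e1, e2, e3, e1.symm, e2.symm, e3.symm, if_true, if_false,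
        Nat.succ_sub_one]
      split_ifs <;> first | rfl | omega
  refine (((ph1.congr (D' := ZeroFrom b) (fun s hs r hr => hs r (by omega)) (fun _ _ => rfl)).seq
    ph2 ?_).seq ph3 ?_).seq (Impl.clear b) (fun _ _ => trivial) |>.congr (fun _ h => h)
    fun s hs => ?_
  · intro s hs
    show update s o _ (b + 2) = 0
    rw [update_of_ne (by omega)]; exact hs _ (by omega)
  · intro s hs r hr
    rw [update_of_ne (by omega), update_of_ne (by omega)]; exact hs _ (by omega)
  · rw [tl_upd _ _ _ (Or.inl (by omega)), tl_upd _ _ _ (Or.inr rfl)]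
    have e1 : b ≠ b + 1 := by omega
    have e2 : o ≠ b := by omega
    have e3 : o ≠ b + 1 := by omega
    have e4 := hio 0
    have e5 := hs b le_rfl
    have e6 := hs (b + 1) (by omega)
    have e7 : (List.Vector.ofFn fun j => s (i j)).tail = tl s := by
      simp only [tl]; rw [List.Vector.tail_ofFn]
    have e8 : (List.Vector.ofFn fun j => s (i j)).head = s (i 0) := by
      rw [List.Vector.head_ofFn]
    have e9 := iterG_rec (fun y a => g (y ::ᵥ a ::ᵥ tl s)) (f (tl s)) (s (i 0)) 0
    funext x
    simp only [update_apply, e1, e3, e4, e2.symm, e3.symm, e5, e7, e8, if_true, if_false]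
    split_ifs with h1 h2 h3 <;>
      first | rfl | omega | (simpa using e9) | (subst_vars; simp_all)

theorem computes_of_primrec' {n : ℕ} {f : List.Vector ℕ n → ℕ} (h : Nat.Primrec' f) :
    Computes n f := by
  induction h with
  | zero =>
    intro i o b _ _ _
    exact (Impl.clear o).congr (fun _ _ => trivial) fun _ _ => rfl
  | succ =>
    intro i o b hi ho hio
    have h1 := Impl.copy (a := i 0) (o := o) (t := b) (hio 0) (by have := hi 0; omega) (by omega)
    refine (h1.seq (Impl.inc o) (fun _ _ => trivial)).congr (fun s hs => hs b le_rfl) fun s _ => ?_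
    simp [List.Vector.head_ofFn]
  | get j =>
    intro i o b hi ho hio
    have h1 := Impl.copy (a := i j) (o := o) (t := b) (hio j) (by have := hi j; omega) (by omega)
    refine h1.congr (fun s hs => hs b le_rfl) fun s _ => ?_
    simp
  | comp g _ _ hf hg => exact computes_comp g hf hg
  | prec _ _ hf hg => exact computes_prec hf hg

/-- Every projection of a primitive recursive zero set is accepted by a counter automaton that
starts with the input in register `0` and ends with all registers empty. -/
theorem cdef_of_primrec {g : ℕ → ℕ → ℕ} (hg : Primrec₂ g) :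
    ∃ R, CDef R ∧ ∀ n, R (update 0 0 n) 0 ↔ ∃ k, g n k = 0 := by
  have h1 := computes_of_primrec' (Nat.Primrec'.prim_iff₂.mpr hg) ![0, 1] 2 3
    (fun j => by fin_cases j <;> simp) (by omega) (fun j => by fin_cases j <;> simp)
  obtain ⟨R1, a1, b1⟩ := h1
  obtain ⟨R2, a2, b2⟩ := Impl.clearRange 0 2
  refine ⟨_, (CDef.instr (Instr.inc 1)).star.comp (a1.comp ((CDef.instr (Instr.zero 2)).comp a2)),
    fun n => ?_⟩
  have key : ∀ t, ReflTransGen (Instr.inc 1).Sem (update 0 0 n) t ↔
      ∃ k, t = update (update (0 : Store) 0 n) 1 k := by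
    intro t
    constructor
    · intro h
      induction h with
      | refl => exact ⟨0, by funext x; simp only [update_apply]; split_ifs <;> simp_all⟩
      | tail _ hs ih =>
        obtain ⟨k, rfl⟩ := ih
        refine ⟨k + 1, ?_⟩
        rw [show _ = _ from hs]; simp
    · rintro ⟨k, rfl⟩
      induction k with
      | zero =>
        have : update (update (0 : Store) 0 n) 1 0 = update (0 : Store) 0 n := by
          funext x; simp only [update_apply]; split_ifs <;> simp_all
        rw [this]
      | succ k ih => exact ih.tail (by simp [Instr.Sem])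
  have hz : ∀ k, ZeroFrom 3 (update (update (0 : Store) 0 n) 1 k) := by
    intro k r hr
    rw [update_of_ne (by omega), update_of_ne (by omega)]; rfl
  have hv : ∀ k, g (List.Vector.ofFn fun j : Fin 2 =>
        update (update (0 : Store) 0 n) 1 k (![0, 1] j)).head
      (List.Vector.ofFn fun j : Fin 2 =>
        update (update (0 : Store) 0 n) 1 k (![0, 1] j)).tail.head = g n k := by
    intro k
    simp [List.Vector.head_ofFn, List.Vector.tail_ofFn]
  constructor
  · rintro ⟨t, p1, u, p2, v, ⟨p3, _⟩, _⟩
    obtain ⟨k, rfl⟩ := (key t).mp p1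
    rw [b1 _ (hz k)] at p2
    beta_reduce at p2
    rw [hv] at p2
    subst p2
    exact ⟨k, by simpa using p3⟩
  · rintro ⟨k, hk⟩
    refine ⟨_, (key _).mpr ⟨k, rfl⟩, _, (b1 _ (hz k) _).mpr rfl, _, ⟨?_, rfl⟩,
      (b2 _ trivial _).mpr ?_⟩
    · beta_reduce; rw [hv]; simpa using hk
    · beta_reduce; rw [hv, hk]
      funext x
      simp only [update_apply]
      split_ifs <;> first | rfl | omega

end Pool.Agent.MP_99d1ae_lc
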