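import Mathlib
import Pool.Agent.MP_99d1ae_lc.CLG
import Pool.Agent.MP_99d1ae_lc.CounterPrim

set_option autoImplicit false

namespace Pool.Agent.MP_99d1ae_lc

open Relation Function

inductive CN
  | G
  | X
  | A (r : ℕ)
  deriving DecidableEq

inductive CQ (Q : Type)
  | inp
  | run (q : Q)
  | test (r : ℕ) (q : Q)
  | fin1
  | fin2

abbrev CS3 := Symbol (Fin 3) CN

def sG : CS3 := Symbol.nonterminal CN.G
def sX : CS3 := Symbol.nonterminal CN.X
def sA (r : ℕ) : CS3 := Symbol.nonterminal (CN.A r)
def ta : CS3 := Symbol.terminal 0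
def tb : CS3 := Symbol.terminal 1
def tc : CS3 := Symbol.terminal 2

inductive CR {Q : Type} (δ : Set (Q × Instr × Q)) (q0 qf : Q) :
    CQ Q → CN → List CS3 → CQ Q → Prop
  | gen : CR δ q0 qf .inp .G [tc, sG, sA 0] .inp
  | start : CR δ q0 qf .inp .G [sG] (.run q0)
  | inc {q q' : Q} {r : ℕ} : (q, Instr.inc r, q') ∈ δ → CR δ q0 qf (.run q) .G [sG, sA r] (.run q')
  | dec {q q' : Q} {r : ℕ} : (q, Instr.dec r, q') ∈ δ → CR δ q0 qf (.run q) (.A r) [] (.run q')
  | zero1 {q q' : Q} {r : ℕ} : (q, Instr.zero r, q') ∈ δ →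
      CR δ q0 qf (.run q) .X [sA r] (.test r q')
  | zero2 {q q' : Q} {r : ℕ} : (q, Instr.zero r, q') ∈ δ →
      CR δ q0 qf (.test r q') (.A r) [sX] (.run q')
  | skip {q q' : Q} : (q, Instr.skip, q') ∈ δ → CR δ q0 qf (.run q) .G [sG] (.run q')
  | end1 : CR δ q0 qf (.run qf) .G [] .fin1
  | end2 : CR δ q0 qf .fin1 .X [tb] .fin2

def CRset {Q : Type} (δ : Set (Q × Instr × Q)) (q0 qf : Q) : Set (CQ Q × CN × List CS3 × CQ Q) :=
  {ρ | CR δ q0 qf ρ.1 ρ.2.1 ρ.2.2.1 ρ.2.2.2}

def crOf {Q : Type} : Q × Instr × Q → Set (CQ Q × CN × List CS3 × CQ Q)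
  | (q, .inc r, q') => {(.run q, .G, [sG, sA r], .run q')}
  | (q, .dec r, q') => {(.run q, .A r, [], .run q')}
  | (q, .zero r, q') => {(.run q, .X, [sA r], .test r q'), (.test r q', .A r, [sX], .run q')}
  | (q, .skip, q') => {(.run q, .G, [sG], .run q')}

lemma CRset_finite {Q : Type} {δ : Set (Q × Instr × Q)} (hδ : δ.Finite) (q0 qf : Q) :
    (CRset δ q0 qf).Finite := by
  have h1 : (⋃ t ∈ δ, crOf t).Finite := by
    refine hδ.biUnion ?_
    rintro ⟨q, i, q'⟩ _
    cases i
    · exact Set.finite_singleton _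
    · exact Set.finite_singleton _
    · exact (Set.finite_singleton _).insert _
    · exact Set.finite_singleton _
  have h2 : ({(.inp, .G, [tc, sG, sA 0], .inp), (.inp, .G, [sG], .run q0), (.run qf, .G, [], .fin1),
      (.fin1, .X, [tb], .fin2)} : Set (CQ Q × CN × List CS3 × CQ Q)).Finite := Set.toFinite _
  refine (h1.union h2).subset ?_
  rintro ⟨p, A, v, p'⟩ h
  have h' : CR δ q0 qf p A v p' := h
  clear h
  cases h' with
  | gen => right; simp
  | start => right; simp
  | inc h => exact Or.inl (Set.mem_biUnion h rfl)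
  | dec h => exact Or.inl (Set.mem_biUnion h rfl)
  | zero1 h => exact Or.inl (Set.mem_biUnion h (Or.inl rfl))
  | zero2 h => exact Or.inl (Set.mem_biUnion h (Or.inr rfl))
  | skip h => exact Or.inl (Set.mem_biUnion h rfl)
  | end1 => right; simp
  | end2 => right; simp

lemma first_unique {α : Type} {a : α} : ∀ {u u' w w' : List α}, a ∉ u → a ∉ u' →
    u ++ [a] ++ w = u' ++ [a] ++ w' → u = u' ∧ w = w'
  | [], [], w, w', _, _, h => by simpa using h
  | [], b :: u', w, w', _, h2, h => by
    simp only [List.nil_append, List.cons_append, List.cons.injEq] at h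
    exact absurd (h.1 ▸ List.mem_cons_self) h2
  | b :: u, [], w, w', h1, _, h => by
    simp only [List.nil_append, List.cons_append, List.cons.injEq] at h
    exact absurd (h.1 ▸ List.mem_cons_self) h1
  | b :: u, c :: u', w, w', h1, h2, h => by
    simp only [List.cons_append, List.cons.injEq] at h
    obtain ⟨h3, h4⟩ := first_unique (fun h => h1 (List.mem_cons_of_mem _ h))
      (fun h => h2 (List.mem_cons_of_mem _ h)) h.2
    exact ⟨by rw [h.1, h3], h4⟩

lemma LRw.unique {T N : Type} {A : N} {v x y u w : List (Symbol T N)} (h : LRw A v x y)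
    (hu : Symbol.nonterminal A ∉ u) (hx : x = u ++ [Symbol.nonterminal A] ++ w) :
    y = u ++ v ++ w := by
  obtain ⟨u', w', h1, h2, rfl⟩ := h
  obtain ⟨rfl, rfl⟩ := first_unique hu h1 (hx.symm.trans h2)
  rfl

lemma LRw.mem {T N : Type} {A : N} {v x y : List (Symbol T N)} (h : LRw A v x y) :
    Symbol.nonterminal A ∈ x := by
  obtain ⟨u', w', _, rfl, _⟩ := h
  simp

def cnt (l : List ℕ) : Store := fun r => l.count r

lemma cnt_cons (r : ℕ) (l : List ℕ) : cnt (r :: l) = update (cnt l) r (cnt l r + 1) := by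
  funext x
  simp only [cnt, update_apply, List.count_cons]
  split_ifs <;> simp_all

lemma cnt_erase (r : ℕ) (l1 l2 : List ℕ) :
    cnt (l1 ++ l2) = update (cnt (l1 ++ r :: l2)) r (cnt (l1 ++ r :: l2) r - 1) := by
  funext x
  simp only [cnt, update_apply, List.count_cons, List.count_append]
  split_ifs <;> simp_all

lemma cnt_replicate (n : ℕ) : cnt (List.replicate n 0) = update (0 : Store) 0 n := by
  funext x
  simp only [cnt, update_apply, List.count_replicate]
  split_ifs <;> simp_all

lemma sA_mem {r : ℕ} {l : List ℕ} : Symbol.nonterminal (CN.A r) ∈ l.map sA ↔ r ∈ l := by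
  simp [sA]

def str (n : ℕ) (l : List ℕ) : List CS3 := List.replicate n tc ++ [sG] ++ (l.map sA ++ [ta, sX])

lemma str_succ (n : ℕ) : str (n + 1) (List.replicate (n + 1) 0) = List.replicate n tc ++
    [tc, sG, sA 0] ++ ((List.replicate n 0).map sA ++ [ta, sX]) := by
  unfold str
  rw [List.replicate_succ' (a := tc), List.replicate_succ (a := 0)]
  simp

section
variable {Q : Type} {δ : Set (Q × Instr × Q)} {q0 qf : Q}

lemma cstep_of {p p' : CQ Q} {A : CN} {v : List CS3} (h : CR δ q0 qf p A v p') {x y : List CS3}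
    (u w : List CS3) (hu : Symbol.nonterminal A ∉ u) (hx : x = u ++ [Symbol.nonterminal A] ++ w)
    (hy : y = u ++ v ++ w) : CStep (CRset δ q0 qf) ∅ (p, x) (p', y) :=
  Or.inl ⟨A, v, h, u, w, hu, hx, hy⟩

lemma sim_mstep (n : ℕ) {c c' : Q × Store} (h : MStep δ c c') (l : List ℕ) (hl : c.2 = cnt l) :
    ∃ l', c'.2 = cnt l' ∧ ReflTransGen (CStep (CRset δ q0 qf) ∅) (.run c.1, str n l)
      (.run c'.1, str n l') := by
  obtain ⟨q, s⟩ := c
  obtain ⟨q', s'⟩ := c'
  obtain ⟨i, hi, hs⟩ := h
  simp only at hi hs hl ⊢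
  subst hl
  cases i with
  | inc r =>
    refine ⟨r :: l, by rw [cnt_cons]; exact hs, ReflTransGen.single ?_⟩
    exact cstep_of (CR.inc hi) (List.replicate n tc) _ (by simp [tc]) rfl (by simp [str])
  | dec r =>
    obtain ⟨h1, h2⟩ := hs
    have h3 : r ∈ l := List.count_pos_iff.mp (Nat.pos_of_ne_zero h1)
    obtain ⟨l1, l2, rfl, h4⟩ := List.eq_append_cons_of_mem h3
    refine ⟨l1 ++ l2, by rw [cnt_erase r]; exact h2, ReflTransGen.single ?_⟩
    exact cstep_of (CR.dec hi) (List.replicate n tc ++ [sG] ++ l1.map sA) (l2.map sA ++ [ta, sX])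
      (by simp [tc, sG, sA, h4]) (by simp [str, sA]) (by simp [str])
  | zero r =>
    obtain ⟨h1, h2⟩ := hs
    have h3 : r ∉ l := List.count_eq_zero.mp h1
    refine ⟨l, h2, ReflTransGen.head (b := (.test r q', List.replicate n tc ++ [sG] ++ l.map sA ++
      [ta] ++ [sA r])) ?_ (ReflTransGen.single ?_)⟩
    · exact cstep_of (CR.zero1 hi) (List.replicate n tc ++ [sG] ++ l.map sA ++ [ta]) []
        (by simp [tc, sG, sA, ta]) (by simp [str, sX]) (by simp)
    · exact cstep_of (CR.zero2 hi) (List.replicate n tc ++ [sG] ++ l.map sA ++ [ta]) []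
        (by simp [tc, sG, sA, ta, h3]) (by simp [sA]) (by simp [str])
  | skip =>
    refine ⟨l, hs, ReflTransGen.single ?_⟩
    exact cstep_of (CR.skip hi) (List.replicate n tc) _ (by simp [tc]) rfl rfl

def word (n : ℕ) : List (Fin 3) := List.replicate n 2 ++ [0, 1]

lemma map_word (n : ℕ) :
    (word n).map (Symbol.terminal : Fin 3 → CS3) = List.replicate n tc ++ [ta, tb] := by
  simp [word, tc, ta, tb]

lemma sim_complete (n : ℕ) (h : ReflTransGen (MStep δ) (q0, update 0 0 n) (qf, 0)) :
    ReflTransGen (CStep (CRset δ q0 qf) ∅) (.inp, [sG, ta, sX])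
      (.fin2, (word n).map Symbol.terminal) := by
  have h1 : ∀ k, ReflTransGen (CStep (CRset δ q0 qf) ∅) (.inp, [sG, ta, sX])
      (.inp, str k (List.replicate k 0)) := by
    intro k
    induction k with
    | zero => exact ReflTransGen.refl
    | succ k ih =>
      exact ih.tail (cstep_of CR.gen (List.replicate k tc) _ (by simp [tc]) rfl (str_succ k))
  have h2 : ∀ c, ReflTransGen (MStep δ) (q0, update 0 0 n) c → ∃ l, c.2 = cnt l ∧
      ReflTransGen (CStep (CRset δ q0 qf) ∅) (.inp, [sG, ta, sX]) (.run c.1, str n l) := by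
    intro c hc
    induction hc with
    | refl =>
      refine ⟨_, (cnt_replicate n).symm, (h1 n).tail ?_⟩
      exact cstep_of CR.start (List.replicate n tc) _ (by simp [tc]) rfl rfl
    | tail _ hs ih =>
      obtain ⟨l, h3, h4⟩ := ih
      obtain ⟨l', h5, h6⟩ := sim_mstep (q0 := q0) (qf := qf) n hs l h3
      exact ⟨l', h5, h4.trans h6⟩
  obtain ⟨l, h3, h4⟩ := h2 _ h
  have h5 : l = [] := by
    cases l with
    | nil => rfl
    | cons r l =>
      have := congrFun h3 r
      simp [cnt] at this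
  subst h5
  rw [map_word]
  refine (h4.tail (c := (.fin1, List.replicate n tc ++ [ta, sX])) ?_).tail ?_
  · exact cstep_of CR.end1 (List.replicate n tc) _ (by simp [tc]) rfl (by simp)
  · exact cstep_of CR.end2 (List.replicate n tc ++ [ta]) [] (by simp [tc, ta]) (by simp [sX])
      (by simp)

inductive CInv (δ : Set (Q × Instr × Q)) (q0 qf : Q) : CQ Q → List CS3 → Prop
  | inp (n : ℕ) : CInv δ q0 qf .inp (str n (List.replicate n 0))
  | run {n : ℕ} {l : List ℕ} {q : Q} : ReflTransGen (MStep δ) (q0, update 0 0 n) (q, cnt l) →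
      CInv δ q0 qf (.run q) (str n l)
  | test {n : ℕ} {l : List ℕ} {q q' : Q} {r : ℕ} :
      ReflTransGen (MStep δ) (q0, update 0 0 n) (q, cnt l) → (q, Instr.zero r, q') ∈ δ →
      CInv δ q0 qf (.test r q') (List.replicate n tc ++ [sG] ++ l.map sA ++ [ta] ++ [sA r])
  | fin1 {n : ℕ} {l : List ℕ} : ReflTransGen (MStep δ) (q0, update 0 0 n) (qf, cnt l) →
      CInv δ q0 qf .fin1 (List.replicate n tc ++ l.map sA ++ [ta] ++ [sX])
  | fin2 {n : ℕ} {l : List ℕ} : ReflTransGen (MStep δ) (q0, update 0 0 n) (qf, cnt l) →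
      CInv δ q0 qf .fin2 (List.replicate n tc ++ l.map sA ++ [ta] ++ [tb])
  | bad {p : CQ Q} {u v : List CS3} : (∀ y ∈ v, ∃ r, y = sA r) →
      (∀ r q', p = .test r q' → sA r ∈ u) → CInv δ q0 qf p (u ++ [ta] ++ v)

lemma CInv.cast {p : CQ Q} {x y : List CS3} (h : CInv δ q0 qf p x) (e : y = x) :
    CInv δ q0 qf p y := e ▸ h

lemma CInv.step {p p' : CQ Q} {x y v : List CS3} {A : CN} (h : CInv δ q0 qf p x)
    (hr : CR δ q0 qf p A v p') (hs : LRw A v x y) : CInv δ q0 qf p' y := by
  cases h with
  | inp n =>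
    cases hr with
    | gen =>
      rw [hs.unique (u := List.replicate n tc) (by simp [tc]) rfl]
      exact (CInv.inp (n + 1)).cast (str_succ n).symm
    | start =>
      rw [hs.unique (u := List.replicate n tc) (by simp [tc]) rfl]
      exact CInv.run (by rw [cnt_replicate])
  | @run n l q hq =>
    cases hr with
    | @inc _ q' r hi =>
      rw [hs.unique (u := List.replicate n tc) (by simp [tc]) rfl]
      refine (CInv.run (n := n) (l := r :: l) (hq.tail (c := (q', cnt (r :: l)))
        ⟨_, hi, cnt_cons r l⟩)).cast ?_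
      simp [str]
    | @dec _ q' r hi =>
      have h3 : r ∈ l := by simpa [str, tc, sG, sA, ta, sX] using hs.mem
      obtain ⟨l1, l2, rfl, h4⟩ := List.eq_append_cons_of_mem h3
      rw [hs.unique (u := List.replicate n tc ++ [sG] ++ l1.map sA) (w := l2.map sA ++ [ta, sX])
        (by simp [tc, sG, sA, h4]) (by simp [str, sA])]
      refine (CInv.run (n := n) (l := l1 ++ l2) (hq.tail (c := (q', cnt (l1 ++ l2)))
        ⟨_, hi, by simp [cnt], cnt_erase r l1 l2⟩)).cast ?_
      simp [str]
    | @zero1 _ q' r hi =>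
      rw [hs.unique (u := List.replicate n tc ++ [sG] ++ l.map sA ++ [ta]) (w := [])
        (by simp [tc, sG, sA, ta]) (by simp [str, sX])]
      rw [List.append_nil]
      exact CInv.test hq hi
    | @skip _ q' hi =>
      rw [hs.unique (u := List.replicate n tc) (by simp [tc]) rfl]
      exact CInv.run (hq.tail (c := (q', cnt l)) ⟨_, hi, rfl⟩)
    | end1 =>
      rw [hs.unique (u := List.replicate n tc) (by simp [tc]) rfl]
      refine (CInv.fin1 hq).cast ?_
      simp
  | @test n l q q' r hq hi =>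
    cases hr with
    | zero2 _ =>
      by_cases h3 : r ∈ l
      · obtain ⟨l1, l2, rfl, h4⟩ := List.eq_append_cons_of_mem h3
        rw [hs.unique (u := List.replicate n tc ++ [sG] ++ l1.map sA)
          (w := l2.map sA ++ [ta] ++ [sA r]) (by simp [tc, sG, sA, h4]) (by simp [sA])]
        refine (CInv.bad (u := List.replicate n tc ++ [sG] ++ l1.map sA ++ [sX] ++ l2.map sA)
          (v := [sA r]) (by simp) (fun _ _ h => by cases h)).cast ?_
        simp
      · rw [hs.unique (u := List.replicate n tc ++ [sG] ++ l.map sA ++ [ta]) (w := [])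
          (by simp [tc, sG, sA, ta, h3]) (by simp [sA])]
        refine (CInv.run (n := n) (l := l) (hq.tail (c := (q', cnt l))
          ⟨_, hi, List.count_eq_zero.mpr h3, rfl⟩)).cast ?_
        simp [str]
  | @fin1 n l hq =>
    cases hr with
    | end2 =>
      rw [hs.unique (u := List.replicate n tc ++ l.map sA ++ [ta]) (w := [])
        (by simp [tc, sA, ta]) (by simp [sX])]
      rw [List.append_nil]
      exact CInv.fin2 hq
  | fin2 hq => cases hr
  | @bad _ u w h1 h2 =>
    by_cases h3 : Symbol.nonterminal A ∈ u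
    · obtain ⟨u1, u2, rfl, h4⟩ := List.eq_append_cons_of_mem h3
      rw [hs.unique (u := u1) (w := u2 ++ [ta] ++ w) h4 (by simp)]
      refine (CInv.bad (u := u1 ++ v ++ u2) (v := w) h1 ?_).cast (by simp)
      rintro r q' rfl
      cases hr
      simp
    · have h4 : Symbol.nonterminal A ∈ w := by
        have := hs.mem
        simp only [List.mem_append, h3, false_or, List.mem_singleton, ta] at this
        rcases this with h | h
        · cases h
        · exact h
      obtain ⟨r, hr'⟩ := h1 _ h4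
      cases hr'
      obtain ⟨w1, w2, rfl, h5⟩ := List.eq_append_cons_of_mem h4
      cases hr with
      | dec _ =>
        rw [hs.unique (u := u ++ [ta] ++ w1) (w := w2) (by simp [h3, h5, ta]) (by simp)]
        refine (CInv.bad (u := u) (v := w1 ++ w2) ?_ (fun _ _ h => by cases h)).cast (by simp)
        intro y hy
        apply h1
        rcases List.mem_append.mp hy with h | h
        · exact List.mem_append_left _ h
        · exact List.mem_append_right _ (List.mem_cons_of_mem _ h)
      | zero2 _ => exact absurd (h2 _ _ rfl) h3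

lemma sim_sound (n : ℕ) (h : ReflTransGen (CStep (CRset δ q0 qf) ∅) (.inp, [sG, ta, sX])
      (.fin2, (word n).map Symbol.terminal)) :
    ReflTransGen (MStep δ) (q0, update 0 0 n) (qf, 0) := by
  have key : ∀ c, ReflTransGen (CStep (CRset δ q0 qf) ∅) (.inp, [sG, ta, sX]) c →
      CInv δ q0 qf c.1 c.2 := by
    intro c hc
    induction hc with
    | refl => exact CInv.inp 0
    | tail _ hs ih =>
      rcases hs with ⟨A, v, hr, hs⟩ | ⟨h, _⟩
      · exact ih.step hr hs
      · exact absurd h (Set.notMem_empty _)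
  have h1 := key _ h
  simp only at h1
  generalize hx : (word n).map (Symbol.terminal : Fin 3 → CS3) = x at h1
  have hnt : ∀ A, Symbol.nonterminal A ∉ x := by
    intro A; rw [← hx]; simp
  rw [map_word] at hx
  cases h1 with
  | @fin2 m l hq =>
    have h2 : l = [] := by
      cases l with
      | nil => rfl
      | cons r l => exact absurd (by simp [sA]) (hnt (CN.A r))
    subst h2
    have h3 : n = m := by
      have := congrArg List.length hx
      simpa using this
    subst h3
    exact hq
  | @bad _ u v h2 _ =>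
    exfalso
    have h3 : v = [] := by
      cases v with
      | nil => rfl
      | cons y v =>
        obtain ⟨r, rfl⟩ := h2 y List.mem_cons_self
        exact absurd (by simp [sA]) (hnt (CN.A r))
    subst h3
    have := congrArg List.getLast? hx
    simp [ta, tb] at this

end

/-- Every projection of a primitive recursive zero set is coded in a mode-1 language. -/
theorem exists_em1_coding {g : ℕ → ℕ → ℕ} (hg : Primrec₂ g) :
    ∃ L : Language (Fin 3), IsEM1 L ∧ ∀ n, word n ∈ L ↔ ∃ k, g n k = 0 := by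
  obtain ⟨R, ⟨Q, δ, q0, qf, hδ, hR⟩, h⟩ := cdef_of_primrec hg
  refine ⟨_, isEM1_of_clg (E := ∅) (CRset_finite hδ q0 qf) Set.finite_empty CQ.inp CQ.fin2
    [sG, ta, sX], fun n => ?_⟩
  rw [← h, hR]
  exact ⟨sim_sound n, sim_complete n⟩

end Pool.Agent.MP_99d1ae_lc
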