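import Pool.Agent.Mg.F99d1ae.Ga84006

/-! Pumped derivations with explicit control words. -/

set_option autoImplicit false

namespace Pool.Agent.MP_99d1ae_lc.Imm

open Relation

section runs

variable {ι τ : Type} {Tr : Set τ} {St : τ → Multiset ι → Multiset ι → Prop}

/-- Runs with a given list of labels. -/
def LR (Tr : Set τ) (St : τ → Multiset ι → Multiset ι → Prop) :
    List τ → Multiset ι → Multiset ι → Prop
  | [], c, d => c = d
  | t :: l, c, d => t ∈ Tr ∧ ∃ c', St t c c' ∧ LR Tr St l c' d

theorem LR.append {l l' : List τ} {c d e : Multiset ι} (h : LR Tr St l c d)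
    (h' : LR Tr St l' d e) : LR Tr St (l ++ l') c e := by
  induction l generalizing c with
  | nil => exact (show c = d from h) ▸ h'
  | cons t l ih =>
    obtain ⟨h1, c', h2, h3⟩ := h
    exact ⟨h1, c', h2, ih h3⟩

theorem LR.add (mono : ∀ t c c' e, St t c c' → St t (c + e) (c' + e)) {l : List τ}
    {c d : Multiset ι} (h : LR Tr St l c d) (e : Multiset ι) : LR Tr St l (c + e) (d + e) := by
  induction l generalizing c with
  | nil => exact congrArg (· + e) (show c = d from h)
  | cons t l ih =>
    obtain ⟨h1, c', h2, h3⟩ := h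
    exact ⟨h1, _, mono _ _ _ _ h2, ih h3⟩

theorem LR.of_run {c d : Multiset ι} {l : List (τ × Multiset ι)} (h : Run Tr St c l d) :
    LR Tr St (l.map Prod.fst) c d := by
  induction h with
  | nil c => rfl
  | cons ht hs _ ih => exact ⟨ht, _, hs, ih⟩

theorem LR.pump (mono : ∀ t c c' e, St t c c' → St t (c + e) (c' + e)) {l : List τ}
    {c u v : Multiset ι} (h : LR Tr St l (c + u) (c + v)) (m : ℕ) :
    LR Tr St (List.replicate m l).flatten (c + m • u) (c + m • v) := by
  induction m with
  | zero => simp [LR]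
  | succ m ih =>
    have e1 : c + (m + 1) • u = c + u + m • u := by rw [succ_nsmul]; abel
    have e2 : c + v + m • u = c + m • u + v := by abel
    have e3 : c + (m + 1) • v = c + m • v + v := by rw [succ_nsmul]; abel
    rw [e1, e3, List.replicate_succ, List.flatten_cons]
    exact (h.add mono (m • u)).append (e2 ▸ ih.add mono v)

/-- The control word `π₀^m t₀ π₁^m t₁ ⋯`. -/
def expand {τ : Type} (m : ℕ) (D : List (List τ × List τ)) : List τ :=
  D.flatMap fun p => (List.replicate m p.1).flatten ++ p.2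

theorem amalg' (mono : ∀ t c c' e, St t c c' → St t (c + e) (c' + e))
    (eff : ∀ t c c' d d', St t c c' → St t d d' → c' + d = d' + c)
    {l l' : List (τ × Multiset ι)}
    (hs : List.SublistForall₂ (fun a b : τ × Multiset ι => a.1 = b.1 ∧ a.2 ≤ b.2) l l') :
    ∀ {c u c' d v : Multiset ι} {q : List τ}, Run Tr St c l d →
      LR Tr St q (c + u) c' → Run Tr St c' l' (d + v) →
      ∃ D, ∀ m : ℕ, LR Tr St (expand m D) (c + m • u) (d + m • v) := by
  induction hs with
  | nil =>
    intro c u c' d v q h1 h2 h3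
    cases h1
    exact ⟨[(_, [])], fun m => by simpa [expand] using (h2.append (.of_run h3)).pump mono m⟩
  | @cons a b l1 l2 hab _ ih =>
    intro c u c' d v q h1 h2 h3
    cases h1 with
    | @cons t _ c1 _ _ ht hst hr =>
      cases h3 with
      | @cons t' _ c1' _ _ ht' hst' hr' =>
        obtain ⟨e1, e2⟩ := hab
        simp only at e1 e2
        subst e1
        obtain ⟨u', rfl⟩ := Multiset.le_iff_exists_add.mp e2
        have e3 : c1' = c1 + u' := by
          have := eff _ _ _ _ _ hst hst'
          have h4 : c1' + c = (c1 + u') + c := by rw [← this]; abel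
          exact add_right_cancel h4
        subst e3
        obtain ⟨D, hD⟩ := ih (q := []) hr rfl hr'
        refine ⟨(q, [t]) :: D, fun m => ?_⟩
        rw [expand, List.flatMap_cons, List.append_assoc]
        exact (h2.pump mono m).append ⟨ht, _, mono _ _ _ _ hst, hD m⟩
  | @cons_right b l1 l2 _ ih =>
    intro c u c' d v q h1 h2 h3
    cases h3 with
    | @cons t' _ c1' _ _ ht' hst' hr' =>
      exact ih h1 (h2.append (l' := [t']) ⟨ht', _, hst', rfl⟩) hr'

theorem pump' [Finite ι] (hTr : Tr.Finite)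
    (mono : ∀ t c c' e, St t c c' → St t (c + e) (c' + e))
    (eff : ∀ t c c' d d', St t c c' → St t d d' → c' + d = d' + c)
    {I : Set (Multiset ι)} (hI : I.Finite) (f : ℕ → Multiset ι)
    (hf : ∀ n, ∃ c ∈ I, ReflTransGen (fun x y => ∃ t ∈ Tr, St t x y) c (f n)) :
    ∃ i j, i < j ∧ ∃ v, f j = f i + v ∧ ∃ c ∈ I, ∃ D, ∀ m : ℕ,
      LR Tr St (expand m D) c (f i + m • v) := by
  choose c hc hr using hf
  choose l hl using fun n => exists_run (hr n)
  have hM : (Set.univ : Set (Multiset ι)).PartiallyWellOrderedOn (fun a b => a ≤ b) :=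
    Set.partiallyWellOrderedOn_univ_iff.mpr multiset_wqo
  have hT : Tr.PartiallyWellOrderedOn (fun a b => a = b) := hTr.partiallyWellOrderedOn
  have hIw : I.PartiallyWellOrderedOn (fun a b => a = b) := hI.partiallyWellOrderedOn
  have hP := hT.prod hM
  have : IsPreorder (τ × Multiset ι) (fun a b : τ × Multiset ι => a.1 = b.1 ∧ a.2 ≤ b.2) :=
    { refl := fun a => ⟨rfl, le_rfl⟩
      trans := fun a b c h1 h2 => ⟨h1.1.trans h2.1, h1.2.trans h2.2⟩ }
  have hH := Set.PartiallyWellOrderedOn.partiallyWellOrderedOn_sublistForall₂ _ hP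
  have hAll := hIw.prod (hM.prod hH)
  obtain ⟨i, j, hij, h1, h2, h3⟩ := hAll.exists_lt (f := fun n => (c n, f n, l n))
    (fun n => ⟨hc n, Set.mem_univ _, fun x hx => ⟨(hl n).mem x hx, Set.mem_univ _⟩⟩)
  simp only at h1 h2 h3
  obtain ⟨v, hv⟩ := Multiset.le_iff_exists_add.mp h2
  have h4 : Run Tr St (c j) (l j) (f i + v) := hv ▸ hl j
  obtain ⟨D, hD⟩ := amalg' mono eff h3 (u := 0) (q := []) (hl i) (by rw [add_zero, h1]; rfl) h4
  exact ⟨i, j, hij, v, hv, c i, hc i, D, fun m => by simpa using hD m⟩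

end runs

/-- Rewriting of the leftmost occurrence. -/
def rw1 (x : List ℕ) (o : ℕ × List ℕ) : List ℕ :=
  x.take (x.idxOf o.1) ++ o.2 ++ x.drop (x.idxOf o.1 + 1)

theorem rw1_eq {A : ℕ} {u : List ℕ} (h : A ∉ u) (v w : List ℕ) :
    rw1 (u ++ A :: w) (A, v) = u ++ v ++ w := by
  have : (u ++ A :: w).idxOf A = u.length := by
    rw [List.idxOf_append_of_notMem h]; simp
  simp [rw1, this]

theorem seq_eq {κ : Type} (A : κ → ℕ) (u v w : κ → List ℕ) (h1 : ∀ i, A i ∉ u i)
    (h2 : ∀ i j, i ≠ j → A j ∉ u i ++ v i ++ w i) (l : List κ) (hl : l.Nodup) (p : List ℕ)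
    (hp : ∀ i ∈ l, A i ∉ p) :
    (l.map fun i => (A i, v i)).foldl rw1 (p ++ (l.map fun i => u i ++ [A i] ++ w i).flatten) =
      p ++ (l.map fun i => u i ++ v i ++ w i).flatten := by
  induction l generalizing p with
  | nil => simp
  | cons i l ih =>
    rw [List.nodup_cons] at hl
    have e := rw1_eq (A := A i) (u := p ++ u i) (by simp [hp i (by simp), h1 i]) (v i)
      (w i ++ (l.map fun i => u i ++ [A i] ++ w i).flatten)
    have := ih hl.2 (p ++ (u i ++ v i ++ w i)) fun j hj => by
      rw [List.mem_append, not_or]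
      exact ⟨hp j (by simp [hj]), h2 i j fun e => hl.1 (e ▸ hj)⟩
    simp only [List.map_cons, List.foldl_cons, List.flatten_cons, List.append_assoc,
      List.cons_append, List.nil_append] at e this ⊢
    rw [e, this]

section em

variable {T N : Type} {n : ℕ} {comp : N → Fin n}
  {rules : Set ((Fin n → N) × (Fin n → List (Symbol T N)))}

/-- The coded single rewritings of a rule. -/
def ops (f : Symbol T N → ℕ) (r : (Fin n → N) × (Fin n → List (Symbol T N))) :
    List (ℕ × List ℕ) :=
  (List.finRange n).map fun i => (f (.nonterminal (r.1 i)), (r.2 i).map f)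

theorem step_code (hn : 1 ≤ n) (hok : ∀ r ∈ rules, ∀ i, comp (r.1 i) = i ∧ Over comp i (r.2 i))
    {f : Symbol T N → ℕ} (hf : Function.Injective f) {x : List (Symbol T N)} (hx : WF comp x)
    {r : (Fin n → N) × (Fin n → List (Symbol T N))} (hr : r ∈ rules)
    {c' : Multiset (Symbol T N)} (h : EMSt r (x : Multiset _) c') :
    ∃ y, Step1 comp rules x y ∧ (y : Multiset _) = c' ∧ WF comp y ∧
      y.map f = (ops f r).foldl rw1 (x.map f) := by
  obtain ⟨e, he, rfl⟩ := h
  have hmem : ∀ i, Symbol.nonterminal (r.1 i) ∈ x := by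
    intro i
    rw [← Multiset.mem_coe, he, Multiset.mem_add]
    right
    rw [Multiset.mem_sum]
    exact ⟨i, Finset.mem_univ _, Multiset.mem_singleton_self _⟩
  obtain ⟨u, w, h1, h2⟩ := step1_of_mem hn hok hx hr hmem
  refine ⟨_, ⟨r, hr, u, w, h1, h2, rfl⟩, ?_,
    wf_of_split (fun i => (h1 i).1) fun i => (hok r hr i).2, ?_⟩
  · rw [coe_split]
    have h3 := coe_split u (fun i => [Symbol.nonterminal (r.1 i)]) w
    rw [← h2, he] at h3
    have h4 : e = ∑ i, ((u i : Multiset (Symbol T N)) + w i) := add_right_cancel h3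
    rw [h4]
  · have := seq_eq (fun i => f (.nonterminal (r.1 i))) (fun i => (u i).map f)
      (fun i => (r.2 i).map f) (fun i => (w i).map f)
      (fun i => by rw [List.mem_map_of_injective hf]; exact (h1 i).2) (fun i j hij => by
        rw [← List.map_append, ← List.map_append, List.mem_map_of_injective hf]
        intro hA
        refine hij ((?_ : comp (r.1 j) = i).symm.trans (hok r hr j).1)
        simp only [List.mem_append] at hA
        rcases hA with (hA | hA) | hA
        · exact (h1 i).1 _ (List.mem_append_left _ hA)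
        · exact (hok r hr i).2 _ hA
        · exact (h1 i).1 _ (List.mem_append_right _ hA))
      (List.finRange n) (List.nodup_finRange n) [] (by simp)
    rw [h2, ops]
    simp only [List.nil_append] at this
    simp only [List.ofFn_eq_map, List.map_flatten, List.map_map, Function.comp_def,
      List.map_append, List.map_cons, List.map_nil]
    exact this.symm

theorem run_code (hn : 1 ≤ n) (hok : ∀ r ∈ rules, ∀ i, comp (r.1 i) = i ∧ Over comp i (r.2 i))
    {f : Symbol T N → ℕ} (hf : Function.Injective f)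
    (l : List ((Fin n → N) × (Fin n → List (Symbol T N)))) {x : List (Symbol T N)}
    (hx : WF comp x) {d : Multiset (Symbol T N)} (h : LR rules EMSt l (x : Multiset _) d) :
    ∃ y, ReflTransGen (Step1 comp rules) x y ∧ (y : Multiset _) = d ∧
      y.map f = (l.flatMap (ops f)).foldl rw1 (x.map f) := by
  induction l generalizing x with
  | nil => exact ⟨x, .refl, h, rfl⟩
  | cons r l ih =>
    obtain ⟨hr, c', h1, h2⟩ := h
    obtain ⟨y, h3, rfl, h4, h5⟩ := step_code hn hok hf hx hr h1
    obtain ⟨z, h6, h7, h8⟩ := ih h4 h2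
    exact ⟨z, .head h3 h6, h7, by rw [h8, h5, List.flatMap_cons, List.foldl_append]⟩

end em

theorem expand_flatMap {τ σ : Type} (g : τ → List σ) (m : ℕ) (D : List (List τ × List τ)) :
    (expand m D).flatMap g = expand m (D.map fun p => (p.1.flatMap g, p.2.flatMap g)) := by
  have : ∀ l : List τ, ((List.replicate m l).flatten).flatMap g =
      (List.replicate m (l.flatMap g)).flatten := fun l => by
    induction m with
    | zero => simp
    | succ m ih => simp only [List.replicate_succ, List.flatten_cons, List.flatMap_append, ih]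
  induction D with
  | nil => rfl
  | cons p D ih =>
    simp only [expand, List.flatMap_cons, List.map_cons, List.flatMap_append, this] at ih ⊢
    rw [ih]

/-- The pumping lemma with explicit control words. -/
theorem family {k : ℕ} {L : Language (Fin k)} (h : IsEM1 L) (w : ℕ → List (Fin k))
    (hw : ∀ i, w i ∈ L) : ∃ i j, i < j ∧
      ∃ (x : List ℕ) (D : List (List (ℕ × List ℕ) × List (ℕ × List ℕ))), ∀ m : ℕ, ∃ z ∈ L,
        (∀ t, z.count t + m * (w i).count t = (w i).count t + m * (w j).count t) ∧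
        z.map (fun t => t.1) = (expand m D).foldl rw1 x := by
  obtain ⟨n, N, hN, comp, start, rules, hn, hs, hr, hso, hro, hL⟩ := h
  have : Finite (Symbol (Fin k) N) := finite_symbol
  obtain ⟨g, hg⟩ := exists_injective_nat N
  let f : Symbol (Fin k) N → ℕ := fun s => match s with
    | .terminal t => t.1
    | .nonterminal A => k + g A
  have hf : Function.Injective f := by
    rintro (a | a) (b | b) e <;> simp only [f] at e
    · rw [Fin.ext e]
    · omega
    · omega
    · rw [hg (by omega : g a = g b)]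
  obtain ⟨i, j, hij, v, hv, c, ⟨x, hx, rfl⟩, D, hm⟩ := pump' (Tr := rules) (St := EMSt) hr
    (by
      rintro t c c' e ⟨e', rfl, rfl⟩
      exact ⟨e' + e, by abel, by abel⟩)
    (by
      rintro t c c' d d' ⟨e, rfl, rfl⟩ ⟨e', rfl, rfl⟩
      abel)
    (I := (fun x : List (Symbol (Fin k) N) => (x : Multiset _)) '' start) (hs.image _)
    (fun q => (((w q).map Symbol.terminal : List (Symbol (Fin k) N)) : Multiset _))
    (by
      intro q
      obtain ⟨x, hx, hd⟩ := (hL _).mp (hw q)
      refine ⟨x, ⟨x, hx, rfl⟩, ?_⟩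
      exact rtg_lift (fun x : List (Symbol (Fin k) N) => (x : Multiset (Symbol (Fin k) N)))
        (fun a b hab => Step1.emst hab) hd)
  have hwf : WF comp x := by
    rcases hso x hx with h | ⟨p, h1, h2⟩
    · exact Or.inl h
    · exact Or.inr ⟨p, h1, fun i => (h2 i).1⟩
  refine ⟨i, j, hij, x.map f, D.map fun p => (p.1.flatMap (ops f), p.2.flatMap (ops f)),
    fun m => ?_⟩
  obtain ⟨y, h1, h2, h3⟩ := run_code hn hro hf _ hwf (hm m)
  obtain ⟨z, rfl, hz⟩ := pumped_word hv m h2
  refine ⟨z, (hL z).mpr ⟨x, hx, h1⟩, hz, ?_⟩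
  rw [← expand_flatMap, ← h3, List.map_map]
  rfl

/-- Data of a pumped family: start word, control, offset, difference and a sign. -/
abbrev Dat : Type :=
  (List ℕ × List (List (ℕ × List ℕ) × List (ℕ × List ℕ))) × ℕ × ℕ × ℕ

theorem rw1_primrec : Primrec₂ rw1 := by
  have h : Primrec fun p : List ℕ × ℕ × List ℕ => p.1.idxOf p.2.1 :=
    Primrec.list_idxOf.comp (Primrec.fst.comp .snd) .fst
  exact Primrec.list_append.comp (Primrec.list_append.comp (Primrec.list_take.comp h .fst)
    (Primrec.snd.comp .snd)) (Primrec.list_drop.comp (Primrec.succ.comp h) .fst)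

theorem expand_primrec {τ : Type} [Primcodable τ] :
    Primrec₂ (expand : ℕ → List (List τ × List τ) → List τ) := by
  have h : Primrec₂ fun (m : ℕ) (l : List τ) => (List.replicate m l).flatten :=
    (Primrec.list_flatMap (Primrec.list_range.comp .fst)
      (g := fun (p : ℕ × List τ) _ => p.2) (Primrec.snd.comp .fst).to₂).of_eq fun p => by
        simp [List.flatMap_def]
  exact Primrec.list_flatMap .snd (Primrec.list_append.comp
    (h.comp (Primrec.fst.comp .fst) (Primrec.fst.comp .snd)) (Primrec.snd.comp .snd)).to₂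

/-- The last letter of the member of the family `e` that belongs to `n`. -/
def out (e : Dat) (n : ℕ) : Option ℕ :=
  ((expand ((n - e.2.1) / e.2.2.1) e.1.2).foldl rw1 e.1.1).reverse.head?

theorem out_primrec : Primrec₂ out :=
  Primrec.list_head?.comp (Primrec.list_reverse.comp (Primrec.list_foldl
    (h := fun _ q => rw1 q.1 q.2)
    (expand_primrec.comp (Primrec.nat_div.comp (Primrec.nat_sub.comp .snd
      (Primrec.fst.comp (Primrec.snd.comp .fst)))
      (Primrec.fst.comp (Primrec.snd.comp (Primrec.snd.comp .fst))))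
      (Primrec.snd.comp (Primrec.fst.comp .fst)))
    (Primrec.fst.comp (Primrec.fst.comp .fst))
    (rw1_primrec.comp (Primrec.fst.comp .snd) (Primrec.snd.comp .snd)).to₂))

/-- The family that is treated at `n`. -/
def dat (n : ℕ) : Dat := Denumerable.ofNat Dat n.sqrt.unpair.1

/-- The diagonal set. -/
def S : Set ℕ := {n | out (dat n) n = some (dat n).2.2.2}

theorem S_primrec : PrimrecPred (· ∈ S) := by
  have h : Primrec dat := (Primrec.ofNat Dat).comp
    (Primrec.fst.comp (Primrec.unpair.comp Primrec.nat_sqrt))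
  exact Primrec.eq.comp (out_primrec.comp h .id) (Primrec.option_some.comp
    (Primrec.snd.comp (Primrec.snd.comp (Primrec.snd.comp h))))

theorem exists_dat (e : Dat) (a : ℕ) {d : ℕ} (hd : 0 < d) : ∃ m, dat (a + m * d) = e := by
  obtain ⟨q, h1, h2⟩ : ∃ q : ℕ, q.unpair.1 = Encodable.encode e ∧ a + d ≤ q :=
    ⟨Nat.pair _ (a + d), by rw [Nat.unpair_pair], Nat.right_le_pair _ _⟩
  have h3 := Nat.div_add_mod (q * q - a + d - 1) d
  have h4 := Nat.mod_lt (q * q - a + d - 1) hd
  have h5 : q ≤ q * q := Nat.le_mul_self q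
  refine ⟨(q * q - a + d - 1) / d, ?_⟩
  have h6 : q = (a + (q * q - a + d - 1) / d * d).sqrt := by
    rw [Nat.eq_sqrt, mul_comm _ d]
    constructor
    · omega
    · have : (q + 1) * (q + 1) = q * q + 2 * q + 1 := by ring
      omega
  rw [dat, ← h6, h1, Denumerable.ofNat_encode]

/-- The word of length `n + 2` selected by a sign. -/
def wd (n : ℕ) (b : Bool) : List (Fin 2) := List.replicate n 0 ++ if b then [0, 1] else [1, 0]

theorem wd_count (n : ℕ) (b : Bool) : (wd n b).count 0 = n + 1 := by
  cases b <;> simp [wd]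

theorem immune {K : Language (Fin 2)} (hK : IsEM1 K) (hi : Set.Infinite K)
    (h : ∀ w ∈ K, ∃ n b, w = wd n b) (c : ℕ) :
    ∃ n b, wd n b ∈ K ∧ (n ∈ S ↔ c = if b then 1 else 0) := by
  have h1 : ∀ a, ∃ n, a < n ∧ ∃ b, wd n b ∈ K := fun a => by
    by_contra! hc
    refine hi ((((Set.finite_le_nat a).prod (Set.finite_univ (α := Bool))).image
      fun p => wd p.1 p.2).subset fun w hw => ?_)
    obtain ⟨n, b, rfl⟩ := h w hw
    exact ⟨(n, b), ⟨not_lt.1 fun e => hc n e b hw, trivial⟩, rfl⟩
  choose nx hnx bx hbx using h1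
  have hmono : StrictMono fun i => nx^[i + 1] 0 := strictMono_nat_of_lt_succ fun i => by
    rw [Function.iterate_succ_apply' nx (i + 1)]; exact hnx _
  obtain ⟨i, j, hij, x, D, hm⟩ := family hK (fun i => wd (nx^[i + 1] 0) (bx (nx^[i] 0)))
    fun i => by rw [Function.iterate_succ_apply']; exact hbx _
  have hlt : nx^[i + 1] 0 < nx^[j + 1] 0 := hmono hij
  obtain ⟨d, hd⟩ := Nat.exists_eq_add_of_lt hlt
  obtain ⟨m, hme⟩ := exists_dat ((x, D), nx^[i + 1] 0, d + 1, c) (nx^[i + 1] 0) d.succ_pos
  obtain ⟨z, hz, h2, h3⟩ := hm m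
  obtain ⟨n, b, rfl⟩ := h z hz
  have h4 := h2 0
  simp only [wd_count] at h4
  obtain rfl : n = nx^[i + 1] 0 + m * (d + 1) := by rw [hd] at h4; nlinarith
  refine ⟨_, b, hz, ?_⟩
  show out (dat _) _ = _ ↔ _
  rw [hme, out]
  simp only [Nat.add_sub_cancel_left, Nat.mul_div_cancel _ d.succ_pos, ← h3]
  cases b <;> simp [wd, eq_comm]

theorem wd_length (n : ℕ) (b : Bool) : (wd n b).length = n + 2 := by
  cases b <;> simp [wd]

theorem wd_inj {n n' : ℕ} {b b' : Bool} (h : wd n b = wd n' b') : n = n' ∧ b = b' := by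
  obtain rfl : n = n' := by simpa [wd_length] using congrArg List.length h
  cases b <;> cases b' <;> simp_all [wd]

theorem wd_primrec (b : Bool) : Primrec fun n => wd n b :=
  (Primrec.list_append.comp (Primrec.list_map Primrec.list_range
    (Primrec.const (0 : Fin 2)).to₂) (Primrec.const (if b then [0, 1] else [1, 0]))).of_eq
    fun n => by simp [wd]

/-- The diagonal language. -/
def LS : Language (Fin 2) := {w | ∃ n b, w = wd n b ∧ (n ∈ S ↔ b = true)}

theorem mem_LS {n : ℕ} {b : Bool} : wd n b ∈ LS ↔ (n ∈ S ↔ b = true) :=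
  ⟨fun ⟨_, _, h1, h2⟩ => by obtain ⟨rfl, rfl⟩ := wd_inj h1; exact h2, fun h => ⟨n, b, rfl, h⟩⟩

theorem LS_primrec : PrimrecPred fun w : List (Fin 2) => w ∈ LS := by
  have h0 : Primrec fun w : List (Fin 2) => w.length - 2 :=
    Primrec.nat_sub.comp Primrec.list_length (Primrec.const 2)
  refine (((S_primrec.comp h0).and (Primrec.eq.comp .id ((wd_primrec true).comp h0))).or
    ((S_primrec.comp h0).not.and (Primrec.eq.comp .id ((wd_primrec false).comp h0)))).of_eq
    fun w => ⟨?_, ?_⟩
  · rintro (⟨h1, h2⟩ | ⟨h1, h2⟩)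
    · exact ⟨_, _, h2, by simpa using h1⟩
    · exact ⟨_, _, h2, by simpa using h1⟩
  · rintro ⟨n, b, rfl, h⟩
    cases b <;> simp_all [wd_length]

end Pool.Agent.MP_99d1ae_lc.Imm
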