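import Mathlib
import Pool.Agent.MP_99d1ae_lc.CLG

set_option autoImplicit false

namespace Pool.Agent.MP_99d1ae_lc

open Relation

variable {T N : Type}

def matRulesAt : List (ContextFreeRule T N) →
    Set (List (ContextFreeRule T N) × (N × Bool) × List (Symbol T (N × Bool)) ×
      List (ContextFreeRule T N))
  | [] => ∅
  | r :: m => {(r :: m, (r.input, false), r.output.map (mapS fun B => (B, false)), m),
      (r :: m, (r.input, false), [Symbol.nonterminal (r.input, true)], r :: m),
      (m, (r.input, true), [Symbol.nonterminal (r.input, false)], m)}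

def matRules (M : Set (List (ContextFreeRule T N))) :
    Set (List (ContextFreeRule T N) × (N × Bool) × List (Symbol T (N × Bool)) ×
      List (ContextFreeRule T N)) :=
  ⋃ m ∈ M, ⋃ q ∈ {q | q ∈ m.tails}, matRulesAt q

lemma matRules_finite {M : Set (List (ContextFreeRule T N))} (hM : M.Finite) :
    (matRules M).Finite := by
  refine hM.biUnion fun m _ => (List.finite_toSet _).biUnion fun q _ => ?_
  cases q with
  | nil => exact Set.finite_empty
  | cons r m => exact ((Set.finite_singleton _).insert _).insert _

lemma mem_matRules {M : Set (List (ContextFreeRule T N))} {m q : List (ContextFreeRule T N)}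
    (hm : m ∈ M) (hq : q <:+ m) : matRulesAt q ⊆ matRules M := fun _ h =>
  Set.mem_biUnion hm (Set.mem_biUnion ((List.mem_tails _ _).mpr hq) h)

open Classical in
noncomputable def mark (A : N) (b : Bool) (B : N) : N × Bool := (B, if B = A then b else false)

lemma mark_false (A : N) : mark A false = fun B => (B, false) := by
  funext B; simp [mark]

lemma toggle_all {Q : Type} {R : Set (Q × (N × Bool) × List (Symbol T (N × Bool)) × Q)}
    {E : Set (Q × Q)} {q : Q} {A : N} {b : Bool}
    (hr : (q, (A, b), [Symbol.nonterminal (A, !b)], q) ∈ R) (s : List (Symbol T (N × Bool))) :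
    ∀ (p : List (Symbol T N)) (l : List (Symbol T (N × Bool))), Symbol.nonterminal (A, b) ∉ l →
      ReflTransGen (CStep R E) (q, l ++ p.map (mapS (mark A b)) ++ s)
        (q, l ++ p.map (mapS (mark A (!b))) ++ s)
  | [], l, _ => ReflTransGen.refl
  | Symbol.terminal t :: p, l, hl => by
    have := toggle_all (E := E) hr s p (l ++ [Symbol.terminal t]) (by simpa using hl)
    simpa [mapS] using this
  | Symbol.nonterminal B :: p, l, hl => by
    by_cases hB : B = A
    · subst hB
      have h1 := toggle_all (E := E) hr s p (l ++ [Symbol.nonterminal (B, !b)])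
        (by simpa using hl)
      refine ReflTransGen.head (b := (q, l ++ [Symbol.nonterminal (B, !b)] ++
        p.map (mapS (mark B b)) ++ s)) (Or.inl ⟨(B, b), _, hr, l, p.map (mapS (mark B b)) ++ s,
          hl, ?_, ?_⟩) ?_
      · simp [mapS, mark]
      · simp
      · simpa [mapS, mark] using h1
    · have := toggle_all (E := E) hr s p (l ++ [Symbol.nonterminal (B, false)])
        (by simp [hl, Ne.symm hB])
      simpa [mapS, mark, hB] using this

lemma mark_not_mem (A : N) (p : List (Symbol T N)) :
    Symbol.nonterminal (A, false) ∉ p.map (mapS (mark A true)) := by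
  rw [mem_map_mapS]
  rintro ⟨B, _, h⟩
  simp only [mark, Prod.mk.injEq] at h
  obtain ⟨rfl, h⟩ := h
  simp at h

lemma sim_rewrite {M : Set (List (ContextFreeRule T N))} {E : Set (List (ContextFreeRule T N) ×
    List (ContextFreeRule T N))} {m q : List (ContextFreeRule T N)} {r : ContextFreeRule T N}
    (hm : m ∈ M) (hq : r :: q <:+ m) {x y : List (Symbol T N)} (h : r.Rewrites x y) :
    ReflTransGen (CStep (matRules M) E) (r :: q, x.map (mapS fun B => (B, false)))
      (q, y.map (mapS fun B => (B, false))) := by
  obtain ⟨p, s, rfl, rfl⟩ := h.exists_parts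
  have hs := mem_matRules hm hq
  have h1 := toggle_all (R := matRules M) (E := E) (q := r :: q) (A := r.input) (b := false)
    (hs (Or.inr (Or.inl rfl))) ([Symbol.nonterminal (r.input, false)] ++
      s.map (mapS fun B => (B, false))) p [] (by simp)
  have h2 := toggle_all (R := matRules M) (E := E) (q := q) (A := r.input) (b := true)
    (hs (Or.inr (Or.inr rfl))) (r.output.map (mapS fun B => (B, false)) ++
      s.map (mapS fun B => (B, false))) p [] (by simp)
  simp only [Bool.not_false, Bool.not_true, mark_false, List.nil_append] at h1 h2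
  have h3 : CStep (matRules M) E (r :: q, p.map (mapS (mark r.input true)) ++
      ([Symbol.nonterminal (r.input, false)] ++ s.map (mapS fun B => (B, false))))
      (q, p.map (mapS (mark r.input true)) ++ (r.output.map (mapS fun B => (B, false)) ++
      s.map (mapS fun B => (B, false)))) :=
    Or.inl ⟨(r.input, false), _, hs (Or.inl rfl), _, s.map (mapS fun B => (B, false)),
      mark_not_mem _ p, by simp, by simp⟩
  have h4 := (h1.tail h3).trans h2
  simpa [mapS] using h4

lemma sim_matStep {M : Set (List (ContextFreeRule T N))} {E : Set (List (ContextFreeRule T N) ×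
    List (ContextFreeRule T N))} {m : List (ContextFreeRule T N)} (hm : m ∈ M) :
    ∀ (q : List (ContextFreeRule T N)), q <:+ m → ∀ {x y : List (Symbol T N)}, MatStep q x y →
    ReflTransGen (CStep (matRules M) E) (q, x.map (mapS fun B => (B, false)))
      ([], y.map (mapS fun B => (B, false)))
  | [], _, x, y, h => by
    have h' : x = y := h
    subst h'
    exact ReflTransGen.refl
  | r :: q, hq, x, y, h => by
    obtain ⟨z, h1, h2⟩ := h
    exact (sim_rewrite hm hq h1).trans
      (sim_matStep hm q ((List.suffix_cons r q).trans hq) h2)

lemma map_fst_lift (v : List (Symbol T N)) :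
    (v.map (mapS fun B => (B, false))).map (mapS Prod.fst) = v := by
  rw [List.map_map]
  conv_rhs => rw [← List.map_id v]
  congr 1
  funext a
  cases a <;> rfl

theorem isEM1_of_matrix' (S : N) {M : Set (List (ContextFreeRule T N))} (hM : M.Finite)
    {L : Language T} (hL : ∀ w, w ∈ L ↔ Relation.ReflTransGen (fun x y => ∃ m ∈ M, MatStep m x y)
      [Symbol.nonterminal S] (w.map Symbol.terminal)) : IsEM1 L := by
  have H := isEM1_of_clg (R := matRules M) (E := (fun m => ([], m)) '' M) (matRules_finite hM)
    (hM.image _) [] [] [Symbol.nonterminal (S, false)]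
  convert H using 1
  ext w
  rw [hL]
  change _ ↔ ReflTransGen (CStep (matRules M) ((fun m => ([], m)) '' M))
    ([], [Symbol.nonterminal (S, false)]) ([], w.map Symbol.terminal)
  constructor
  · intro h
    have h1 := rtg_lift' (p := CStep (matRules M) ((fun m => ([], m)) '' M))
      (fun x : List (Symbol T N) => (([] : List (ContextFreeRule T N)),
        x.map (mapS fun B => (B, false)))) (by
        rintro x y ⟨m, hm, h2⟩
        exact ReflTransGen.head (b := (m, x.map (mapS fun B => (B, false))))
          (Or.inr ⟨⟨m, hm, rfl⟩, rfl⟩) (sim_matStep hm m List.suffix_rfl h2)) h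
    simp only [map_mapS_terminal] at h1
    exact h1
  · intro h
    have key : ∀ c, ReflTransGen (CStep (matRules M) ((fun m => ([], m)) '' M))
        ([], [Symbol.nonterminal (S, false)]) c → ∀ z, MatStep c.1 (c.2.map (mapS Prod.fst)) z →
        ReflTransGen (fun x y => ∃ m ∈ M, MatStep m x y) [Symbol.nonterminal S] z := by
      intro c hc
      induction hc with
      | refl =>
        intro z hz
        have h' : [Symbol.nonterminal S] = z := hz
        rw [← h']
      | @tail b c _ hs ih =>
        obtain ⟨q, x⟩ := b
        obtain ⟨q', y⟩ := c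
        intro z hz
        rcases hs with ⟨A, v, hr, u, w, _, h2, h3⟩ | ⟨⟨m, hm, h2⟩, h3⟩
        · simp only at hr h2 h3 hz ih
          subst h2 h3
          simp only [matRules, Set.mem_iUnion] at hr
          obtain ⟨m, _, q1, _, hr⟩ := hr
          cases q1 with
          | nil => exact absurd hr (Set.notMem_empty _)
          | cons r m' =>
            rcases hr with hr | hr | hr
            · simp only [Prod.mk.injEq] at hr
              obtain ⟨rfl, rfl, rfl, rfl⟩ := hr
              refine ih z ⟨_, ?_, hz⟩
              simp only [List.map_append, map_fst_lift]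
              exact r.rewrites_of_exists_parts _ _
            · simp only [Prod.mk.injEq] at hr
              obtain ⟨rfl, rfl, rfl, rfl⟩ := hr
              exact ih z (by simpa [mapS] using hz)
            · simp only [Set.mem_singleton_iff, Prod.mk.injEq] at hr
              obtain ⟨rfl, rfl, rfl, rfl⟩ := hr
              exact ih z (by simpa [mapS] using hz)
        · simp only [Prod.mk.injEq] at h2 h3 hz ih
          obtain ⟨rfl, rfl⟩ := h2
          subst h3
          exact (ih _ rfl).tail ⟨m, hm, hz⟩
    exact key _ h _ (map_mapS_terminal _ w)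

theorem IsMatrix.isEM1 {L : Language T} (h : IsMatrix L) : IsEM1 L := by
  obtain ⟨N, _, S, M, hM, hL⟩ := h
  exact isEM1_of_matrix' S hM hL

end Pool.Agent.MP_99d1ae_lc
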