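import Mathlib
import Pool.Agent.MP_99d1ae_lc.PumpEM

set_option autoImplicit false

namespace Pool.Agent.MP_99d1ae_lc

open Relation

/-- Matrix application on Parikh multisets. -/
def MSt {T N : Type} : List (ContextFreeRule T N) → Multiset (Symbol T N) →
    Multiset (Symbol T N) → Prop
  | [], c, c' => c = c'
  | r :: m, c, c' => ∃ e, c = e + {Symbol.nonterminal r.input} ∧
      MSt m (e + (r.output : Multiset (Symbol T N))) c'

lemma MSt.mono {T N : Type} : ∀ (m : List (ContextFreeRule T N)) (c c' e : Multiset (Symbol T N)),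
    MSt m c c' → MSt m (c + e) (c' + e)
  | [], c, c', e, h => by
    have h' : c = c' := h
    rw [h']; rfl
  | r :: m, c, c', e, h => by
    obtain ⟨e', rfl, h⟩ := h
    refine ⟨e' + e, by abel, ?_⟩
    have := MSt.mono m _ _ e h
    have e1 : e' + e + (r.output : Multiset (Symbol T N)) = e' + r.output + e := by abel
    rw [e1]; exact this

lemma MSt.eff {T N : Type} : ∀ (m : List (ContextFreeRule T N))
    (c c' d d' : Multiset (Symbol T N)), MSt m c c' → MSt m d d' → c' + d = d' + c
  | [], c, c', d, d', h1, h2 => by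
    have h1' : c = c' := h1
    have h2' : d = d' := h2
    rw [h1', h2', add_comm]
  | r :: m, c, c', d, d', h1, h2 => by
    obtain ⟨e1, rfl, h1⟩ := h1
    obtain ⟨e2, rfl, h2⟩ := h2
    have := MSt.eff m _ _ _ _ h1 h2
    have h3 : c' + (e2 + {Symbol.nonterminal r.input}) + (r.output : Multiset (Symbol T N)) =
        d' + (e1 + {Symbol.nonterminal r.input}) + (r.output : Multiset (Symbol T N)) := by
      calc _ = c' + (e2 + (r.output : Multiset (Symbol T N))) + {Symbol.nonterminal r.input} := by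
            abel
        _ = d' + (e1 + (r.output : Multiset (Symbol T N))) + {Symbol.nonterminal r.input} := by
            rw [this]
        _ = _ := by abel
    exact add_right_cancel h3

lemma coe_three {α : Type} (p v q : List α) :
    ((p ++ v ++ q : List α) : Multiset α) = ((p : Multiset α) + q) + v := by
  rw [← Multiset.coe_add, ← Multiset.coe_add]; abel

lemma MatStep.mst {T N : Type} : ∀ (m : List (ContextFreeRule T N)) (x y : List (Symbol T N)),
    MatStep m x y → MSt m (x : Multiset _) (y : Multiset _)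
  | [], x, y, h => by
    have h' : x = y := h
    rw [h']; rfl
  | r :: m, x, y, h => by
    obtain ⟨z, h1, h2⟩ := h
    obtain ⟨p, q, rfl, rfl⟩ := h1.exists_parts
    refine ⟨(p : Multiset (Symbol T N)) + (q : Multiset (Symbol T N)), coe_three _ _ _, ?_⟩
    rw [← coe_three]
    exact MatStep.mst m _ _ h2

lemma matStep_of_mst {T N : Type} : ∀ (m : List (ContextFreeRule T N)) (x : List (Symbol T N))
    (c' : Multiset (Symbol T N)), MSt m (x : Multiset _) c' →
      ∃ y, MatStep m x y ∧ (y : Multiset _) = c'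
  | [], x, c', h => ⟨x, rfl, h⟩
  | r :: m, x, c', h => by
    obtain ⟨e, he, h⟩ := h
    have hmem : Symbol.nonterminal r.input ∈ x := by
      rw [← Multiset.mem_coe, he]; simp
    obtain ⟨p, q, rfl⟩ := List.append_of_mem hmem
    have e1 : p ++ Symbol.nonterminal r.input :: q = p ++ [Symbol.nonterminal r.input] ++ q := by
      simp
    rw [e1, coe_three] at he
    have e2 : (p : Multiset (Symbol T N)) + q = e := add_right_cancel he
    rw [← e2, ← coe_three] at h
    obtain ⟨y, h1, h2⟩ := matStep_of_mst m _ _ h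
    exact ⟨y, ⟨_, e1 ▸ r.rewrites_of_exists_parts p q, h1⟩, h2⟩

theorem IsMatrix.pump {T : Type} [Finite T] [DecidableEq T] {L : Language T} (h : IsMatrix L)
    (w : ℕ → List T) (hw : ∀ k, w k ∈ L) :
    ∃ i j, i < j ∧ ∀ m : ℕ, ∃ z ∈ L, ∀ t,
      z.count t + m * (w i).count t = (w i).count t + m * (w j).count t := by
  obtain ⟨N, hN, S, M, hM, hL⟩ := h
  have : Finite (Symbol T N) := finite_symbol
  obtain ⟨i, j, hij, v, hv, hm⟩ := Pool.Agent.MP_99d1ae_lc.pump (Tr := M) (St := MSt) hM
    MSt.mono MSt.eff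
    (I := {(([Symbol.nonterminal S] : List (Symbol T N)) : Multiset (Symbol T N))})
    (Set.finite_singleton _)
    (fun k => (((w k).map Symbol.terminal : List (Symbol T N)) : Multiset _))
    (by
      intro k
      refine ⟨_, rfl, ?_⟩
      exact rtg_lift (fun x : List (Symbol T N) => (x : Multiset (Symbol T N)))
        (fun a b ⟨m, hm, hab⟩ => ⟨m, hm, MatStep.mst m a b hab⟩) ((hL _).mp (hw k)))
  refine ⟨i, j, hij, fun m => ?_⟩
  obtain ⟨c, rfl, hc⟩ := hm m
  have key : ∀ c', ReflTransGen (fun x y => ∃ t ∈ M, MSt t x y)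
      (([Symbol.nonterminal S] : List (Symbol T N)) : Multiset (Symbol T N)) c' →
      ∃ y : List (Symbol T N), ReflTransGen (fun x y => ∃ m ∈ M, MatStep m x y)
        [Symbol.nonterminal S] y ∧ (y : Multiset _) = c' := by
    intro c' hc'
    induction hc' with
    | refl => exact ⟨_, ReflTransGen.refl, rfl⟩
    | tail _ hs ih =>
      obtain ⟨y, h1, rfl⟩ := ih
      obtain ⟨t, ht, hs⟩ := hs
      obtain ⟨z, h2, h3⟩ := matStep_of_mst t _ _ hs
      exact ⟨z, h1.tail ⟨t, ht, h2⟩, h3⟩
  obtain ⟨y, h1, h2⟩ := key _ hc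
  obtain ⟨z, rfl, hz⟩ := pumped_word hv m h2
  exact ⟨z, (hL z).mpr h1, hz⟩

section triple

variable {T N Q : Type} (δ : Q → T → Q)

inductive Ann : Q → List (Symbol T (Q × N × Q)) → Q → Prop
  | nil (q : Q) : Ann q [] q
  | term {p q : Q} {t : T} {x : List (Symbol T (Q × N × Q))} :
      Ann (δ p t) x q → Ann p (Symbol.terminal t :: x) q
  | nt {p s q : Q} {A : N} {x : List (Symbol T (Q × N × Q))} :
      Ann s x q → Ann p (Symbol.nonterminal (p, A, s) :: x) q

variable {δ}

lemma Ann.append {p s q : Q} {x y : List (Symbol T (Q × N × Q))} (h1 : Ann δ p x s)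
    (h2 : Ann δ s y q) : Ann δ p (x ++ y) q := by
  induction h1 with
  | nil _ => exact h2
  | term _ ih => exact Ann.term (ih h2)
  | nt _ ih => exact Ann.nt (ih h2)

lemma Ann.split : ∀ {x y : List (Symbol T (Q × N × Q))} {p q : Q}, Ann δ p (x ++ y) q →
    ∃ s, Ann δ p x s ∧ Ann δ s y q
  | [], y, p, q, h => ⟨p, Ann.nil _, h⟩
  | a :: x, y, p, q, h => by
    cases h with
    | term h =>
      obtain ⟨s, h1, h2⟩ := Ann.split h
      exact ⟨s, Ann.term h1, h2⟩
    | nt h =>
      obtain ⟨s, h1, h2⟩ := Ann.split h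
      exact ⟨s, Ann.nt h1, h2⟩

lemma ann_terminal {w : List T} {p q : Q} :
    Ann (N := N) δ p (w.map Symbol.terminal) q ↔ w.foldl δ p = q := by
  induction w generalizing p with
  | nil =>
    constructor
    · intro h; cases h; rfl
    · rintro rfl; exact Ann.nil _
  | cons t w ih =>
    constructor
    · intro h
      cases h with
      | term h => exact ih.mp h
    · intro h
      exact Ann.term (ih.mpr h)

def er : Symbol T (Q × N × Q) → Symbol T N
  | Symbol.terminal t => Symbol.terminal t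
  | Symbol.nonterminal A => Symbol.nonterminal A.2.1

def erRule (r : ContextFreeRule T (Q × N × Q)) : ContextFreeRule T N :=
  ⟨r.input.2.1, r.output.map er⟩

def GoodRule (δ : Q → T → Q) (r : ContextFreeRule T (Q × N × Q)) : Prop :=
  Ann δ r.input.1 r.output r.input.2.2

lemma rewrites_down {r : ContextFreeRule T (Q × N × Q)} (hr : GoodRule δ r)
    {x y : List (Symbol T (Q × N × Q))} (h : r.Rewrites x y) {p q : Q} (hx : Ann δ p x q) :
    Ann δ p y q ∧ (erRule r).Rewrites (x.map er) (y.map er) := by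
  obtain ⟨u, v, rfl, rfl⟩ := h.exists_parts
  constructor
  · obtain ⟨s, h1, h2⟩ := hx.split
    obtain ⟨s', h3, h4⟩ := h1.split
    obtain ⟨⟨a, A, b⟩, out⟩ := r
    cases h4 with
    | nt h5 =>
      cases h5
      exact (h3.append hr).append h2
  · simp only [List.map_append]
    exact (erRule r).rewrites_of_exists_parts _ _

lemma matStep_down : ∀ (m : List (ContextFreeRule T (Q × N × Q))), (∀ r ∈ m, GoodRule δ r) →
    ∀ {x y : List (Symbol T (Q × N × Q))}, MatStep m x y → ∀ {p q : Q}, Ann δ p x q →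
      Ann δ p y q ∧ MatStep (m.map erRule) (x.map er) (y.map er)
  | [], _, x, y, h, p, q, hx => by
    have h' : x = y := h
    subst h'
    exact ⟨hx, rfl⟩
  | r :: m, hm, x, y, h, p, q, hx => by
    obtain ⟨z, h1, h2⟩ := h
    obtain ⟨h3, h4⟩ := rewrites_down (hm r List.mem_cons_self) h1 hx
    obtain ⟨h5, h6⟩ := matStep_down m (fun r hr => hm r (List.mem_cons_of_mem _ hr)) h2 h3
    exact ⟨h5, _, h4, h6⟩

lemma rewrites_up {r : ContextFreeRule T N} {x y : List (Symbol T N)} (h : r.Rewrites x y)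
    {y' : List (Symbol T (Q × N × Q))} (hy : y'.map er = y) {p q : Q} (ha : Ann δ p y' q) :
    ∃ r' x', GoodRule δ r' ∧ erRule r' = r ∧ x'.map er = x ∧ Ann δ p x' q ∧ r'.Rewrites x' y' := by
  obtain ⟨u, v, rfl, rfl⟩ := h.exists_parts
  obtain ⟨y1, v', rfl, h1, rfl⟩ := List.map_eq_append_iff.mp hy
  obtain ⟨u', o', rfl, rfl, h2⟩ := List.map_eq_append_iff.mp h1
  obtain ⟨s, h3, h4⟩ := ha.split
  obtain ⟨s', h5, h6⟩ := h3.split
  refine ⟨⟨(s', r.input, s), o'⟩, u' ++ [Symbol.nonterminal (s', r.input, s)] ++ v', h6, ?_, ?_, ?_,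
    ContextFreeRule.rewrites_of_exists_parts _ _ _⟩
  · cases r; simp only [erRule]; congr
  · simp [er]
  · exact (h5.append (Ann.nt (Ann.nil _))).append h4

lemma matStep_up : ∀ (m : List (ContextFreeRule T N)) {x y : List (Symbol T N)}, MatStep m x y →
    ∀ {y' : List (Symbol T (Q × N × Q))}, y'.map er = y → ∀ {p q : Q}, Ann δ p y' q →
      ∃ m' x', (∀ r ∈ m', GoodRule δ r) ∧ m'.map erRule = m ∧ x'.map er = x ∧ Ann δ p x' q ∧
        MatStep m' x' y'
  | [], x, y, h, y', hy, p, q, ha => by
    have h' : x = y := h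
    subst h'
    exact ⟨[], y', by simp, rfl, hy, ha, rfl⟩
  | r :: m, x, y, h, y', hy, p, q, ha => by
    obtain ⟨z, h1, h2⟩ := h
    obtain ⟨m', z', h3, h4, h5, h6, h7⟩ := matStep_up m h2 hy ha
    obtain ⟨r', x', h8, h9, h10, h11, h12⟩ := rewrites_up h1 h5 h6
    refine ⟨r' :: m', x', ?_, by simp [h4, h9], h10, h11, z', h12, h7⟩
    intro r'' hr''
    rcases List.mem_cons.mp hr'' with rfl | h
    · exact h8
    · exact h3 _ h

lemma finite_fiber_map {α β : Type} (f : α → β) (hf : ∀ b, {a | f a = b}.Finite) :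
    ∀ l : List β, {l' : List α | l'.map f = l}.Finite
  | [] => (Set.finite_singleton []).subset fun l' h => by simpa using h
  | b :: l => by
    refine ((hf b).image2 List.cons (finite_fiber_map f hf l)).subset fun l' h => ?_
    obtain ⟨a, l'', rfl, h1, h2⟩ := List.map_eq_cons_iff.mp h
    exact ⟨a, h1, l'', h2, rfl⟩

lemma map_er_terminal (w : List T) :
    (w.map (Symbol.terminal : T → Symbol T (Q × N × Q))).map er = w.map Symbol.terminal := by
  simp [List.map_map, Function.comp_def, er]

theorem IsMatrix.inter_dfa [Finite T] [Finite Q] {L : Language T} (h : IsMatrix L)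
    (δ : Q → T → Q) (q0 qf : Q) :
    IsMatrix ({w | w ∈ L ∧ w.foldl δ q0 = qf} : Language T) := by
  obtain ⟨N, hN, S, M, hM, hL⟩ := h
  refine ⟨Q × N × Q, inferInstance, (q0, S, qf),
    {m' | m'.map erRule ∈ M ∧ ∀ r ∈ m', GoodRule δ r}, ?_, fun w => ?_⟩
  · have : Finite (Symbol T (Q × N × Q)) := finite_symbol
    have h1 : ∀ r : ContextFreeRule T N,
        {r' : ContextFreeRule T (Q × N × Q) | erRule r' = r}.Finite := by
      intro r
      have h2 := finite_fiber_map (er : Symbol T (Q × N × Q) → Symbol T N)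
        (fun b => Set.toFinite _) r.output
      refine ((Set.finite_univ (α := Q × N × Q)).image2 ContextFreeRule.mk h2).subset ?_
      rintro r' rfl
      exact ⟨r'.input, Set.mem_univ _, r'.output, rfl, rfl⟩
    refine (hM.biUnion fun m _ => finite_fiber_map erRule h1 m).subset ?_
    rintro m' ⟨h2, _⟩
    exact Set.mem_biUnion h2 rfl
  · change (w ∈ L ∧ w.foldl δ q0 = qf) ↔ _
    rw [hL]
    constructor
    · rintro ⟨h1, h2⟩
      have key : ∀ x, ReflTransGen (fun x y => ∃ m ∈ M, MatStep m x y) x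
          (w.map Symbol.terminal) → ∃ x' : List (Symbol T (Q × N × Q)), x'.map er = x ∧
          Ann δ q0 x' qf ∧ ReflTransGen (fun x y => ∃ m ∈ {m' | List.map erRule m' ∈ M ∧
            ∀ r ∈ m', GoodRule δ r}, MatStep m x y) x' (w.map Symbol.terminal) := by
        intro x hx
        induction hx using ReflTransGen.head_induction_on with
        | refl => exact ⟨_, map_er_terminal w, ann_terminal.mpr h2, ReflTransGen.refl⟩
        | head hs _ ih =>
          obtain ⟨y', h3, h4, h5⟩ := ih
          obtain ⟨m, hm, hs⟩ := hs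
          obtain ⟨m', x', h6, h7, h8, h9, h10⟩ := matStep_up m hs h3 h4
          exact ⟨x', h8, h9, ReflTransGen.head ⟨m', ⟨h7 ▸ hm, h6⟩, h10⟩ h5⟩
      obtain ⟨x', h3, h4, h5⟩ := key _ h1
      obtain ⟨a, l, rfl, h6, h7⟩ := List.map_eq_cons_iff.mp h3
      have h8 : l = [] := by simpa using h7
      subst h8
      cases h4 with
      | term _ => simp [er] at h6
      | nt h9 =>
        cases h9
        simp only [er, Symbol.nonterminal.injEq] at h6
        subst h6
        exact h5
    · intro h1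
      have key : ∀ y, ReflTransGen (fun x y => ∃ m ∈ {m' | List.map erRule m' ∈ M ∧
            ∀ r ∈ m', GoodRule δ r}, MatStep m x y) [Symbol.nonterminal (q0, S, qf)] y →
          Ann δ q0 y qf ∧ ReflTransGen (fun x y => ∃ m ∈ M, MatStep m x y)
            [Symbol.nonterminal S] (y.map er) := by
        intro y hy
        induction hy with
        | refl => exact ⟨Ann.nt (Ann.nil _), ReflTransGen.refl⟩
        | tail _ hs ih =>
          obtain ⟨m', ⟨h2, h3⟩, hs⟩ := hs
          obtain ⟨h4, h5⟩ := matStep_down m' h3 hs ih.1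
          exact ⟨h4, ih.2.tail ⟨_, h2, h5⟩⟩
      obtain ⟨h2, h3⟩ := key _ h1
      rw [map_er_terminal] at h3
      exact ⟨h3, ann_terminal.mp h2⟩

end triple

end Pool.Agent.MP_99d1ae_lc
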