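import Mathlib
import Pool.Agent.MP_99d1ae_lc.PumpM
import Pool.Agent.MP_99d1ae_lc.MatToEM
import Pool.Agent.MP_99d1ae_lc.CounterSim
import Pool.Agent.MP_99d1ae_lc.CSDec
import Pool.Agent.MP_99d1ae_lc.CSWitness

set_option autoImplicit false

namespace Pool.Agent.MP_99d1ae_lc

open Relation

theorem wL_not_em1 : ¬ IsEM1 wL := by
  intro h
  choose z hz hc using wL_exists
  obtain ⟨i, j, hij, hm⟩ := h.pump z hz
  obtain ⟨y, hy, h1⟩ := hm 2
  have e1 := h1 1
  have e2 := h1 2
  rw [wL_count hy, wL_count (hz i), wL_count (hz j)] at e2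
  rw [hc, hc] at e1 e2
  obtain ⟨d, rfl⟩ := Nat.exists_eq_add_of_lt hij
  have e3 : y.count 1 = i + 1 + 2 * (d + 1) := by omega
  rw [e3] at e2
  nlinarith

theorem isMatrix_of_cf {T : Type} {L : Language T} (h : L.IsContextFree) : IsMatrix L := by
  obtain ⟨G, rfl⟩ := h
  set F : Set G.NT := (fun r => r.input) '' (G.rules : Set (ContextFreeRule T G.NT)) with hF
  have : Finite F := (G.rules.finite_toSet.image _).to_subtype
  let g := shrink F
  let mr : ContextFreeRule T G.NT → ContextFreeRule T (Option F) :=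
    fun r => ⟨g r.input, r.output.map (mapS g)⟩
  refine ⟨Option F, inferInstance, g G.initial, (fun r => [mr r]) '' G.rules,
    G.rules.finite_toSet.image _, fun w => ?_⟩
  change ReflTransGen G.Produces [Symbol.nonterminal G.initial] (w.map Symbol.terminal) ↔ _
  constructor
  · intro h
    have h1 := rtg_lift (p := fun x y => ∃ m ∈ (fun r => [mr r]) '' G.rules, MatStep m x y)
      (List.map (mapS g)) (by
        rintro x y ⟨r, hr, h2⟩
        obtain ⟨p, q, rfl, rfl⟩ := h2.exists_parts
        refine ⟨_, ⟨r, hr, rfl⟩, _, ?_, rfl⟩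
        simp only [List.map_append]
        exact (mr r).rewrites_of_exists_parts _ _) h
    rw [map_mapS_terminal] at h1
    exact h1
  · intro h
    have key : ∀ y', ReflTransGen (fun x y => ∃ m ∈ (fun r => [mr r]) '' G.rules, MatStep m x y)
        [Symbol.nonterminal (g G.initial)] y' → ∃ y, ReflTransGen G.Produces
          [Symbol.nonterminal G.initial] y ∧ y' = y.map (mapS g) := by
      intro y' hy'
      induction hy' with
      | refl => exact ⟨_, ReflTransGen.refl, rfl⟩
      | tail _ hs ih =>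
        obtain ⟨x, h1, rfl⟩ := ih
        obtain ⟨_, ⟨r, hr, rfl⟩, z, h2, h3⟩ := hs
        have h3' : z = _ := h3
        subst h3'
        obtain ⟨p', q', h4, rfl⟩ := h2.exists_parts
        obtain ⟨x1, q, rfl, h5, rfl⟩ := List.map_eq_append_iff.mp h4
        obtain ⟨p, b, rfl, rfl, h6⟩ := List.map_eq_append_iff.mp h5
        obtain ⟨a, l, rfl, h7, h8⟩ := List.map_eq_cons_iff.mp h6
        have h9 : l = [] := by simpa using h8
        subst h9
        cases a with
        | terminal s => simp [mapS] at h7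
        | nonterminal B =>
          have h10 : B = r.input :=
            shrink_inj (F := F) ⟨r, hr, rfl⟩ B (by simpa [mapS, mr] using h7)
          subst h10
          exact ⟨p ++ r.output ++ q, h1.tail ⟨r, hr, r.rewrites_of_exists_parts p q⟩, by simp [mr]⟩
    obtain ⟨y, h1, h2⟩ := key _ h
    rw [eq_of_map_mapS _ h2.symm] at h1
    exact h1

def dfa (q : Fin 4) (t : Fin 3) : Fin 4 :=
  if q = 0 ∧ t = 2 then 0 else if q = 0 ∧ t = 0 then 1 else if q = 1 ∧ t = 1 then 2 else 3

lemma dfa_dead (w : List (Fin 3)) : w.foldl dfa 3 = 3 := by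
  induction w with
  | nil => rfl
  | cons t w ih => simpa [dfa] using ih

lemma dfa_iff (w : List (Fin 3)) : w.foldl dfa 0 = 2 ↔ ∃ n, w = word n := by
  constructor
  · intro h
    induction w with
    | nil => simp at h
    | cons t w ih =>
      fin_cases t
      · cases w with
        | nil => simp [dfa] at h
        | cons s w =>
          fin_cases s
          · simp [dfa, dfa_dead] at h
          · cases w with
            | nil => exact ⟨0, rfl⟩
            | cons s w => simp [dfa, dfa_dead] at h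
          · simp [dfa, dfa_dead] at h
      · simp [dfa, dfa_dead] at h
      · obtain ⟨n, rfl⟩ := ih (by simpa [dfa] using h)
        exact ⟨n + 1, rfl⟩
  · rintro ⟨n, rfl⟩
    induction n with
    | zero => rfl
    | succ n ih => exact ih

lemma count_word (n : ℕ) : (word n).count 2 = n := by
  simp [word]

lemma word_primrec : Primrec word := by
  refine (Primrec.list_append.comp (Primrec.list_map Primrec.list_range
    (Primrec.const (2 : Fin 3)).to₂) (Primrec.const [0, 1])).of_eq fun n => ?_
  simp [word]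

lemma no_ap_squares {p d : ℕ} (hd : 0 < d) (h : ∀ m, ∃ t, p + m * d = t * t + t + t) : False := by
  obtain ⟨s, hs⟩ := h 0
  obtain ⟨t, ht⟩ := h (2 * (s + 1) + d + 1)
  have e1 : (t + 1) * (t + 1) = (s + 1 + d) * (s + 1 + d) + d := by nlinarith
  rcases Nat.lt_or_ge (s + 1 + d) (t + 1) with h1 | h1
  · nlinarith
  · nlinarith

open Nat.Partrec (Code) in
theorem exists_hard : ∃ L : Language (Fin 3), IsEM1 L ∧ ¬ IsMatrix L ∧
    ¬ ComputablePred fun w : List (Fin 3) => w ∈ L := by
  classical
  let g : ℕ → ℕ → ℕ := fun m k => if m.unpair.1 = m.unpair.2 ∧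
    (Code.evaln k (Denumerable.ofNat Code m.unpair.1) 0).isSome = true then 0 else 1
  have hg : Primrec₂ g := by
    refine Primrec.ite (PrimrecPred.and ?_ ?_) (Primrec.const 0) (Primrec.const 1)
    · exact Primrec.eq.comp (Primrec.fst.comp (Primrec.unpair.comp Primrec.fst))
        (Primrec.snd.comp (Primrec.unpair.comp Primrec.fst))
    · refine Primrec.eq.comp (Primrec.option_isSome.comp (Code.primrec_evaln.comp
        ((Primrec.snd.pair ((Primrec.ofNat Code).comp
          (Primrec.fst.comp (Primrec.unpair.comp Primrec.fst)))).pair (Primrec.const 0))))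
        (Primrec.const true)
  obtain ⟨L, h1, h2⟩ := exists_em1_coding hg
  have h3 : ∀ c : Code, word (Nat.pair (Encodable.encode c) (Encodable.encode c)) ∈ L ↔
      (c.eval 0).Dom := by
    intro c
    rw [h2, Part.dom_iff_mem]
    simp only [g, Nat.unpair_pair, Denumerable.ofNat_encode, true_and, ite_eq_left_iff,
      one_ne_zero, imp_false, not_not, Option.isSome_iff_exists, Code.evaln_complete]
    exact ⟨fun ⟨k, x, h⟩ => ⟨x, k, h⟩, fun ⟨x, k, h⟩ => ⟨k, x, h⟩⟩
  have h4 : ∀ n, word n ∈ L → ∃ t, n = t * t + t + t := by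
    intro n hn
    obtain ⟨k, hk⟩ := (h2 n).mp hn
    simp only [g, ite_eq_left_iff, one_ne_zero, imp_false, not_not] at hk
    refine ⟨n.unpair.1, ?_⟩
    have := Nat.pair_unpair n
    rw [← hk.1] at this
    simpa [Nat.pair] using this.symm
  refine ⟨L, h1, fun h => ?_, fun h => ?_⟩
  · let e : ℕ → ℕ := fun k => Nat.pair (Encodable.encode (Code.const k))
      (Encodable.encode (Code.const k))
    obtain ⟨i, j, hij, hm⟩ := (h.inter_dfa dfa 0 2).pump (fun k => word (e k)) (fun k =>
      ⟨(h3 _).mpr (by simp [Code.eval_const]), (dfa_iff _).mpr ⟨_, rfl⟩⟩)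
    have hne : e i ≠ e j := by
      intro h5
      have h6 := (Nat.pair_eq_pair.mp h5).1
      exact hij.ne (Code.const_inj (Encodable.encode_injective h6))
    have h5 : ∀ m, ∃ t, t * t + t + t + m * e i = e i + m * e j := by
      intro m
      obtain ⟨z, ⟨h6, h7⟩, h8⟩ := hm m
      obtain ⟨n, rfl⟩ := (dfa_iff _).mp h7
      obtain ⟨t, rfl⟩ := h4 n h6
      exact ⟨t, by simpa only [count_word] using h8 2⟩
    rcases Nat.lt_or_gt_of_ne hne with h6 | h6
    · obtain ⟨d, hd⟩ := Nat.exists_eq_add_of_lt h6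
      refine no_ap_squares (p := e i) (d := d + 1) (by omega) fun m => ?_
      obtain ⟨t, ht⟩ := h5 m
      exact ⟨t, by rw [hd] at ht; nlinarith⟩
    · obtain ⟨t, ht⟩ := h5 (e i + 1)
      nlinarith
  · apply ComputablePred.halting_problem 0
    have h5 : Computable fun c : Code =>
        word (Nat.pair (Encodable.encode c) (Encodable.encode c)) :=
      (word_primrec.comp (Primrec₂.natPair.comp Primrec.encode Primrec.encode)).to_comp
    exact (Computable.computablePred (h.decide.comp h5)).of_eq h3

theorem position :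
    (∀ (T : Type) (L : Language T), L.IsContextFree → IsMatrix L) ∧
    (∀ (T : Type) (L : Language T), IsMatrix L → IsEM1 L) ∧
    (∀ (k : ℕ) (L : Language (Fin k)), IsEM1 L → REPred fun w : List (Fin k) => w ∈ L) ∧
    (∃ L : Language (Fin 3), IsEM1 L ∧ ¬ IsMatrix L ∧ ¬ IsCS L ∧
      ¬ ComputablePred fun w : List (Fin 3) => w ∈ L) ∧
    (∃ L : Language (Fin 3), IsCS L ∧ (ComputablePred fun w : List (Fin 3) => w ∈ L) ∧
      (REPred fun w : List (Fin 3) => w ∈ L) ∧ ¬ IsEM1 L) := by
  refine ⟨fun _ _ => isMatrix_of_cf, fun _ _ => IsMatrix.isEM1, fun _ _ => IsEM1.re, ?_,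
    wL, wL_isCS, wL_isCS.computable, wL_isCS.computable.to_re, wL_not_em1⟩
  obtain ⟨L, h1, h2, h3⟩ := exists_hard
  exact ⟨L, h1, h2, fun h => h3 h.computable, h3⟩

end Pool.Agent.MP_99d1ae_lc
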