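import Pool.Agent.Mg.F99d1ae.Ga84006

/-! Oblivious simulation of counter machines by rewriting of leftmost occurrences. -/

set_option autoImplicit false

namespace Pool.Agent.MP_99d1ae_lc.Obl

open Relation

section control

variable {T N : Type}

theorem split_unique {α : Type} {a : α} : ∀ {u u' w w' : List α}, a ∉ u → a ∉ u' →
    u ++ a :: w = u' ++ a :: w' → u = u' ∧ w = w'
  | [], [], _, _, _, _, h => ⟨rfl, by simpa using h⟩
  | [], b :: u', _, _, _, h2, h => by simp_all
  | b :: u, [], _, _, h1, _, h => by simp_all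
  | b :: u, c :: u', _, _, h1, h2, h => by
    simp only [List.cons_append, List.cons.injEq, List.mem_cons, not_or] at h h1 h2
    obtain ⟨h3, h4⟩ := split_unique h1.2 h2.2 h.2
    exact ⟨by rw [h.1, h3], h4⟩

theorem LRw_det {A : N} {v x y y' : List (Symbol T N)} (h : LRw A v x y) (h' : LRw A v x y') :
    y = y' := by
  obtain ⟨u, w, h1, h2, rfl⟩ := h
  obtain ⟨u', w', h1', h2', rfl⟩ := h'
  rw [h2, List.append_assoc, List.append_assoc] at h2'
  obtain ⟨rfl, rfl⟩ := split_unique h1 h1' h2'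
  rfl

/-- A list of leftmost rewritings, applied one after the other. -/
def LRs : List (N × List (Symbol T N)) → List (Symbol T N) → List (Symbol T N) → Prop
  | [], x, y => x = y
  | s :: l, x, y => ∃ z, LRw s.1 s.2 x z ∧ LRs l z y

theorem LRs.det {l : List (N × List (Symbol T N))} {x y y' : List (Symbol T N)} (h : LRs l x y)
    (h' : LRs l x y') : y = y' := by
  induction l generalizing x with
  | nil => exact (show x = y from h).symm.trans h'
  | cons s l ih =>
    obtain ⟨z, h1, h2⟩ := h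
    obtain ⟨z', h1', h2'⟩ := h'
    exact ih h2 (LRw_det h1' h1 ▸ h2')

theorem LRs.append {l l' : List (N × List (Symbol T N))} {x y z : List (Symbol T N)}
    (h : LRs l x y) (h' : LRs l' y z) : LRs (l ++ l') x z := by
  induction l generalizing x with
  | nil => exact (show x = y from h) ▸ h'
  | cons s l ih =>
    obtain ⟨z', h1, h2⟩ := h
    exact ⟨z', h1, ih h2⟩

variable (P : ℕ → Set (List (N × List (Symbol T N)))) (Er : Set N) (x0 : List (Symbol T N))

/-- States: a phase and the rest of a list of the phase. -/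
abbrev Q (T N : Type) : Type := ℕ × List (N × List (Symbol T N))

def rules : Set (Q T N × N × List (Symbol T N) × Q T N) :=
  {r | (r.1.1 ≤ 2 ∧ (∃ l ∈ P r.1.1, r.1.2 <:+ l) ∧ r.1.2 = (r.2.1, r.2.2.1) :: r.2.2.2.2 ∧
    r.2.2.2.1 = r.1.1) ∨ (r.1 = (2, []) ∧ r.2.1 ∈ Er ∧ r.2.2.1 = [] ∧ r.2.2.2 = (2, []))}

def eps : Set (Q T N × Q T N) :=
  {e | e = ((0, []), (1, [])) ∨ (e.2.1 ≤ 2 ∧ e.2.2 ∈ P e.2.1 ∧ e.1 = (min e.2.1 1, []))}

theorem rules_finite (hP : ∀ i, (P i).Finite) (h : Er.Finite) : (rules P Er).Finite := by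
  refine Set.Finite.union ?_ ((h.image fun A => ((2, []), A, [], (2, []))).subset ?_)
  · refine Set.Finite.of_finite_image (f := fun r => r.1) (((Set.finite_le_nat 2).biUnion
      fun i _ => (hP i).biUnion fun l _ =>
        (l.tails.finite_toSet.image fun l => (i, l))).subset ?_) ?_
    · rintro _ ⟨r, ⟨h1, ⟨l, hl, h2⟩, -⟩, rfl⟩
      exact Set.mem_biUnion h1 (Set.mem_biUnion hl ⟨_, (List.mem_tails _ _).2 h2, rfl⟩)
    · rintro ⟨⟨a, b⟩, c, d, e, f⟩ ⟨-, -, h1, h2⟩ ⟨⟨a', b'⟩, c', d', e', f'⟩ ⟨-, -, h1', h2'⟩ h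
      simp_all
  · rintro ⟨a, b, c, d⟩ ⟨h1, h2, h3, h4⟩
    exact ⟨b, h2, by simp_all⟩

theorem eps_finite (hP : ∀ i, (P i).Finite) : (eps P).Finite := by
  refine Set.Finite.union (Set.finite_singleton _) (((Set.finite_le_nat 2).biUnion
    fun i _ => (hP i).image fun l => ((min i 1, []), (i, l))).subset ?_)
  rintro ⟨a, i, l⟩ ⟨h1, h2, h3⟩
  exact Set.mem_biUnion h1 ⟨l, h2, by simp_all⟩

def Era (x y : List (Symbol T N)) : Prop := ∃ A ∈ Er, LRw A [] x y

def St (i : ℕ) (x y : List (Symbol T N)) : Prop := ∃ l ∈ P i, LRs l x y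

def At : ℕ → List (Symbol T N) → Prop
  | 0, z => ReflTransGen (St P 0) x0 z
  | 1, z => ∃ x, ReflTransGen (St P 0) x0 x ∧ ReflTransGen (St P 1) x z
  | _, z => ∃ x x' x'', ReflTransGen (St P 0) x0 x ∧ ReflTransGen (St P 1) x x' ∧
      St P 2 x' x'' ∧ ReflTransGen (Era Er) x'' z

def Inv (c : Q T N × List (Symbol T N)) : Prop := c.1.1 ≤ 2 ∧
  ((c.1.2 = [] ∧ At P Er x0 c.1.1 c.2) ∨
    ∃ z pre, At P Er x0 (min c.1.1 1) z ∧ LRs pre z c.2 ∧ pre ++ c.1.2 ∈ P c.1.1)

variable {P Er x0}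

theorem Inv.at {i : ℕ} {x : List (Symbol T N)} (h : Inv P Er x0 ((i, []), x)) :
    At P Er x0 i x := by
  obtain ⟨hi, h | ⟨z, pre, h1, h2, h3⟩⟩ := h
  · exact h.2
  · simp only [List.append_nil] at h1 h2 h3 hi
    obtain rfl | rfl | rfl : i = 0 ∨ i = 1 ∨ i = 2 := by omega
    · exact .tail h1 ⟨_, h3, h2⟩
    · obtain ⟨y, h4, h5⟩ := h1
      exact ⟨y, h4, h5.tail ⟨_, h3, h2⟩⟩
    · obtain ⟨y, h4, h5⟩ := h1
      exact ⟨y, z, x, h4, h5, ⟨_, h3, h2⟩, .refl⟩

theorem Inv.step {c c' : Q T N × List (Symbol T N)} (h : Inv P Er x0 c)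
    (hs : CStep (rules P Er) (eps P) c c') : Inv P Er x0 c' := by
  obtain ⟨⟨i, l⟩, x⟩ := c
  obtain ⟨⟨i', l'⟩, x'⟩ := c'
  rcases hs with ⟨A, v, ⟨h1, -, h3, h4⟩ | ⟨h1, h2, h3, h4⟩, h5⟩ | ⟨h1, h2⟩
  · simp only at h1 h3 h4 h5
    subst h3 h4
    obtain ⟨-, h | ⟨z, pre, h6, h7, h8⟩⟩ := h
    · simp at h
    · exact ⟨h1, .inr ⟨z, pre ++ [(A, v)], h6, h7.append ⟨_, h5, rfl⟩, by simpa using h8⟩⟩
  · simp only [Prod.mk.injEq] at h1 h2 h3 h4 h5
    obtain ⟨rfl, rfl⟩ := h1
    obtain ⟨rfl, rfl⟩ := h4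
    subst h3
    obtain ⟨y, y', y'', h6, h7, h8, h9⟩ := h.at
    exact ⟨le_rfl, .inl ⟨rfl, y, y', y'', h6, h7, h8, h9.tail ⟨A, h2, h5⟩⟩⟩
  · simp only [eps, Set.mem_ofPred_eq, Prod.mk.injEq] at h1 h2
    subst h2
    rcases h1 with ⟨⟨rfl, rfl⟩, rfl, rfl⟩ | ⟨h1, h2, rfl, rfl⟩
    · exact ⟨by simp, .inl ⟨rfl, x, h.at, .refl⟩⟩
    · exact ⟨h1, .inr ⟨x, [], h.at, rfl, h2⟩⟩

theorem run_list {i : ℕ} (hi : i ≤ 2) {l l' : List (N × List (Symbol T N))} (hl' : l' ∈ P i)
    (hl : l <:+ l') {x y : List (Symbol T N)} (h : LRs l x y) :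
    ReflTransGen (CStep (rules P Er) (eps P)) ((i, l), x) ((i, []), y) := by
  induction l generalizing x with
  | nil => exact (show x = y from h) ▸ .refl
  | cons s l ih =>
    obtain ⟨z, h1, h2⟩ := h
    exact .head (b := ((i, l), z)) (.inl ⟨s.1, s.2, .inl ⟨hi, ⟨_, hl', hl⟩, rfl, rfl⟩, h1⟩)
      (ih ((List.suffix_cons _ _).trans hl) h2)

theorem run_st {i : ℕ} (hi : i ≤ 2) {x y : List (Symbol T N)} (h : St P i x y) :
    ReflTransGen (CStep (rules P Er) (eps P)) ((min i 1, []), x) ((i, []), y) := by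
  obtain ⟨l, h1, h2⟩ := h
  exact .head (b := ((i, l), x)) (.inr ⟨.inr ⟨hi, h1, rfl⟩, rfl⟩)
    (run_list hi h1 List.suffix_rfl h2)

theorem reach_iff {y : List (Symbol T N)} :
    ReflTransGen (CStep (rules P Er) (eps P)) ((0, []), x0) ((2, []), y) ↔ At P Er x0 2 y := by
  constructor
  · intro h
    have : ∀ c, ReflTransGen (CStep (rules P Er) (eps P)) ((0, []), x0) c → Inv P Er x0 c :=
      fun c hc => by
        induction hc with
        | refl => exact ⟨by simp, .inl ⟨rfl, ReflTransGen.refl⟩⟩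
        | tail _ h2 ih => exact ih.step h2
    exact (this _ h).at
  · rintro ⟨x, x', x'', h1, h2, h3, h4⟩
    refine .trans (rtg_lift' (fun z => ((0, []), z)) (fun a b hab => run_st (by simp) hab) h1)
      (.head (b := ((1, []), x)) (.inr ⟨.inl rfl, rfl⟩) ?_)
    refine .trans (rtg_lift' (fun z => ((1, []), z)) (fun a b hab => run_st (by simp) hab) h2) ?_
    refine (run_st le_rfl h3).trans (rtg_lift (fun z => ((2, []), z)) (fun a b hab => ?_) h4)
    obtain ⟨A, hA, hab⟩ := hab
    exact .inl ⟨A, [], .inr ⟨rfl, hA, rfl, rfl⟩, hab⟩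

theorem isEM1_at (hP : ∀ i, (P i).Finite) (h : Er.Finite) :
    IsEM1 ({w | At P Er x0 2 (w.map Symbol.terminal)} : Language T) := by
  have := isEM1_of_clg (rules_finite P Er hP h) (eps_finite P hP) (0, []) (2, []) x0
  simpa only [reach_iff] using this

open Classical in
/-- The symbols which are not erased. -/
noncomputable def keep (Er : Set N) (z : List (Symbol T N)) : List (Symbol T N) :=
  z.filter fun s => ∀ A ∈ Er, s ≠ .nonterminal A

theorem keep_append (x y : List (Symbol T N)) : keep Er (x ++ y) = keep Er x ++ keep Er y :=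
  List.filter_append _ _

open Classical in
theorem keep_self {x : List (Symbol T N)} (h : ∀ A ∈ Er, .nonterminal A ∉ x) : keep Er x = x :=
  List.filter_eq_self.2 fun _ hs => decide_eq_true fun A hA e => h A hA (e ▸ hs)

open Classical in
theorem keep_nil {x : List (Symbol T N)} (h : ∀ s ∈ x, ∃ A ∈ Er, s = .nonterminal A) :
    keep Er x = [] :=
  List.filter_eq_nil_iff.2 fun s hs e => (h s hs).elim fun A hA => of_decide_eq_true e A hA.1 hA.2

theorem era_all (z p : List (Symbol T N)) (hp : ∀ A ∈ Er, .nonterminal A ∉ p) :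
    ReflTransGen (Era Er) (p ++ z) (p ++ keep Er z) := by
  induction z generalizing p with
  | nil => exact .refl
  | cons s z ih =>
    rw [← List.singleton_append, keep_append]
    by_cases h : ∃ A ∈ Er, s = .nonterminal A
    · rw [keep_nil (by simpa using h)]
      obtain ⟨A, hA, rfl⟩ := h
      exact .head ⟨A, hA, p, z, hp A hA, by simp, by simp⟩ (ih p hp)
    · rw [keep_self fun A hA e => h ⟨A, hA, (List.mem_singleton.1 e).symm⟩, ← List.append_assoc,
        ← List.append_assoc]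
      exact ih _ fun A hA e => (List.mem_append.1 e).elim (hp A hA)
        fun e => h ⟨A, hA, (List.mem_singleton.1 e).symm⟩

theorem era_iff {z : List (Symbol T N)} {w : List T} :
    ReflTransGen (Era Er) z (w.map .terminal) ↔ keep Er z = w.map .terminal := by
  refine ⟨fun h => ?_, fun h => h ▸ era_all z [] (by simp)⟩
  induction h using ReflTransGen.head_induction_on with
  | refl => exact keep_self (by simp)
  | head h _ ih =>
    obtain ⟨A, hA, u, v, -, rfl, rfl⟩ := h
    rw [← ih, keep_append, keep_append, keep_append, keep_append,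
      keep_nil (x := [_]) (by simpa using hA), keep_nil (x := []) (by simp)]

end control

/-- Nonterminals: generator, holder, test symbol, clock, output, work symbols. -/
inductive Nm (W : Type)
  | G | H | U | D | Y
  | w (a : W)

section gadget

variable {T W : Type}

abbrev Sy (T W : Type) : Type := Symbol T (Nm W)

def wk (T : Type) {W : Type} (l : List W) : List (Sy T W) := l.map fun a => .nonterminal (.w a)

theorem wk_append (l l' : List W) : wk T (l ++ l') = wk T l ++ wk T l' := List.map_append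

theorem wk_cons (a : W) (l : List W) : wk T (a :: l) = .nonterminal (.w a) :: wk T l := rfl

theorem mem_wk {A : Nm W} {l : List W} : Symbol.nonterminal A ∈ wk T l ↔ ∃ a ∈ l, A = .w a := by
  simp [wk, eq_comm]

/-- The test: the leftmost `C` is on the left of the holder, or the holder moves over `Z`. -/
def gad (C : W) (Y : List W) (Z : List (Sy T W)) : List (Nm W × List (Sy T W)) :=
  [(.H, .nonterminal .U :: Z ++ [.nonterminal (.w C)]), (.w C, .nonterminal .U :: wk T Y),
    (.U, []), (.U, [.nonterminal .H])]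

/-- Prefixes without holder, test symbol and work symbols. -/
def Pre (p : List (Sy T W)) : Prop :=
  ∀ A, Symbol.nonterminal A ∈ p → A = .G ∨ A = .D

theorem gad_pos {p : List (Sy T W)} (hp : Pre p) {C : W} {u : List W} (hu : C ∉ u) (u' Y : List W)
    (Z w : List (Sy T W)) : LRs (gad C Y Z) (p ++ wk T (u ++ C :: u') ++ .nonterminal .H :: w)
      (p ++ wk T (u ++ Y ++ u') ++ .nonterminal .H :: (Z ++ .nonterminal (.w C) :: w)) := by
  have e : ∀ A l, (∀ a ∈ l, A ≠ .w a) → A ≠ .G → A ≠ .D → Symbol.nonterminal A ∉ p ++ wk T l :=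
    fun A l h1 h2 h3 h => by
      rcases List.mem_append.1 h with h | h
      · exact (hp A h).elim h2 h3
      · obtain ⟨a, ha, e⟩ := mem_wk.1 h
        exact h1 a ha e
  refine ⟨_, ⟨p ++ wk T (u ++ C :: u'), w, e _ _ (by simp) (by simp) (by simp), by simp, rfl⟩,
    _, ⟨p ++ wk T u, wk T u' ++ .nonterminal .U :: (Z ++ .nonterminal (.w C) :: w),
      e _ _ (fun a ha h => hu (by cases h; exact ha)) (by simp) (by simp),
      by simp [wk_append, wk_cons], rfl⟩,
    _, ⟨p ++ wk T u, wk T Y ++ wk T u' ++ .nonterminal .U :: (Z ++ .nonterminal (.w C) :: w),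
      e _ _ (by simp) (by simp) (by simp), by simp, rfl⟩,
    _, ⟨p ++ wk T (u ++ Y ++ u'), Z ++ .nonterminal (.w C) :: w,
      e _ _ (by simp) (by simp) (by simp), by simp [wk_append], rfl⟩, by simp [LRs]⟩

theorem gad_zero {p : List (Sy T W)} (hp : Pre p) {C : W} {u : List W} (hu : C ∉ u) (Y : List W)
    {Z : List (Sy T W)} (h1 : .nonterminal (.w C) ∉ Z) (h2 : .nonterminal .U ∉ Z)
    (w : List (Sy T W)) : LRs (gad C Y Z) (p ++ wk T u ++ .nonterminal .H :: w)
      (p ++ wk T u ++ Z ++ .nonterminal .H :: (wk T Y ++ w)) := by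
  have e : ∀ A l, (∀ a ∈ l, A ≠ .w a) → A ≠ .G → A ≠ .D → Symbol.nonterminal A ∉ p ++ wk T l :=
    fun A l h1 h2 h3 h => by
      rcases List.mem_append.1 h with h | h
      · exact (hp A h).elim h2 h3
      · obtain ⟨a, ha, e⟩ := mem_wk.1 h
        exact h1 a ha e
  have e1 := e (.w C) u (fun a ha h => hu (by cases h; exact ha)) (by simp) (by simp)
  have e2 := e .U u (by simp) (by simp) (by simp)
  refine ⟨_, ⟨p ++ wk T u, w, e _ _ (by simp) (by simp) (by simp), by simp, rfl⟩,
    _, ⟨p ++ wk T u ++ .nonterminal .U :: Z, w, by simp_all, by simp, rfl⟩,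
    _, ⟨p ++ wk T u, Z ++ .nonterminal .U :: (wk T Y ++ w), e2, by simp, rfl⟩,
    _, ⟨p ++ wk T u ++ Z, wk T Y ++ w, by simp_all, by simp, rfl⟩, by simp [LRs]⟩

variable [DecidableEq W]

/-- The effect of a test on the numbers of symbols on the left of the holder. -/
def bop (c : W → ℕ) (o : W × List W × List W) : W → ℕ := fun a =>
  if c o.1 = 0 then c a + o.2.2.count a else c a - (if a = o.1 then 1 else 0) + o.2.1.count a

def Cf (p : List (Sy T W)) (c : W → ℕ) (x : List (Sy T W)) : Prop :=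
  ∃ u w, x = p ++ wk T u ++ .nonterminal .H :: wk T w ∧ ∀ a, u.count a = c a

theorem Cf.bop {p x : List (Sy T W)} (hp : Pre p) {c : W → ℕ} (h : Cf p c x)
    (o : W × List W × List W) (ho : o.1 ∉ o.2.2) :
    ∃ y, LRs (gad o.1 o.2.1 (wk T o.2.2)) x y ∧ Cf p (bop c o) y := by
  obtain ⟨C, Y, Z⟩ := o
  obtain ⟨u, w, rfl, hc⟩ := h
  by_cases h0 : c C = 0
  · refine ⟨_, gad_zero hp (List.count_eq_zero.1 (by rw [hc, h0])) Y
      (fun h => ?_) (by simp [mem_wk]) _, u ++ Z, Y ++ w, by simp [wk_append], fun a => ?_⟩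
    · obtain ⟨a, ha, e⟩ := mem_wk.1 h
      cases e
      exact ho ha
    · simp [Obl.bop, h0, hc]
  · obtain ⟨u1, u2, rfl, h1⟩ := List.eq_append_cons_of_mem (List.count_pos_iff.1
      (by rw [hc]; omega) : C ∈ u)
    refine ⟨_, gad_pos hp h1 u2 Y _ _, u1 ++ Y ++ u2, Z ++ C :: w, by simp [wk_append, wk_cons],
      fun a => ?_⟩
    have := hc a
    simp only [List.count_append, List.count_cons, beq_iff_eq] at this ⊢
    simp only [Obl.bop, h0, if_false, eq_comm (a := a)]
    split_ifs at this ⊢ <;> omega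

theorem Cf.prog {p : List (Sy T W)} (hp : Pre p) (l : List (W × List W × List W))
    (hl : ∀ o ∈ l, o.1 ∉ o.2.2) {c : W → ℕ} {x : List (Sy T W)} (h : Cf p c x) :
    ∃ y, LRs (l.flatMap fun o => gad o.1 o.2.1 (wk T o.2.2)) x y ∧ Cf p (l.foldl Obl.bop c) y := by
  induction l generalizing c x with
  | nil => exact ⟨x, rfl, h⟩
  | cons o l ih =>
    obtain ⟨y, h1, h2⟩ := h.bop hp o (hl o (by simp))
    obtain ⟨z, h3, h4⟩ := ih (fun o ho => hl o (by simp [ho])) h2
    exact ⟨z, h1.append h3, h4⟩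

end gadget

section prog

/-- Counters and mismatch symbols. -/
inductive Wk (ι : Type)
  | inl (i : ι)
  | inr (π : ι → Bool)

noncomputable instance (ι : Type) : DecidableEq (Wk ι) := Classical.decEq _

variable {ι : Type} [Fintype ι] [DecidableEq ι]

def emb (x : ι → ℕ) : Wk ι → ℕ
  | .inl i => x i
  | .inr _ => 0

noncomputable def Xs (i : ι) (b : Bool) : List (Wk ι) :=
  ((Finset.univ.filter fun π : ι → Bool => π i = b).toList).map Wk.inr

theorem Xs_inl (i j : ι) (b : Bool) : (Xs i b).count (.inl j) = 0 := by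
  simp [Xs, List.count_eq_zero]

theorem Xs_inr (i : ι) (b : Bool) (π : ι → Bool) :
    (Xs i b).count (.inr π) = if π i = b then 1 else 0 := by
  rw [Xs, List.count_map_of_injective _ _ (fun _ _ => Wk.inr.inj)]
  split_ifs with h
  · exact List.count_eq_one_of_mem (Finset.nodup_toList _) (by simp [h])
  · exact List.count_eq_zero.2 (by simp [h])

noncomputable def tok (v : ι → ℕ) : List (Wk ι) :=
  (∑ i, Multiset.replicate (v i) (Wk.inl i : Wk ι)).toList

theorem tok_inl (v : ι → ℕ) (i : ι) : (tok v).count (.inl i) = v i := by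
  rw [tok, ← Multiset.coe_count, Multiset.coe_toList, Multiset.count_sum']
  simp [Multiset.count_replicate]

omit [DecidableEq ι] in
theorem tok_inr (v : ι → ℕ) (π : ι → Bool) : (tok v).count (.inr π) = 0 := by
  rw [tok, ← Multiset.coe_count, Multiset.coe_toList, Multiset.count_sum']
  simp [Multiset.count_replicate]

noncomputable def opA (i : ι) : Wk ι × List (Wk ι) × List (Wk ι) := (.inl i, Xs i true, Xs i false)

theorem foldA (l : List ι) (hl : l.Nodup) (c : Wk ι → ℕ) :
    (∀ i, (l.map opA).foldl bop c (.inl i) = if i ∈ l then c (.inl i) - 1 else c (.inl i)) ∧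
    ∀ π, (l.map opA).foldl bop c (.inr π) =
      c (.inr π) + l.countP fun i => π i ≠ decide (c (.inl i) = 0) := by
  induction l generalizing c with
  | nil => simp
  | cons j l ih =>
    rw [List.nodup_cons] at hl
    have e1 : ∀ i, bop c (opA j) (.inl i) = if i = j then c (.inl i) - 1 else c (.inl i) :=
      fun i => by
        simp only [bop, opA, Xs_inl, Wk.inl.injEq]
        split_ifs <;> simp_all
    have e2 : ∀ π, bop c (opA j) (.inr π) =
        c (.inr π) + if π j ≠ decide (c (.inl j) = 0) then 1 else 0 := fun π => by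
      simp only [bop, opA, Xs_inr]
      split_ifs <;> simp_all
    obtain ⟨h1, h2⟩ := ih hl.2 (bop c (opA j))
    refine ⟨fun i => ?_, fun π => ?_⟩
    · rw [List.map_cons, List.foldl_cons, h1, e1]
      by_cases h : i = j
      · simp [h, hl.1]
      · simp [h]
    · rw [List.map_cons, List.foldl_cons, h2, e2, List.countP_cons,
        List.countP_congr (q := fun i => π i ≠ decide (c (.inl i) = 0)) fun i hi => by
          rw [e1, if_neg fun e : i = j => hl.1 (e ▸ hi)]]
      simp only [decide_eq_true_eq]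
      omega

theorem fold_rep {W : Type} [DecidableEq W] (C : W) (r : ℕ) (c : W → ℕ) (a : W) :
    (List.replicate r (C, [], [])).foldl bop c a = c a - if a = C then r else 0 := by
  induction r generalizing c with
  | zero => simp
  | succ r ih =>
    rw [List.replicate_succ, List.foldl_cons, ih]
    simp only [bop, List.count_nil]
    split_ifs <;> simp_all
    omega

noncomputable def opB (g : (ι → Bool) → ι → ℕ) (π : ι → Bool) :
    List (Wk ι × List (Wk ι) × List (Wk ι)) :=
  (.inr π, [], tok (g π)) :: List.replicate (Fintype.card ι) (.inr π, [], [])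

theorem foldB (g : (ι → Bool) → ι → ℕ) (l : List (ι → Bool)) (hl : l.Nodup) (c : Wk ι → ℕ)
    (π₀ : ι → Bool) (h0 : ∀ π ∈ l, (c (.inr π) = 0 ↔ π = π₀) ∧ c (.inr π) ≤ Fintype.card ι) :
    (∀ i, (l.flatMap (opB g)).foldl bop c (.inl i) =
      c (.inl i) + if π₀ ∈ l then g π₀ i else 0) ∧
    ∀ π, (l.flatMap (opB g)).foldl bop c (.inr π) = if π ∈ l then 0 else c (.inr π) := by
  induction l generalizing c with
  | nil => simp
  | cons ρ l ih =>
    rw [List.nodup_cons] at hl
    obtain ⟨h1, h2⟩ := h0 ρ (by simp)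
    have e1 : ∀ i, (opB g ρ).foldl bop c (.inl i) =
        c (.inl i) + if ρ = π₀ then g π₀ i else 0 := fun i => by
      simp only [opB, List.foldl_cons, fold_rep, bop, tok_inl, h1]
      split_ifs <;> simp_all
    have e2 : ∀ π, (opB g ρ).foldl bop c (.inr π) = if π = ρ then 0 else c (.inr π) :=
      fun π => by
        simp only [opB, List.foldl_cons, fold_rep, bop, tok_inr, Wk.inr.injEq, List.count_nil]
        split_ifs <;> simp_all
        omega
    obtain ⟨h3, h4⟩ := ih hl.2 ((opB g ρ).foldl bop c) fun π hπ => by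
      rw [e2, if_neg fun e : π = ρ => hl.1 (e ▸ hπ)]
      exact h0 π (by simp [hπ])
    refine ⟨fun i => ?_, fun π => ?_⟩
    · rw [List.flatMap_cons, List.foldl_append, h3, e1]
      by_cases h : ρ = π₀
      · subst h; simp [hl.1]
      · simp [h, Ne.symm h]
    · rw [List.flatMap_cons, List.foldl_append, h4, e2]
      by_cases h : π = ρ <;> simp [h]

/-- One step of the counter machine. -/
def stp (g : (ι → Bool) → ι → ℕ) (x : ι → ℕ) : ι → ℕ :=
  fun i => x i - 1 + g (fun j => decide (x j = 0)) i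

noncomputable def prog (g : (ι → Bool) → ι → ℕ) : List (Wk ι × List (Wk ι) × List (Wk ι)) :=
  Finset.univ.toList.map opA ++ Finset.univ.toList.flatMap (opB g)

theorem prog_ok (g : (ι → Bool) → ι → ℕ) : ∀ o ∈ prog g, o.1 ∉ o.2.2 := by
  intro o ho
  simp only [prog, opA, opB, List.mem_append, List.mem_map, List.mem_flatMap, List.mem_cons,
    List.mem_replicate] at ho
  rcases ho with ⟨i, -, rfl⟩ | ⟨π, -, rfl | ⟨-, rfl⟩⟩
  · exact List.count_eq_zero.1 (Xs_inl _ _ _)
  · exact List.count_eq_zero.1 (tok_inr _ _)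
  · simp

theorem fold_prog (g : (ι → Bool) → ι → ℕ) (x : ι → ℕ) :
    (prog g).foldl bop (emb x) = emb (stp g x) := by
  obtain ⟨h1, h2⟩ := foldA (Finset.univ : Finset ι).toList (Finset.nodup_toList _) (emb x)
  obtain ⟨h3, h4⟩ := foldB g Finset.univ.toList (Finset.nodup_toList _)
    (((Finset.univ : Finset ι).toList.map opA).foldl bop (emb x))
    (fun j => decide (x j = 0)) fun π _ => by
      rw [h2]
      refine ⟨?_, by simpa [emb] using List.countP_le_length (l := (Finset.univ : Finset ι).toList)⟩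
      simp [List.countP_eq_zero, funext_iff, emb]
      exact Iff.rfl
  funext a
  rw [prog, List.foldl_append]
  cases a with
  | inl i => rw [h3, h1]; simp [stp, emb]
  | inr π => rw [h4]; simp [emb]

end prog

section main

variable {T ι : Type} [Fintype ι] [DecidableEq ι]

noncomputable def pr (T : Type) (g : (ι → Bool) → ι → ℕ) : List (Nm (Wk ι) × List (Sy T (Wk ι))) :=
  (prog g).flatMap fun o => gad o.1 o.2.1 (wk T o.2.2)

theorem pr_step {p x : List (Sy T (Wk ι))} (hp : Pre p) (g : (ι → Bool) → ι → ℕ) {c : ι → ℕ}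
    (h : Cf p (emb c) x) : ∃ y, LRs (pr T g) x y ∧ Cf p (emb (stp g c)) y :=
  fold_prog g c ▸ Cf.prog hp (prog g) (prog_ok g) h

/-- The word read so far, the generator and the clock. -/
def pre (W : Type) (w : List T) (j : ℕ) : List (Sy T W) :=
  w.map .terminal ++ .nonterminal .G :: List.replicate j (.nonterminal .D)

theorem pre_pre {W : Type} (w : List T) (j : ℕ) : Pre (pre W w j) := by
  intro A hA
  simp only [pre, List.mem_append, List.mem_map, List.mem_cons, List.mem_replicate] at hA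
  rcases hA with ⟨_, -, h⟩ | h | ⟨-, h⟩ <;> cases h <;> simp

noncomputable def rd (g : (ι → Bool) → ι → ℕ) (K : ℕ) (s : List T) :
    List (Nm (Wk ι) × List (Sy T (Wk ι))) := (.G, pre _ s K) :: pr T g

theorem rd_step (g : (ι → Bool) → ι → ℕ) (K : ℕ) (s : List T) {w : List T} {j : ℕ} {c : ι → ℕ}
    {x : List (Sy T (Wk ι))} (h : Cf (pre _ w j) (emb c) x) :
    ∃ y, LRs (rd g K s) x y ∧ Cf (pre _ (w ++ s) (j + K)) (emb (stp g c)) y := by
  obtain ⟨u, v, rfl, hc⟩ := h
  obtain ⟨y, h1, h2⟩ := pr_step (pre_pre (w ++ s) (j + K)) g ⟨u, v, rfl, hc⟩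
  refine ⟨y, ⟨_, ⟨w.map .terminal, List.replicate j (.nonterminal .D) ++ wk T u ++
    .nonterminal .H :: wk T v, by simp, by simp [pre], ?_⟩, h1⟩, h2⟩
  rw [Nat.add_comm j K]
  simp [pre, List.replicate_add, -List.replicate_append_replicate]

noncomputable def post (T : Type) (g : (ι → Bool) → ι → ℕ) :
    List (Nm (Wk ι) × List (Sy T (Wk ι))) := (.D, []) :: pr T g

theorem post_step (g : (ι → Bool) → ι → ℕ) {w : List T} {j : ℕ} {c : ι → ℕ}
    {x : List (Sy T (Wk ι))} (h : Cf (pre _ w (j + 1)) (emb c) x) :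
    ∃ y, LRs (post T g) x y ∧ Cf (pre _ w j) (emb (stp g c)) y := by
  obtain ⟨u, v, rfl, hc⟩ := h
  obtain ⟨y, h1, h2⟩ := pr_step (pre_pre w j) g ⟨u, v, rfl, hc⟩
  exact ⟨y, ⟨_, ⟨w.map .terminal ++ [.nonterminal .G], List.replicate j (.nonterminal .D) ++
    wk T u ++ .nonterminal .H :: wk T v, by simp, by simp [pre, List.replicate_succ],
    by simp [pre]⟩, h1⟩, h2⟩

theorem post_zero (g : (ι → Bool) → ι → ℕ) {w : List T} {c : Wk ι → ℕ}
    {x y : List (Sy T (Wk ι))} (h : Cf (pre _ w 0) c x) : ¬ LRs (post T g) x y := by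
  obtain ⟨u, v, rfl, -⟩ := h
  rintro ⟨z, ⟨a, b, -, h, -⟩, -⟩
  have : Symbol.nonterminal Nm.D ∈ pre (Wk ι) w 0 ++ wk T u ++ .nonterminal .H :: wk T v := by
    rw [h]; simp
  simp [pre, mem_wk] at this

def fin {W : Type} (C : W) (p q : T) : List (Nm W × List (Sy T W)) :=
  gad C [] [.nonterminal .Y] ++ [(.Y, [.terminal p]), (.H, [.terminal q])]

theorem fin_step {W : Type} [DecidableEq W] (C : W) (p q : T) {r x : List (Sy T W)} (hr : Pre r)
    {c : W → ℕ} (h : Cf r c x) : ∃ u v, LRs (fin C p q) x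
      (r ++ wk T u ++ (if c C = 0 then [p, q] else [q, p]).map .terminal ++ wk T v) := by
  obtain ⟨u, v, rfl, hc⟩ := h
  have e : ∀ A l, (∀ a, A ≠ .w a) → A ≠ .G → A ≠ .D → Symbol.nonterminal A ∉ r ++ wk T l :=
    fun A l h1 h2 h3 h => by
      rcases List.mem_append.1 h with h | h
      · exact (hr A h).elim h2 h3
      · obtain ⟨a, -, e⟩ := mem_wk.1 h
        exact h1 a e
  split_ifs with h0
  · have e1 := e .H u (by simp) (by simp) (by simp)
    refine ⟨u, v, (gad_zero hr (List.count_eq_zero.1 (by rw [hc, h0])) [] (by simp) (by simp)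
      _).append ⟨_, ⟨r ++ wk T u, .nonterminal .H :: wk T v, e _ _ (by simp) (by simp) (by simp),
        by simp [wk], rfl⟩, _, ⟨r ++ wk T u ++ [.terminal p], wk T v, by simp_all, by simp, rfl⟩,
        by simp [LRs]⟩⟩
  · obtain ⟨u1, u2, rfl, h1⟩ := List.eq_append_cons_of_mem (List.count_pos_iff.1
      (by rw [hc]; omega) : C ∈ u)
    have e1 := e .Y (u1 ++ [] ++ u2) (by simp) (by simp) (by simp)
    exact ⟨u1 ++ [] ++ u2, C :: v, (gad_pos hr h1 u2 [] _ _).append
      ⟨_, ⟨r ++ wk T (u1 ++ [] ++ u2) ++ [.nonterminal .H], wk T (C :: v), by simp_all,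
        by simp [wk_cons], rfl⟩, _, ⟨r ++ wk T (u1 ++ [] ++ u2), .terminal p :: wk T (C :: v),
        e _ _ (by simp) (by simp) (by simp), by simp, rfl⟩, by simp [LRs]⟩⟩

def Ers (W : Type) : Set (Nm W) := insert .G (Set.range .w)

theorem keep_fin {W : Type} (w t : List T) (j : ℕ) (u v : List W) :
    keep (Ers W) (pre W w j ++ wk T u ++ t.map .terminal ++ wk T v) =
      w.map .terminal ++ List.replicate j (.nonterminal .D) ++ t.map .terminal := by
  have e : ∀ l : List W, keep (Ers W) (wk T l) = [] := fun l => keep_nil fun s hs => by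
    obtain ⟨a, -, rfl⟩ := List.mem_map.1 hs
    exact ⟨_, .inr ⟨a, rfl⟩, rfl⟩
  rw [pre, ← List.singleton_append, keep_append, keep_append, keep_append, keep_append,
    keep_append, e, e, keep_self (x := w.map _) (by simp), keep_self (x := t.map _) (by simp),
    keep_nil (x := [_]) (by simp [Ers]), keep_self (by simp [Ers, List.mem_replicate])]
  simp

variable {S : Type} (I : S → List T) (p q : T) (g : Option S → (ι → Bool) → ι → ℕ) (a : ι → ℕ)
  (K : ℕ) (i₀ : ι)

def PP : ℕ → Set (List (Nm (Wk ι) × List (Sy T (Wk ι))))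
  | 0 => Set.range fun s => rd (g (some s)) K (I s)
  | 1 => {post T (g none)}
  | _ => {fin (.inl i₀) p q}

noncomputable def x₀ (T : Type) (a : ι → ℕ) : List (Sy T (Wk ι)) :=
  pre _ [] 0 ++ wk T (tok a) ++ .nonterminal .H :: wk T []

theorem cf₀ : Cf (pre _ [] 0) (emb a) (x₀ T a) :=
  ⟨_, _, rfl, fun c => by cases c <;> simp [tok_inl, tok_inr, emb]⟩

theorem sound0 {x : List (Sy T (Wk ι))} (h : ReflTransGen (St (PP I p q g K i₀) 0) (x₀ T a) x) :
    ∃ w : List S, Cf (pre _ (w.flatMap I) (K * w.length))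
      (emb (w.foldl (fun c s => stp (g (some s)) c) a)) x := by
  induction h with
  | refl => exact ⟨[], cf₀ a⟩
  | tail _ h ih =>
    obtain ⟨w, h2⟩ := ih
    obtain ⟨_, ⟨s, rfl⟩, h⟩ := h
    obtain ⟨y, h3, h4⟩ := rd_step (g (some s)) K (I s) h2
    exact ⟨w ++ [s], by simpa [Nat.mul_succ, h.det h3] using h4⟩

theorem compl0 (w : List S) :
    ∃ x, ReflTransGen (St (PP I p q g K i₀) 0) (x₀ T a) x ∧ Cf (pre _ (w.flatMap I) (K * w.length))
      (emb (w.foldl (fun c s => stp (g (some s)) c) a)) x := by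
  induction w using List.reverseRecOn with
  | nil => exact ⟨_, .refl, cf₀ a⟩
  | append_singleton w s ih =>
    obtain ⟨x, h1, h2⟩ := ih
    obtain ⟨y, h3, h4⟩ := rd_step (g (some s)) K (I s) h2
    exact ⟨y, h1.tail ⟨_, ⟨s, rfl⟩, h3⟩, by simpa [Nat.mul_succ] using h4⟩

theorem sound1 {w : List T} {j : ℕ} {c : ι → ℕ} {x y : List (Sy T (Wk ι))}
    (hx : Cf (pre _ w j) (emb c) x) (h : ReflTransGen (St (PP I p q g K i₀) 1) x y) :
    ∃ s j', j' + s = j ∧ Cf (pre _ w j') (emb ((stp (g none))^[s] c)) y := by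
  induction h with
  | refl => exact ⟨0, j, rfl, hx⟩
  | tail _ h ih =>
    obtain ⟨s, j', h1, h2⟩ := ih
    obtain ⟨_, rfl, h⟩ := h
    cases j' with
    | zero => exact (post_zero _ h2 h).elim
    | succ j' =>
      obtain ⟨y, h3, h4⟩ := post_step (g none) h2
      exact ⟨s + 1, j', by omega, by rwa [h.det h3, Function.iterate_succ_apply']⟩

theorem compl1 {w : List T} (s : ℕ) {c : ι → ℕ} {x : List (Sy T (Wk ι))}
    (hx : Cf (pre _ w s) (emb c) x) : ∃ y, ReflTransGen (St (PP I p q g K i₀) 1) x y ∧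
      Cf (pre _ w 0) (emb ((stp (g none))^[s] c)) y := by
  induction s generalizing c x with
  | zero => exact ⟨x, .refl, hx⟩
  | succ s ih =>
    obtain ⟨y, h1, h2⟩ := post_step (g none) hx
    obtain ⟨z, h3, h4⟩ := ih h2
    exact ⟨z, .head ⟨_, rfl, h1⟩ h3, h4⟩

theorem at_iff (u : List T) :
    At (PP I p q g K i₀) (Ers _) (x₀ T a) 2 (u.map .terminal) ↔ ∃ w : List S,
      u = w.flatMap I ++ if (stp (g none))^[K * w.length]
        (w.foldl (fun c s => stp (g (some s)) c) a) i₀ = 0 then [p, q] else [q, p] := by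
  constructor
  · rintro ⟨x, x', x'', h1, h2, ⟨_, rfl, h3⟩, h4⟩
    obtain ⟨w, h6⟩ := sound0 I p q g a K i₀ h1
    obtain ⟨s, j, h7, h8⟩ := sound1 I p q g K i₀ h6 h2
    obtain ⟨u', v, h9⟩ := fin_step (.inl i₀) p q (pre_pre _ j) h8
    rw [h3.det h9, era_iff, keep_fin] at h4
    obtain rfl : j = 0 := by
      by_contra h
      have : Symbol.nonterminal Nm.D ∈ (u.map .terminal : List (Sy T (Wk ι))) := by
        rw [← h4]; simp [h]
      simp at this
    rw [List.replicate_zero, List.append_nil, ← List.map_append] at h4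
    rw [Nat.zero_add] at h7
    exact ⟨w, h7 ▸ (List.map_injective_iff.2 terminal_injective h4).symm⟩
  · rintro ⟨w, rfl⟩
    obtain ⟨x, h2, h3⟩ := compl0 I p q g a K i₀ w
    obtain ⟨y, h4, h5⟩ := compl1 I p q g K i₀ _ h3
    obtain ⟨u', v, h6⟩ := fin_step (.inl i₀) p q (pre_pre _ 0) h5
    exact ⟨x, y, _, h2, h4, ⟨_, rfl, h6⟩, by rw [era_iff, keep_fin]; simp [emb]; rfl⟩

theorem thin [Finite S] : IsEM1 ({u | ∃ w : List S,
      u = w.flatMap I ++ if (stp (g none))^[K * w.length]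
        (w.foldl (fun c s => stp (g (some s)) c) a) i₀ = 0 then [p, q] else [q, p]} :
      Language T) := by
  have : Finite (Wk ι) := Finite.of_surjective (Sum.elim Wk.inl Wk.inr) fun c => by
    cases c with
    | inl i => exact ⟨.inl i, rfl⟩
    | inr π => exact ⟨.inr π, rfl⟩
  have := isEM1_at (P := PP I p q g K i₀) (Er := Ers _) (x0 := x₀ T a) (fun i => by
    rcases i with _ | _ | i
    exacts [Set.finite_range _, Set.finite_singleton _, Set.finite_singleton _])
    ((Set.finite_range _).insert _)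
  simpa only [at_iff] using this

end main

section squares

def inc (b : Bool) : ℕ := if b then 1 else 2

/-- A real-time machine whose counter `0` holds the parity of the square root of the time. -/
def gsq (z : Fin 4 → Bool) : Fin 4 → ℕ :=
  if z 1 = true ∧ z 2 = false then ![inc (z 0) - 1, 0, 0, inc (z 3)]
  else if z 3 = false then ![inc (z 0) - 1, 1, inc (z 2), 0] else ![2 - inc (z 0), 0, inc (z 2), 0]

theorem stp_vec {z s : ℕ} (a b : ℕ) (hz : z ≤ 1) (hs : s ≤ 1) : stp gsq ![z, s, a, b] =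
    if s = 0 ∧ a ≠ 0 then ![z, 0, a - 1, b + 1] else if b ≠ 0 then ![z, 1, a + 1, b - 1]
    else ![1 - z, 0, a + 1, 0] := by
  funext i
  by_cases h0 : z = 0 <;> by_cases h1 : s = 0 <;> by_cases h2 : a = 0 <;> by_cases h3 : b = 0 <;>
    fin_cases i <;> simp [stp, gsq, inc, h0, h1, h2, h3] <;> omega

theorem gsq_inv (n : ℕ) : ∃ j r, n = j * j + r ∧ r ≤ 2 * j ∧ (stp gsq)^[n] ![0, 0, 0, 0] =
    if r ≤ j then ![j % 2, 0, j - r, r] else ![j % 2, 1, r - j, 2 * j - r] := by
  induction n with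
  | zero => exact ⟨0, 0, rfl, le_rfl, rfl⟩
  | succ n ih =>
    obtain ⟨j, r, h1, h2, h3⟩ := ih
    rw [Function.iterate_succ_apply', h3]
    have e : ∀ {a b c d a' b' c' d' : ℕ}, a = a' → b = b' → c = c' → d = d' →
        ![a, b, c, d] = ![a', b', c', d'] := fun h1 h2 h3 h4 => by rw [h1, h2, h3, h4]
    by_cases h : r = 2 * j
    · refine ⟨j + 1, 0, by rw [h1, h]; ring, by omega, ?_⟩
      split_ifs <;> rw [stp_vec _ _ (by omega) (by omega)] <;> split_ifs <;>
        first | omega | exact e (by omega) rfl (by omega) (by omega) | (exfalso; tauto)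
    · refine ⟨j, r + 1, by omega, by omega, ?_⟩
      split_ifs <;> rw [stp_vec _ _ (by omega) (by omega)] <;> split_ifs <;>
        first | omega | exact e rfl rfl (by omega) (by omega) | (exfalso; tauto)

theorem gsq_zero (n : ℕ) : (stp gsq)^[n] ![0, 0, 0, 0] 0 = 0 ↔ Even n.sqrt := by
  obtain ⟨j, r, h1, h2, h3⟩ := gsq_inv n
  rw [h3, ← (Nat.eq_sqrt.2 ⟨by omega, by nlinarith⟩ : j = n.sqrt), Nat.even_iff]
  split_ifs <;> rfl

theorem sq_em1 : IsEM1 ({u | ∃ n, u = List.replicate n 0 ++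
    if Even n.sqrt then [0, 1] else [1, 0]} : Language (Fin 2)) := by
  have e : ∀ (w : List Unit) (c : Fin 4 → ℕ), w.foldl
      (fun c _ => stp gsq c) c = (stp gsq)^[w.length] c := fun w => by
    induction w with
    | nil => exact fun _ => rfl
    | cons _ w ih => exact fun c => ih _
  have e' : ∀ w : List Unit, w.flatMap (fun _ => [(0 : Fin 2)]) = List.replicate w.length 0 :=
    fun w => by induction w <;> simp_all [List.replicate_succ]
  convert thin (fun _ : Unit => [(0 : Fin 2)]) 0 1 (fun _ => gsq) ![0, 0, 0, 0] 0 0 using 1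
  refine Set.ext fun u => ?_
  simp only [Set.mem_ofPred_eq, e, e', Nat.zero_mul, Function.iterate_zero, id, gsq_zero]
  exact ⟨fun ⟨n, h⟩ => ⟨List.replicate n (), by simpa using h⟩, fun ⟨w, h⟩ => ⟨_, h⟩⟩

theorem sqrt_ap (p d t : ℕ) (hd : 0 < d) (ht : p + d ≤ t) : ∃ m, t = (p + m * d).sqrt := by
  obtain ⟨q, hq⟩ := Nat.exists_eq_add_of_le (by nlinarith : p ≤ t * t)
  have h1 := Nat.div_add_mod q d
  have h2 := Nat.mod_lt q hd
  have h3 : (q / d + 1) * d = d * (q / d) + d := by ring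
  have h4 : (t + 1) * (t + 1) = t * t + 2 * t + 1 := by ring
  exact ⟨q / d + 1, Nat.eq_sqrt.2 ⟨by omega, by omega⟩⟩

theorem half_finite {K : Language (Fin 2)} (hK : IsEM1 K) (b : Prop) (t : List (Fin 2))
    (h : ∀ u ∈ K, ∃ n : ℕ, (Even n.sqrt ↔ b) ∧ u = List.replicate n 0 ++ t) :
    {u | u ∈ K}.Finite := by
  by_contra hi
  have hN : {n : ℕ | List.replicate n 0 ++ t ∈ K}.Infinite := fun hN =>
    hi ((hN.image fun n => List.replicate n 0 ++ t).subset fun u hu => by
      obtain ⟨n, -, rfl⟩ := h u hu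
      exact ⟨n, hu, rfl⟩)
  obtain ⟨i, j, hij, hm⟩ := hK.pump _ fun k => Nat.nth_mem_of_infinite hN k
  obtain ⟨d, hd⟩ := Nat.exists_eq_add_of_lt (Nat.nth_strictMono hN hij)
  have e : ∀ s, Nat.nth (fun n => List.replicate n 0 ++ t ∈ K) i + (d + 1) ≤ s →
      (Even s ↔ b) := fun s hs => by
    obtain ⟨m, rfl⟩ := sqrt_ap _ _ _ d.succ_pos hs
    obtain ⟨z, hz, h1⟩ := hm m
    obtain ⟨n, h2, rfl⟩ := h z hz
    have h3 := h1 0
    simp only [List.count_append, List.count_replicate_self, hd] at h3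
    rwa [(by nlinarith : n = Nat.nth (fun n => List.replicate n 0 ++ t ∈ K) i + m * (d + 1))] at h2
  have e1 := e _ le_rfl
  have e2 := e _ (Nat.le_succ _)
  rw [Nat.even_add_one] at e2
  tauto

theorem sq_immune {K : Language (Fin 2)} (hK : IsMatrix K) (h : ∀ u ∈ K, ∃ n : ℕ,
    u = List.replicate n 0 ++ if Even n.sqrt then [0, 1] else [1, 0]) : {u | u ∈ K}.Finite := by
  refine ((half_finite (hK.inter_dfa (fun _ t => t) (0 : Fin 2) 1).isEM1 True [0, 1] ?_).union
    (half_finite (hK.inter_dfa (fun _ t => t) (0 : Fin 2) 0).isEM1 False [1, 0] ?_)).subset ?_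
  · rintro u ⟨h1, h2⟩
    obtain ⟨n, rfl⟩ := h u h1
    split_ifs at h2 ⊢ with hn
    · exact ⟨n, by simpa, rfl⟩
    · simp at h2
  · rintro u ⟨h1, h2⟩
    obtain ⟨n, rfl⟩ := h u h1
    split_ifs at h2 ⊢ with hn
    · simp at h2
    · exact ⟨n, by simpa using hn, rfl⟩
  · intro u hu
    rcases Fin.exists_fin_two.1 ⟨u.foldl (fun _ t => t) 0, rfl⟩ with h1 | h1
    exacts [.inr ⟨hu, h1⟩, .inl ⟨hu, h1⟩]

end squares

end Pool.Agent.MP_99d1ae_lc.Obl
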